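import Mathlib
import Pool.Agent.H377.AD.Fam

/-!
# The affine group of a finite field is rigid below `q - 1`
-/

set_option autoImplicit false
set_option linter.unusedSectionVars false

namespace Pool.Agent.H701.HW

open Subgroup Pool.Agent.H302R2 Pool.Agent.H302R3 Pool.Agent.H302R5 Pool.Agent.H541R3.ARS
  Pool.Agent.H377.AD
open scoped commutatorElement

section
variable (F : Type) [Field F]

/-- the affine group of the line, as a permutation group -/
def aff : Subgroup (Equiv.Perm F) where
  carrier := {π | ∃ (u : Fˣ) (a : F), ∀ x, π x = u * x + a}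
  mul_mem' := by
    rintro π σ ⟨u, a, h⟩ ⟨v, b, k⟩
    refine ⟨u * v, u * b + a, fun x => ?_⟩
    rw [Equiv.Perm.mul_apply, k, h]
    push_cast
    ring
  one_mem' := ⟨1, 0, fun x => by simp⟩
  inv_mem' := by
    rintro π ⟨u, a, h⟩
    refine ⟨u⁻¹, -((u⁻¹ : Fˣ) : F) * a, fun x => ?_⟩
    rw [Equiv.Perm.inv_eq_iff_eq, h]
    have h1 : (u : F) * ((u⁻¹ : Fˣ) : F) = 1 := by rw [← Units.val_mul, mul_inv_cancel, Units.val_one]
    linear_combination (a - x) * h1

variable {F}

/-- translations -/
def tr : Multiplicative F →* aff F where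
  toFun a := ⟨Equiv.addRight (Multiplicative.toAdd a), 1, Multiplicative.toAdd a, fun x => by simp⟩
  map_one' := by
    apply Subtype.ext
    ext x
    simp
  map_mul' a b := by
    apply Subtype.ext
    ext x
    simp only [Subgroup.coe_mul, Equiv.Perm.mul_apply, Equiv.coe_addRight, toAdd_mul]
    ring

lemma tr_apply (a : F) (x : F) : (tr (Multiplicative.ofAdd a) : Equiv.Perm F) x = x + a := rfl

/-- multiplications -/
def ml (u : Fˣ) : aff F := ⟨u.mulLeft, u, 0, fun x => by simp⟩

lemma ml_apply (u : Fˣ) (x : F) : (ml u : Equiv.Perm F) x = u * x := rfl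

lemma ml_conj (u : Fˣ) (a : F) : ml u * tr (Multiplicative.ofAdd a) * (ml u)⁻¹ =
    tr (Multiplicative.ofAdd (u * a)) := by
  rw [mul_inv_eq_iff_eq_mul]
  apply Subtype.ext
  ext x
  simp only [Subgroup.coe_mul, Equiv.Perm.mul_apply, ml_apply, tr_apply]
  ring

/-- commutators are translations -/
lemma comm_le_tr : commutator (aff F) ≤ (tr (F := F)).range := by
  rw [commutator_def, Subgroup.commutator_le]
  rintro ⟨g, u, a, hg⟩ _ ⟨h, v, b, hh⟩ _
  refine ⟨Multiplicative.ofAdd (u * b + a - v * a - b), ?_⟩
  rw [commutatorElement_def, eq_mul_inv_iff_mul_eq, eq_mul_inv_iff_mul_eq]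
  apply Subtype.ext
  ext x
  simp only [Subgroup.coe_mul, Equiv.Perm.mul_apply, tr_apply, hg, hh]
  ring

/-- translations are commutators if there are at least three elements -/
lemma tr_mem_comm {u : Fˣ} (hu : u ≠ 1) (a : F) :
    tr (Multiplicative.ofAdd a) ∈ commutator (aff F) := by
  have hu1 : (u : F) - 1 ≠ 0 := by
    rw [sub_ne_zero]
    intro h
    exact hu (Units.ext h)
  have h1 : tr (Multiplicative.ofAdd a) = ⁅ml u, tr (Multiplicative.ofAdd (((u : F) - 1)⁻¹ * a))⁆ := by
    rw [commutatorElement_def, ml_conj, ← map_inv, ← map_mul, ← ofAdd_neg, ← ofAdd_add]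
    congr 2
    field_simp
    ring
  rw [h1]
  exact Subgroup.commutator_mem_commutator (mem_top _) (mem_top _)

variable [Finite F]

/-- **Rigidity of the affine group** -/
theorem rigid_aff : Rigid (Nat.card F - 1) (aff F) := by
  classical
  intro ε hε n hn h1 x hx
  have : Fintype F := Fintype.ofFinite F
  have : Fintype (Multiplicative F →* ℂˣ) := Fintype.ofFinite _
  choose m hm using fun ψ : Multiplicative F →* ℂˣ =>
    hε.mult_hom (sol_of_comm (E := Multiplicative F) mul_comm) tr ψ
  have hE : (Nat.card (Multiplicative F) : ℂ) ≠ 0 := by exact_mod_cast Nat.card_pos.ne'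
  have hinv : ∀ h : Multiplicative F, ε (tr h) =
      ∑ ψ : Multiplicative F →* ℂˣ, (m ψ : ℂ) * ((ψ h : ℂˣ) : ℂ) := by
    intro h
    rw [fourier_inv (E := Multiplicative F) mul_comm (fun h => ε (tr h)) h]
    refine Finset.sum_congr rfl fun ψ _ => ?_
    rw [hm ψ, mul_comm (m ψ : ℂ), ← mul_assoc, inv_mul_cancel₀ hE, one_mul]
  have htot : ∑ ψ : Multiplicative F →* ℂˣ, m ψ = n := by
    have h2 := hinv 1
    rw [map_one, h1] at h2
    simp only [map_one, Units.val_one, mul_one] at h2
    exact_mod_cast h2.symm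
  have hzero : ∀ ψ : Multiplicative F →* ℂˣ, ψ ≠ 1 → m ψ = 0 := by
    intro ψ hψ
    by_contra h0
    let s : Fˣ → (Multiplicative F →* ℂˣ) := fun u =>
      { toFun := fun x => ψ (Multiplicative.ofAdd (u * Multiplicative.toAdd x))
        map_one' := by simp
        map_mul' := fun x y => by rw [toAdd_mul, mul_add, ofAdd_add, map_mul] }
    have hs : ∀ (u : Fˣ) (x : Multiplicative F), s u x =
        ψ (Multiplicative.ofAdd (u * Multiplicative.toAdd x)) := fun _ _ => rfl
    have hinj : Function.Injective s := by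
      intro u v huv
      by_contra hne
      apply hψ
      have hd : (u : F) - v ≠ 0 := by
        rw [sub_ne_zero]
        intro h
        exact hne (Units.ext h)
      refine MonoidHom.ext fun y => ?_
      have h2 := DFunLike.congr_fun huv
        (Multiplicative.ofAdd (((u : F) - v)⁻¹ * Multiplicative.toAdd y))
      rw [hs, hs, toAdd_ofAdd, ← div_eq_one, ← map_div, ← ofAdd_sub, ← sub_mul, ← mul_assoc,
        mul_inv_cancel₀ hd, one_mul, ofAdd_toAdd] at h2
      rw [h2, MonoidHom.one_apply]
    have hconst : ∀ u, m (s u) = m ψ := by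
      intro u
      have h2 : ∑ e : Multiplicative F, ε (tr e) * (((s u e)⁻¹ : ℂˣ) : ℂ) =
          ∑ e : Multiplicative F, ε (tr e) * (((ψ e)⁻¹ : ℂˣ) : ℂ) := by
        let T : Multiplicative F ≃ Multiplicative F :=
          { toFun := fun x => Multiplicative.ofAdd (u * Multiplicative.toAdd x)
            invFun := fun x => Multiplicative.ofAdd (((u⁻¹ : Fˣ) : F) * Multiplicative.toAdd x)
            left_inv := fun x => by simp
            right_inv := fun x => by simp }
        refine Fintype.sum_equiv T _ _ fun x => ?_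
        have h3 : ε (tr (T x)) = ε (tr x) := by
          have h4 := hε.conj (tr x) (ml u)
          have h5 := ml_conj u (Multiplicative.toAdd x)
          rw [ofAdd_toAdd] at h5
          rw [h5] at h4
          exact h4
        rw [h3, hs]
        rfl
      rw [hm, hm] at h2
      exact_mod_cast mul_right_cancel₀ hE h2
    have h2 : ∑ u : Fˣ, m (s u) ≤ ∑ ψ : Multiplicative F →* ℂˣ, m ψ := by
      rw [← Finset.sum_image (s := Finset.univ) (g := s) (f := m) (fun a _ b _ h => hinj h)]
      exact Finset.sum_le_sum_of_subset (Finset.subset_univ _)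
    rw [Finset.sum_congr rfl (fun u _ => hconst u), Finset.sum_const, Finset.card_univ, smul_eq_mul,
      htot, Fintype.card_units, ← Nat.card_eq_fintype_card] at h2
    have h3 : 1 ≤ m ψ := Nat.one_le_iff_ne_zero.2 h0
    have h4 : (Nat.card F - 1) * 1 ≤ (Nat.card F - 1) * m ψ := Nat.mul_le_mul_left _ h3
    omega
  have hval : ∀ h : Multiplicative F, ε (tr h) = m 1 := by
    intro h
    rw [hinv h, Finset.sum_eq_single 1]
    · simp
    · intro ψ _ hψ
      rw [hzero ψ hψ]
      simp
    · intro h
      exact absurd (Finset.mem_univ _) h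
  obtain ⟨a, rfl⟩ := comm_le_tr hx
  rw [hval, ← map_one tr, hval]

end

end Pool.Agent.H701.HW
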