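import Mathlib
import Pool.Agent.H377.AD.Ker
import Pool.Agent.H701.CP.Asm
import Pool.Graph.R_pool_sql_team_seeded_3997aac3.Q7.SZ.Bas

/-!
# Central functions with multiplicities on the solvable subgroups

Functions with nonnegative multiplicities on the solvable subgroups (`IsSolHeilbronn`) which are real
and have even multiplicities against the characters of order at most two of the solvable subgroups.
The orders at the centre `s = 1` of the L-functions `L(E ⊗ χ, s)` of an elliptic curve are such a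
function if the root numbers `w(E ⊗ χ)` of the real characters are `1`.
-/

set_option autoImplicit false
set_option linter.unusedSectionVars false

namespace Pool.Agent.H701.HW

open Subgroup Pool.Agent.H302R2 Pool.Agent.H302R3 Pool.Agent.H302R5 Pool.Agent.H541R3.ART
  Pool.Agent.W446.AS Pool.Agent.TH820 Pool.Agent.H701.CP
open scoped commutatorElement

/-- A function with nonnegative multiplicities on the solvable subgroups which is real and has even
multiplicities against the characters of order at most two of the solvable subgroups. -/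
structure SolCentral {G : Type} [Group G] (θ : G → ℂ) : Prop where
  hb : IsSolHeilbronn θ
  real : ∀ g, θ g⁻¹ = θ g
  even : ∀ (H : Subgroup G), Group.IsSolvable H → ∀ (χ : H →* ℂˣ), (∀ h, χ h ^ 2 = 1) →
    ∃ n : ℕ, ∑ᶠ h : H, θ h * (((χ h)⁻¹ : ℂˣ) : ℂ) = (2 * n : ℂ) * (Nat.card H : ℂ)

section
variable {G : Type} [Group G] [Finite G] {θ : G → ℂ}

/-- even multiplicities along homomorphisms of solvable groups -/
lemma SolCentral.even_hom (hθ : SolCentral θ) {E : Type} [Group E] [Fintype E]
    (hE : Group.IsSolvable E) (φ : E →* G) (χ : E →* ℂˣ) (hχ2 : ∀ e, χ e ^ 2 = 1) :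
    ∃ n : ℕ, ∑ e : E, θ (φ e) * (((χ e)⁻¹ : ℂˣ) : ℂ) = (2 * n : ℂ) * (Nat.card E : ℂ) := by
  classical
  by_cases hker : ∀ k ∈ φ.ker, χ k = 1
  · have : Fintype φ.range := Fintype.ofFinite _
    let χ' : φ.range →* ℂˣ :=
      (QuotientGroup.lift φ.ker χ hker).comp
        (QuotientGroup.quotientKerEquivRange φ).symm.toMonoidHom
    have hχ' : ∀ e : E, χ' (φ.rangeRestrict e) = χ e := by
      intro e
      have : (QuotientGroup.quotientKerEquivRange φ).symm (φ.rangeRestrict e)
          = (QuotientGroup.mk e : E ⧸ φ.ker) := by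
        rw [MulEquiv.symm_apply_eq]; rfl
      simp only [χ', MonoidHom.coe_comp, MulEquiv.coe_toMonoidHom, Function.comp_apply, this]
      rfl
    obtain ⟨n, hn⟩ := hθ.even φ.range (Group.isSolvable_of_surjective φ.rangeRestrict_surjective)
      χ' (by
      intro h
      obtain ⟨e, rfl⟩ := φ.rangeRestrict_surjective h
      rw [hχ', hχ2])
    refine ⟨n, ?_⟩
    rw [finsum_eq_sum_of_fintype] at hn
    have h1 := sum_comp_surj φ.rangeRestrict φ.rangeRestrict_surjective
      (fun h : φ.range => θ h * (((χ' h)⁻¹ : ℂˣ) : ℂ))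
    simp only [hχ', MonoidHom.coe_rangeRestrict] at h1
    rw [h1, hn, MonoidHom.ker_rangeRestrict]
    have h2 : Nat.card E = Nat.card φ.ker * Nat.card φ.range := by
      rw [← Nat.card_congr (QuotientGroup.quotientKerEquivRange φ).toEquiv, mul_comm]
      exact Subgroup.card_eq_card_quotient_mul_card_subgroup _
    rw [h2]; push_cast; ring
  · push Not at hker
    obtain ⟨k, hk, hχk⟩ := hker
    refine ⟨0, ?_⟩
    have h1 : ∑ e : E, θ (φ e) * (((χ e)⁻¹ : ℂˣ) : ℂ)
        = ∑ e : E, θ (φ (e * k)) * (((χ (e * k))⁻¹ : ℂˣ) : ℂ) :=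
      (Equiv.sum_comp (Equiv.mulRight k)
        (fun e => θ (φ e) * (((χ e)⁻¹ : ℂˣ) : ℂ))).symm
    have h2 : ∑ e : E, θ (φ (e * k)) * (((χ (e * k))⁻¹ : ℂˣ) : ℂ)
        = (((χ k)⁻¹ : ℂˣ) : ℂ) * ∑ e : E, θ (φ e) * (((χ e)⁻¹ : ℂˣ) : ℂ) := by
      rw [Finset.mul_sum]
      refine Finset.sum_congr rfl fun e _ => ?_
      rw [map_mul, map_mul, MonoidHom.mem_ker.mp hk, mul_one, mul_inv_rev]
      push_cast; ring
    have h3 : (((χ k)⁻¹ : ℂˣ) : ℂ) ≠ 1 := by
      intro h
      apply hχk
      rw [← inv_eq_one, ← Units.val_eq_one]; exact h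
    have h4 : (1 - (((χ k)⁻¹ : ℂˣ) : ℂ)) * ∑ e : E, θ (φ e) * (((χ e)⁻¹ : ℂˣ) : ℂ) = 0 := by
      rw [sub_mul, one_mul, ← h2, ← h1, sub_self]
    rcases mul_eq_zero.mp h4 with h5 | h5
    · exact absurd (sub_eq_zero.mp h5).symm h3
    · rw [h5]; simp

/-- On solvable groups one gets central Heilbronn functions. -/
lemma SolCentral.central (hθ : SolCentral θ) {E : Type} [Group E] [Finite E]
    (hE : Group.IsSolvable E) (φ : E →* G) : Central (fun e => θ (φ e)) where
  hb := hθ.hb.comp_sol hE φ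
  real g := by simp only [map_inv]; exact hθ.real _
  even H χ hχ := by
    have : Fintype H := Fintype.ofFinite _
    have hH : Group.IsSolvable H := inferInstance
    obtain ⟨n, hn⟩ := hθ.even_hom hH (φ.comp H.subtype) χ hχ
    exact ⟨n, by rw [finsum_eq_sum_of_fintype]; exact hn⟩

lemma SolCentral.comp (hθ : SolCentral θ) {E : Type} [Group E] [Finite E] (φ : E →* G) :
    SolCentral (fun e => θ (φ e)) where
  hb := hθ.hb.comp φ
  real g := by simp only [map_inv]; exact hθ.real _
  even H hH χ hχ := by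
    have : Fintype H := Fintype.ofFinite _
    obtain ⟨n, hn⟩ := hθ.even_hom hH (φ.comp H.subtype) χ hχ
    exact ⟨n, by rw [finsum_eq_sum_of_fintype]; exact hn⟩

lemma _root_.Pool.Agent.H302R3.IsSolHeilbronn.inv_of_eq' (hθ : IsSolHeilbronn θ) {x : G}
    (hx : θ x = θ 1) : θ x⁻¹ = θ 1 := by
  have h1 : x⁻¹ = x ^ (orderOf x - 1) := by
    rw [inv_eq_iff_mul_eq_one, ← pow_succ', Nat.sub_add_cancel (orderOf_pos x), pow_orderOf_eq_one]
  rw [h1]
  exact hθ.pow_of_eq hx _

/-- a `p`-subgroup and an element normalising it generate a solvable group -/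
lemma sol_sup {p : ℕ} (hp : p.Prime) {Q : Subgroup G} (hQ : IsPGroup p Q) {t : G}
    (ht : t ∈ normalizer (Q : Set G)) : Group.IsSolvable (Q ⊔ zpowers t : Subgroup G) := by
  have : Fact p.Prime := ⟨hp⟩
  set E : Subgroup G := Q ⊔ zpowers t with hE
  have hQE : Q ≤ E := le_sup_left
  have htE : t ∈ E := mem_sup_right (mem_zpowers t)
  have hnorm : E ≤ normalizer (Q : Set G) := sup_le le_normalizer (by rwa [zpowers_le])
  let Q' : Subgroup E := Q.subgroupOf E
  have hQ'n : Q'.Normal := by
    constructor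
    intro n hn g
    rw [mem_subgroupOf] at hn ⊢
    exact (mem_normalizer_iff.1 (hnorm g.2) _).1 hn
  have hs : Group.IsSolvable Q' := by
    have h1 := pgroup_sol hp hQ
    exact Group.isSolvable_of_isSolvable_injective
      (f := (Subgroup.subgroupOfEquivOfLe hQE).toMonoidHom)
      (Subgroup.subgroupOfEquivOfLe hQE).injective
  have hc : ∀ a b : E ⧸ Q', a * b = b * a := by
    have key : ∀ a : E ⧸ Q', ∃ j : ℤ, a = (QuotientGroup.mk' Q' ⟨t, htE⟩) ^ j := by
      intro a
      obtain ⟨g, rfl⟩ := QuotientGroup.mk'_surjective Q' a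
      obtain ⟨u, hu, j, hj⟩ := mem_sup_zpowers ht g.2
      refine ⟨j, ?_⟩
      have h2 : g = ⟨u, hQE hu⟩ * ⟨t, htE⟩ ^ j := Subtype.ext (by
        rw [Subgroup.coe_mul, Subgroup.coe_zpow]
        exact hj)
      rw [h2, map_mul, map_zpow]
      have h3 : QuotientGroup.mk' Q' ⟨u, hQE hu⟩ = 1 := (QuotientGroup.eq_one_iff _).2 hu
      rw [h3, one_mul]
    intro a b
    obtain ⟨i, rfl⟩ := key a
    obtain ⟨j, rfl⟩ := key b
    rw [← zpow_add, ← zpow_add, add_comm]
  have h3 : Group.IsSolvable (E ⧸ Q') := Group.isSolvable_of_comm hc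
  exact Group.isSolvable_of_ker_le_range Q'.subtype (QuotientGroup.mk' Q')
    (by rw [QuotientGroup.ker_mk', Subgroup.range_subtype])

end

end Pool.Agent.H701.HW
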