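import Mathlib
import Pool.Agent.H701.HW.Sol

/-!
# The kernel of a central function with multiplicities on the solvable subgroups
-/

set_option autoImplicit false
set_option linter.unusedSectionVars false

namespace Pool.Agent.H701.HW

open Subgroup Pool.Agent.H302R2 Pool.Agent.H302R3 Pool.Agent.H302R5 Pool.Agent.H541R3.ART
  Pool.Agent.W446.AS Pool.Agent.TH820 Pool.Agent.H701.CP
open scoped commutatorElement

/-- no twisted section of a solvable subgroup on which the multiplicity of the nontrivial character of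
`{1, z}` is positive -/
def SNT {G : Type} [Group G] (θ : G → ℂ) : Prop :=
  ∀ (H : Subgroup G), Group.IsSolvable H → ∀ (X : Type) [Group X] (f : H →* X) (E : Subgroup X)
    (z t : X), Function.Surjective f → Twisted X E z t → ∑ᶠ h : H, θ h * cz z (f h) = 0

lemma SNT.aux {G H : Type} [Group G] [Group H] {θ : G → ℂ} (h : SNT θ) (i : H →* G)
    (hi : Function.Injective i) (H' : Subgroup H) (hs : Group.IsSolvable H') (X : Type) [Group X]
    (f : H' →* X) (E : Subgroup X) (z t : X) (hf : Function.Surjective f) (hT : Twisted X E z t) :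
    ∑ᶠ x : H', θ (i x) * cz z (f x) = 0 := by
  let e := H'.equivMapOfInjective i hi
  have hs' : Group.IsSolvable (H'.map i) := Group.isSolvable_of_surjective (f := e.toMonoidHom) e.surjective
  have h1 := h (H'.map i) hs' X (f.comp e.symm.toMonoidHom) E z t (hf.comp e.symm.surjective) hT
  rw [← h1]
  refine finsum_eq_of_bijective e e.bijective ?_
  intro x
  have h2 : ((e x : H'.map i) : G) = i (x : H) := rfl
  have h3 : (f.comp e.symm.toMonoidHom) (e x) = f x := by
    change f (e.symm (e x)) = f x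
    rw [MulEquiv.symm_apply_apply]
  rw [h3, h2]

lemma SNT.sub {G H : Type} [Group G] [Group H] {θ : G → ℂ} (h : SNT θ) (i : H →* G)
    (hi : Function.Injective i) : SNT (fun x => θ (i x)) :=
  fun H' hs X _ f E z t hf hT => h.aux i hi H' hs X f E z t hf hT

lemma SNT.nt {G H : Type} [Group G] [Group H] {θ : G → ℂ} (h : SNT θ) (hH : Group.IsSolvable H)
    (i : H →* G) (hi : Function.Injective i) : NT (fun x => θ (i x)) :=
  fun H' X _ f E z t hf hT => h.aux i hi H' inferInstance X f E z t hf hT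

section
variable {G : Type} [Group G] [Finite G] {θ : G → ℂ}

lemma sub_pgroup {p : ℕ} {Q E : Subgroup G} (hQ : IsPGroup p Q) : IsPGroup p (Q.subgroupOf E) := by
  rintro ⟨⟨y, hyE⟩, hyR⟩
  obtain ⟨j, hj⟩ := pow_of_mem hQ (show y ∈ Q from hyR)
  refine ⟨j, ?_⟩
  apply Subtype.ext
  apply Subtype.ext
  simpa using hj

lemma sub_norm {Q E : Subgroup G} {t : G} (ht : t ∈ normalizer (Q : Set G)) (htE : t ∈ E) :
    (⟨t, htE⟩ : E) ∈ normalizer (Q.subgroupOf E : Set E) := by
  rw [mem_normalizer_iff]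
  intro y
  rw [mem_subgroupOf, mem_subgroupOf]
  exact mem_normalizer_iff.1 ht y

/-- elements of odd prime power order acting on a two-subgroup -/
lemma act_two_sol (hc : SolCentral θ) (hv : Virt θ) (hNT : SNT θ) {r : ℕ} (hr : θ 1 = r) {m : ℕ}
    (hm : m.Prime) (hm2 : m ≠ 2) (hmr : r < 2 * m) {Q : Subgroup G} (hQ : IsPGroup 2 Q) {t : G}
    (ht : t ∈ normalizer (Q : Set G)) {k : ℕ} (hk : t ^ m ^ k = 1) {x : G} (hx : x ∈ Q) :
    θ (x⁻¹ * (t * x * t⁻¹)) = θ 1 := by
  have hE := sol_sup Nat.prime_two hQ ht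
  set E : Subgroup G := Q ⊔ zpowers t with hEdef
  have htE : t ∈ E := mem_sup_right (mem_zpowers t)
  have hxE : x ∈ E := mem_sup_left hx
  exact act_two_real _ E rfl (fun x => θ x) (hc.central hE E.subtype) (hv.comp E.subtype)
    (hNT.nt hE E.subtype E.subtype_injective) r (by simpa using hr) m hm hm2 hmr
    (Q.subgroupOf E) (sub_pgroup hQ) ⟨t, htE⟩ (sub_norm ht htE) k
    (by apply Subtype.ext; simpa using hk) ⟨x, hxE⟩ (by rw [mem_subgroupOf]; exact hx)

/-- elements of odd prime power order acting on a `p`-subgroup with commutators in the kernel -/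
lemma act_real_sol (hc : SolCentral θ) {r : ℕ} (hr : θ 1 = r) {p : ℕ}
    [hp : Fact p.Prime] {Q : Subgroup G} (hQ : IsPGroup p Q)
    (hcomm : ∀ x ∈ Q, ∀ y ∈ Q, θ (x * y * x⁻¹ * y⁻¹) = θ 1) {m : ℕ} (hm : m.Prime) (hm2 : m ≠ 2)
    (hmr : r < 2 * m) {t : G} (ht : t ∈ normalizer (Q : Set G)) {k : ℕ} (hk : t ^ m ^ k = 1)
    {x : G} (hx : x ∈ Q) : θ (x⁻¹ * (t * x * t⁻¹)) = θ 1 := by
  have hE := sol_sup hp.out hQ ht
  set E : Subgroup G := Q ⊔ zpowers t with hEdef
  have htE : t ∈ E := mem_sup_right (mem_zpowers t)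
  have hxE : x ∈ E := mem_sup_left hx
  exact act_real_sub (hc.central hE E.subtype) (r := r) (by simpa using hr)
    (Q := Q.subgroupOf E) (sub_pgroup hQ) (by
      rintro ⟨a, haE⟩ ha ⟨b, hbE⟩ hb
      exact hcomm a ha b hb) hm hm2 hmr (t := ⟨t, htE⟩) (sub_norm ht htE) (k := k)
    (by apply Subtype.ext; simpa using hk) (x := ⟨x, hxE⟩) (by rw [mem_subgroupOf]; exact hx)

/-- elements of the kernel acting on a `p`-subgroup with commutators in the kernel -/
lemma act_kernel_sol (hc : SolCentral θ) (hv : Virt θ) {r : ℕ} (hr : θ 1 = r) {p : ℕ}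
    [hp : Fact p.Prime] {Q : Subgroup G} (hQ : IsPGroup p Q)
    (hcomm : ∀ x ∈ Q, ∀ y ∈ Q, θ (x * y * x⁻¹ * y⁻¹) = θ 1) {t : G}
    (ht : t ∈ normalizer (Q : Set G)) (hθt : θ t = θ 1) {x : G} (hx : x ∈ Q) :
    θ (x⁻¹ * (t * x * t⁻¹)) = θ 1 := by
  have hE := sol_sup hp.out hQ ht
  set E : Subgroup G := Q ⊔ zpowers t with hEdef
  have htE : t ∈ E := mem_sup_right (mem_zpowers t)
  have hxE : x ∈ E := mem_sup_left hx
  exact act_kernel (hc.hb.comp_sol hE E.subtype) (hv.comp E.subtype) (r := r) (by simpa using hr)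
    (Q := Q.subgroupOf E) (sub_pgroup hQ) (by
      rintro ⟨a, haE⟩ ha ⟨b, hbE⟩ hb
      exact hcomm a ha b hb) (t := ⟨t, htE⟩) (sub_norm ht htE) (by simpa using hθt)
    (x := ⟨x, hxE⟩) (by rw [mem_subgroupOf]; exact hx)

/-- **Stability.** -/
theorem stable_sol {l : ℕ} [hl : Fact l.Prime] (P : Sylow l G)
    (hact : ActTriv θ l P) (f : G → ℂˣ) (hmul : ∀ x ∈ P, ∀ y ∈ P, f (x * y) = f x * f y)
    (hf : ∀ x ∈ P, θ x = θ 1 → f x = 1) {x g : G} (hx : x ∈ P) (hg : g * x * g⁻¹ ∈ P) :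
    f (g * x * g⁻¹) = f x := by
  apply stable_of_local P f ?_ hx hg
  intro Q hQP hfull g hg x hx
  -- the stabilizer inside the normalizer
  let NQ := normalizer (Q : Set G)
  have hcQ : ∀ {n : G}, n ∈ NQ → ∀ {x : G}, x ∈ Q → n * x * n⁻¹ ∈ Q := fun {n} hn {x} hx =>
    (mem_normalizer_iff.1 hn x).1 hx
  let S : Subgroup NQ :=
    { carrier := {n | ∀ x ∈ Q, f ((n : G) * x * (n : G)⁻¹) = f x}
      mul_mem' := by
        intro a b ha hb x hx
        have h1 : ((a * b : NQ) : G) * x * ((a * b : NQ) : G)⁻¹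
            = (a : G) * ((b : G) * x * (b : G)⁻¹) * (a : G)⁻¹ := by push_cast; group
        rw [h1, ha _ (hcQ b.2 hx), hb x hx]
      one_mem' := by
        intro x _
        simp
      inv_mem' := by
        intro a ha x hx
        have h1 := ha (((a⁻¹ : NQ) : G) * x * ((a⁻¹ : NQ) : G)⁻¹) (hcQ a⁻¹.2 hx)
        rw [← h1]
        congr 1
        push_cast
        group }
  have hS : S = ⊤ := by
    apply eq_top_of_sylow
    intro m hm
    have hmf : Fact m.Prime := ⟨hm⟩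
    obtain ⟨R⟩ := (inferInstance : Nonempty (Sylow m NQ))
    by_cases hml : m = l
    · subst hml
      -- conjugate the Sylow subgroup into `P`
      let R' : Subgroup G := (R : Subgroup NQ).map NQ.subtype
      have hR' : IsPGroup m R' := R.2.map NQ.subtype
      obtain ⟨n, hn, hnP⟩ := hfull R' hR' (by
        rintro _ ⟨y, -, rfl⟩
        exact y.2)
      let c : NQ := ⟨n, hn⟩
      refine ⟨(R : Subgroup NQ).map (MulAut.conj c).toMonoidHom, ?_, ?_⟩
      · rintro _ ⟨y, hy, rfl⟩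
        intro x hx
        have h1 : ((MulAut.conj c y : NQ) : G) ∈ P := by
          have := hnP (y : G) ⟨y, hy, rfl⟩
          simpa [MulAut.conj_apply] using this
        change f (((MulAut.conj c y : NQ) : G) * x * ((MulAut.conj c y : NQ) : G)⁻¹) = f x
        set u := ((MulAut.conj c y : NQ) : G) with hu
        have hxP : x ∈ P := hQP hx
        have h2 : f u * f u⁻¹ = 1 := by
          rw [← hmul u h1 u⁻¹ (P.inv_mem h1), mul_inv_cancel]
          have h3 := hmul 1 P.one_mem 1 P.one_mem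
          rw [one_mul] at h3
          exact (mul_eq_left.1 h3.symm)
        rw [hmul _ (P.mul_mem h1 hxP) _ (P.inv_mem h1), hmul _ h1 _ hxP, mul_right_comm, h2,
          one_mul]
      · rw [← R.card_eq_multiplicity]
        exact (Nat.card_congr ((R : Subgroup NQ).equivMapOfInjective _
          (MulAut.conj c).injective).toEquiv).symm
    · refine ⟨R, ?_, R.card_eq_multiplicity⟩
      intro y hy x hx
      obtain ⟨k, hk⟩ := pow_of_mem R.2 hy
      have hk' : (y : G) ^ m ^ k = 1 := by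
        have := congrArg Subtype.val hk
        simpa using this
      have h1 := hact Q hQP m hm hml y y.2 ⟨k, hk'⟩ x hx
      have hxP : x ∈ P := hQP hx
      have hyP : (y : G) * x * (y : G)⁻¹ ∈ P := hQP (hcQ y.2 hx)
      have h2 : (y : G) * x * (y : G)⁻¹ = x * (x⁻¹ * ((y : G) * x * (y : G)⁻¹)) := by group
      rw [h2, hmul x hxP _ (P.mul_mem (P.inv_mem hxP) hyP),
        hf _ (P.mul_mem (P.inv_mem hxP) hyP) h1, mul_one]
  have h1 : (⟨g, hg⟩ : NQ) ∈ S := by rw [hS]; exact mem_top _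
  exact h1 x hx

/-- **Extension.** -/
theorem exists_ext_sol {l : ℕ} [hl : Fact l.Prime] (P : Sylow l G)
    (hact : ActTriv θ l P) (f : G → ℂˣ) (hmul : ∀ x ∈ P, ∀ y ∈ P, f (x * y) = f x * f y)
    (hf : ∀ x ∈ P, θ x = θ 1 → f x = 1) :
    ∃ φ : G →* ℂˣ, (∀ x ∈ P, φ x = f x) ∧ ∀ g, φ g ^ Nat.card P = 1 :=
  exists_ext_of_stable P f hmul fun _ hx _ hg => stable_sol P hact f hmul hf hx hg

/-- reduction to elements of prime power order -/
lemma of_prime_powers_sol (hθ : IsSolHeilbronn θ) (N : Subgroup G)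
    (h : ∀ m : ℕ, m.Prime → ∀ x ∈ N, ∀ k : ℕ, x ^ m ^ k = 1 → θ x = θ 1) :
    ∀ x ∈ N, θ x = θ 1 := by
  have key : ∀ n : ℕ, ∀ x ∈ N, orderOf x = n → θ x = θ 1 := by
    intro n
    induction n using Nat.strong_induction_on with
    | _ n ih =>
    intro x hx hn
    by_cases h1 : n = 1
    · rw [h1, orderOf_eq_one_iff] at hn
      rw [hn]
    obtain ⟨p, hp, hpn⟩ := Nat.exists_prime_and_dvd h1
    obtain ⟨a, b, e, f, hcop, -, hef, he, hf, -, -⟩ := exists_parts G hp
    have h2 : x = x ^ f * x ^ e := by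
      rw [← pow_add, add_comm, pow_add, hef]
    have h3 : θ (x ^ e) = θ 1 := h p hp _ (N.pow_mem hx e) a (he x)
    have h4 : orderOf (x ^ f) ∣ n := by rw [← hn]; exact orderOf_pow_dvd f
    have h5 : orderOf (x ^ f) ∣ b := orderOf_dvd_of_pow_eq_one (hf x)
    have hn0 : 0 < n := by rw [← hn]; exact orderOf_pos x
    have h6 : orderOf (x ^ f) < n := by
      refine lt_of_le_of_ne (Nat.le_of_dvd hn0 h4) fun h7 => ?_
      rw [h7] at h5
      exact hp.coprime_iff_not_dvd.1 hcop (hpn.trans h5)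
    have h8 := ih _ h6 (x ^ f) (N.pow_mem hx f) rfl
    rw [h2, hθ.mul_of_comm (by rw [← pow_add, ← pow_add, add_comm]) h3, h8]
  exact fun x hx => key _ x hx rfl

/-- Sylow subgroups for a prime with trivial action: the commutator subgroup is in the kernel -/
lemma sylow_comm_sol (hθ : IsSolHeilbronn θ) {l : ℕ} [hl : Fact l.Prime] (P : Sylow l G)
    (hact : ActTriv θ l P) (hcomm : ∀ x ∈ P, ∀ y ∈ P, θ (x * y * x⁻¹ * y⁻¹) = θ 1) {x : G}
    (hx : x ∈ commutator G) {k : ℕ} (hk : x ^ l ^ k = 1) : θ x = θ 1 := by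
  obtain ⟨g, hg⟩ := exists_conj_mem P hk
  have hθP : IsHeilbronn (fun x : P => θ x) :=
    hθ.comp_sol (pgroup_sol hl.out P.2) (P : Subgroup G).subtype
  have h1 : ∀ y ∈ commutator P, (fun x : P => θ x) y = (fun x : P => θ x) 1 :=
    comm_of_pgroup P.2 hθP (fun x y => hcomm x x.2 y y.2)
  obtain ⟨ι, _, ψ, n, hdec⟩ := lin_decomp hθP h1
  have h2 : g * x * g⁻¹ ∈ commutator G := Subgroup.Normal.conj_mem inferInstance x hx g
  rw [← hθ.conj x g]
  have h3 := hdec ⟨g * x * g⁻¹, hg⟩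
  have h4 := hdec 1
  simp only [OneMemClass.coe_one] at h3 h4
  rw [h3, h4]
  refine Finset.sum_congr rfl fun i _ => ?_
  by_cases hi : n i = 0
  · rw [hi, Nat.cast_zero, zero_mul, zero_mul]
  congr 2
  obtain ⟨φ, hφ, -⟩ := exists_ext_sol P hact (extFun (ψ i))
    (fun a ha b hb => extFun_mul (ψ i) a ha b hb) (fun a ha hθa => by
      rw [extFun_mem (ψ i) ha]
      exact const_triv hdec (a := ⟨a, ha⟩) (by simpa using hθa) hi)
  have h5 := hφ _ hg
  rw [extFun_mem (ψ i) hg] at h5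
  rw [← h5, map_one]
  have h6 : commutator G ≤ φ.ker := Abelianization.commutator_subset_ker φ
  exact h6 h2

/-- **Commutator subgroup.** -/
theorem commutator_ker_sol (hc : SolCentral θ) (hv : Virt θ) {r : ℕ} (hr : θ 1 = r)
    (hp : ∀ p : ℕ, p.Prime → p ≠ 2 → p ∣ Nat.card G → r < 2 * p)
    (h : ∀ (x : G) (k : ℕ), x ^ 2 ^ k = 1 → θ x = θ 1) :
    ∀ g ∈ commutator G, θ g = θ 1 := by
  have hθ := hc.hb
  apply of_prime_powers_sol hθ
  intro l hl x hx k hk
  by_cases hl2 : l = 2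
  · subst hl2
    exact h x k hk
  have hlf : Fact l.Prime := ⟨hl⟩
  by_cases hx1 : x = 1
  · rw [hx1]
  have hlr : r < 2 * l := hp l hl hl2 (dvd_card_of_pow hl hk hx1)
  obtain ⟨P⟩ := (inferInstance : Nonempty (Sylow l G))
  have hcomm : ∀ x ∈ P, ∀ y ∈ P, θ (x * y * x⁻¹ * y⁻¹) = θ 1 := by
    intro x hx y hy
    have := pgroup_comm_real hl2 hlr _ P rfl P.2 (fun x => θ x)
      (hc.central (pgroup_sol hl P.2) (P : Subgroup G).subtype) (by simpa using hr)
      ⟨x, hx⟩ ⟨y, hy⟩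
    simpa using this
  refine sylow_comm_sol hθ P ?_ hcomm hx hk
  rintro Q hQ m hm - t ht ⟨j, hj⟩ x hx
  have hQp : IsPGroup l Q := P.2.to_le hQ
  have hcQ : ∀ x ∈ Q, ∀ y ∈ Q, θ (x * y * x⁻¹ * y⁻¹) = θ 1 := fun x hx y hy =>
    hcomm x (hQ hx) y (hQ hy)
  by_cases hm2 : m = 2
  · subst hm2
    exact act_kernel_sol hc hv hr hQp hcQ ht (h t j hj) hx
  · by_cases ht1 : t = 1
    · subst ht1
      simp
    exact act_real_sol hc hr hQp hcQ hm hm2 (hp m hm hm2 (dvd_card_of_pow hm hj ht1)) ht hj hx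

/-- **Two-elements are in the kernel** if the group is generated by elements of odd order. -/
theorem two_elements_sol (hc : SolCentral θ) (hv : Virt θ) (hNT : SNT θ) {r : ℕ} (hr : θ 1 = r)
    (hp : ∀ p : ℕ, p.Prime → p ≠ 2 → p ∣ Nat.card G → r < 2 * p)
    (hgen : closure {x : G | ∃ m : ℕ, Odd m ∧ x ^ m = 1} = ⊤) (x : G) (k : ℕ)
    (hx : x ^ 2 ^ k = 1) : θ x = θ 1 := by
  have hθ := hc.hb
  have : Fact (Nat.Prime 2) := ⟨Nat.prime_two⟩
  obtain ⟨P⟩ := (inferInstance : Nonempty (Sylow 2 G))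
  obtain ⟨g, hg⟩ := exists_conj_mem P hx
  rw [← hθ.conj x g]
  generalize g * x * g⁻¹ = y at hg
  by_contra hy
  let K : Subgroup P :=
    { carrier := {z | θ z = θ 1}
      mul_mem' := fun {a b} ha hb => by
        have := hθ.pgroup_mul Nat.prime_two P.2 a.2 b.2 ha hb
        simpa using this
      one_mem' := rfl
      inv_mem' := fun {a} ha => by
        have := hθ.inv_of_eq' ha
        simpa using this }
  have hKn : K.Normal := ⟨fun a ha g => by
    change θ ((g * a * g⁻¹ : P) : G) = θ 1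
    have : ((g * a * g⁻¹ : P) : G) = g * a * (g : G)⁻¹ := by push_cast; rfl
    rw [this, hθ.conj]; exact ha⟩
  have hK : K ≠ ⊤ := by
    intro h
    have h3 : (⟨y, hg⟩ : P) ∈ K := by rw [h]; exact mem_top _
    exact hy h3
  obtain ⟨ψ, hψ1, z, hz⟩ := exists_lin P.2 K hK hKn
  obtain ⟨φ, hφ1, hφ2⟩ := exists_ext_sol P (by
      intro Q hQ m hm hm2 t ht ⟨j, hj⟩ w hw
      by_cases ht1 : t = 1
      · subst ht1
        simp
      exact act_two_sol hc hv hNT hr hm hm2
        (hp m hm hm2 (dvd_card_of_pow hm hj ht1)) (P.2.to_le hQ) ht hj hw) (extFun ψ)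
    (fun a ha b hb => extFun_mul ψ a ha b hb) (fun a ha hθa => by
      rw [extFun_mem ψ ha]
      exact hψ1 ⟨a, ha⟩ hθa)
  have h3 : ∀ x, φ x = 1 := by
    have h4 : (⊤ : Subgroup G) ≤ φ.ker := by
      rw [← hgen, closure_le]
      rintro x ⟨m, hm, hx⟩
      obtain ⟨j, hj⟩ := IsPGroup.iff_card.1 P.2
      change φ x = 1
      refine eq_one_of_pow_coprime (m := m) (n := 2 ^ j) ?_ ?_ ?_
      · exact Nat.Coprime.pow_right _ ((Nat.coprime_two_right).2 hm)
      · rw [← map_pow, hx, map_one]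
      · have := hφ2 x
        rw [hj] at this
        exact this
    exact fun x => h4 (mem_top x)
  have h4 := hφ1 z z.2
  rw [h3, extFun_mem ψ z.2] at h4
  exact hz h4.symm

/-- the kernel inside the group `O²(G)` -/
theorem oddGen_ker_sol (hc : SolCentral θ) (hv : Virt θ) (hNT : SNT θ) {r : ℕ} (hr : θ 1 = r)
    (hp : ∀ p : ℕ, p.Prime → p ≠ 2 → p ∣ Nat.card G → r < 2 * p) :
    (∀ x ∈ oddGen G, ∀ k : ℕ, x ^ 2 ^ k = 1 → θ x = θ 1) ∧
      ∀ g ∈ commutator (oddGen G), θ (g : G) = θ 1 := by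
  have hcN := hc.comp (oddGen G).subtype
  have hvN := hv.comp (oddGen G).subtype
  have hNTN := hNT.sub (oddGen G).subtype (oddGen G).subtype_injective
  have hpN : ∀ p : ℕ, p.Prime → p ≠ 2 → p ∣ Nat.card (oddGen G) → r < 2 * p :=
    fun p h1 h2 h3 => hp p h1 h2 (h3.trans (card_subgroup_dvd_card (oddGen G)))
  have h2 := two_elements_sol hcN hvN hNTN (r := r) (by simpa using hr) hpN oddGen_gen
  refine ⟨fun x hx k hk => ?_, fun g hg => ?_⟩
  · have := h2 ⟨x, hx⟩ k (Subtype.ext hk)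
    simpa using this
  · have := commutator_ker_sol hcN hvN (r := r) (by simpa using hr) hpN h2 g hg
    simpa using this

/-- decomposition into linear characters, if the commutators are in the kernel -/
theorem lin_decomp_sol {A : Type} [Group A] [Finite A] {θ : A → ℂ} (hθ : IsSolHeilbronn θ)
    (hK : ∀ g ∈ commutator A, θ g = θ 1) :
    ∃ (ι : Type) (_ : Fintype ι) (ψ : ι → A →* ℂˣ) (n : ι → ℕ),
      ∀ a, θ a = ∑ i, (n i : ℂ) * ((ψ i a : ℂˣ) : ℂ) := by
  classical
  let N : Subgroup A := commutator A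
  have hN : N.Normal := inferInstance
  have hconst := Pool.Agent.H377.AD.kernel_sol hθ N hN hK
  let π : A →* A ⧸ N := QuotientGroup.mk' N
  have hπ : Function.Surjective π := QuotientGroup.mk'_surjective N
  let τ : A ⧸ N → ℂ := fun y => θ (Function.surjInv hπ y)
  have hτ : ∀ x, τ (π x) = θ x := by
    intro x
    have h1 := Function.surjInv_eq hπ (π x)
    have h2 : Function.surjInv hπ (π x) * x⁻¹ ∈ N := by
      rw [← QuotientGroup.eq_one_iff]
      change π (Function.surjInv hπ (π x) * x⁻¹) = 1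
      rw [map_mul, map_inv, h1, mul_inv_cancel]
    have h3 := hconst _ h2 x
    rw [inv_mul_cancel_right] at h3
    exact h3
  have hs : IsSolHeilbronn τ := Pool.Agent.Q7.SZ.descend_sol hπ hθ hτ
  have hab : ∀ a b : A ⧸ N, a * b = b * a := by
    intro a b
    obtain ⟨x, rfl⟩ := hπ a
    obtain ⟨y, rfl⟩ := hπ b
    rw [← mul_inv_eq_one, mul_inv_rev, ← mul_assoc, ← map_mul, ← map_inv, ← map_mul, ← map_inv,
      ← map_mul]
    refine (QuotientGroup.eq_one_iff _).2 ?_
    have := Subgroup.commutator_mem_commutator (Subgroup.mem_top x) (Subgroup.mem_top y)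
    rw [commutatorElement_def] at this
    exact this
  have hb : IsHeilbronn τ := hs.comp_sol (Group.isSolvable_of_comm hab) (MonoidHom.id _)
  obtain ⟨ι, hι, ψ, n, hdec⟩ := hb.comm_decomp hab
  refine ⟨ι, hι, fun i => (ψ i).comp π, n, fun a => ?_⟩
  rw [← hτ a, hdec]
  rfl

/-- the kernel in `O²(G)` as a normal subgroup -/
theorem exists_kernel_sol (hc : SolCentral θ) (hv : Virt θ) (hNT : SNT θ) {r : ℕ} (hr : θ 1 = r)
    (hp : ∀ p : ℕ, p.Prime → p ≠ 2 → p ∣ Nat.card G → r < 2 * p) :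
    ∃ N₀ : Subgroup G, N₀.Normal ∧ N₀ ≤ oddGen G ∧ (∀ x, x ∈ N₀ ↔ x ∈ oddGen G ∧ θ x = θ 1) ∧
      (∀ x ∈ oddGen G, ∀ y ∈ oddGen G, x * y * x⁻¹ * y⁻¹ ∈ N₀) ∧
      ∀ x ∈ oddGen G, ∀ k : ℕ, x ^ 2 ^ k = 1 → x ∈ N₀ := by
  obtain ⟨h2, hcm⟩ := oddGen_ker_sol hc hv hNT hr hp
  have hθ := hc.hb
  obtain ⟨ι, _, ψ, n, hdec⟩ := lin_decomp_sol (hθ.comp (oddGen G).subtype) (fun g hg => by
    have := hcm g hg
    simpa using this)
  let N₀ : Subgroup G :=
    { carrier := {x | x ∈ oddGen G ∧ θ x = θ 1}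
      mul_mem' := by
        rintro x y ⟨hx, hx1⟩ ⟨hy, hy1⟩
        refine ⟨mul_mem hx hy, ?_⟩
        have h3 := hdec (⟨x, hx⟩ * ⟨y, hy⟩)
        have h4 := hdec 1
        simp only [coe_subtype, OneMemClass.coe_one] at h3 h4
        change θ (x * y) = _ at h3
        rw [h3, h4]
        refine Finset.sum_congr rfl fun i _ => ?_
        by_cases hi : n i = 0
        · rw [hi, Nat.cast_zero, zero_mul, zero_mul]
        rw [map_mul, const_triv hdec (a := ⟨x, hx⟩) (by simpa using hx1) hi,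
          const_triv hdec (a := ⟨y, hy⟩) (by simpa using hy1) hi, mul_one, map_one]
      one_mem' := ⟨one_mem _, rfl⟩
      inv_mem' := by
        rintro x ⟨hx, hx1⟩
        exact ⟨inv_mem hx, hθ.inv_of_eq' hx1⟩ }
  refine ⟨N₀, ⟨fun x hx g => ⟨oddGen_normal.conj_mem x hx.1 g, by rw [hθ.conj]; exact hx.2⟩⟩,
    fun x hx => hx.1, fun x => Iff.rfl, ?_, fun x hx k hk => ⟨hx, h2 x hx k hk⟩⟩
  intro x hx y hy
  have h3 := hcm ⁅(⟨x, hx⟩ : oddGen G), ⟨y, hy⟩⁆
    (Subgroup.commutator_mem_commutator (mem_top _) (mem_top _))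
  rw [commutatorElement_def] at h3
  exact ⟨mul_mem (mul_mem (mul_mem hx hy) (inv_mem hx)) (inv_mem hy), h3⟩

/-- positivity of the multiplicities if `G / N` is solvable without small frames -/
lemma pos_of_free_sol (hθ : IsSolHeilbronn θ) (hv : Virt θ)
    {r : ℕ} (hr : θ 1 = r) (N : Subgroup G) [hNn : N.Normal] (hN : ∀ n ∈ N, θ n = θ 1)
    (hs : Group.IsSolvable (G ⧸ N)) (hf : Free False r (G ⧸ N)) (χ : G → ℂ) (hχ : χ ∈ Irr G) :
    ∃ k : ℕ, pr θ χ = k := by
  classical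
  have : Fintype G := Fintype.ofFinite G
  let π : G →* G ⧸ N := QuotientGroup.mk' N
  have hπ : Function.Surjective π := QuotientGroup.mk'_surjective N
  have hconst := Pool.Agent.H377.AD.kernel_sol hθ N hNn hN
  have hconst' : ∀ n ∈ N, ∀ x, θ (x * n) = θ x := by
    intro n hn x
    have h1 := hconst (x * n * x⁻¹) (Subgroup.Normal.conj_mem inferInstance n hn x) x
    rw [inv_mul_cancel_right] at h1
    exact h1
  have : Fintype π.ker := Fintype.ofFinite _
  have hpush : ∀ g, Pool.Agent.H302R5.push π θ (π g) = θ g := by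
    intro g
    rw [push_apply]
    have h1 : ∀ n : π.ker, θ (g * n) = θ g := by
      intro n
      have h2 : (n : G) ∈ N := (QuotientGroup.eq_one_iff (n : G)).1 n.2
      exact hconst' n h2 g
    rw [Finset.sum_congr rfl (fun n _ => h1 n), Finset.sum_const, Finset.card_univ, nsmul_eq_mul,
      ← Nat.card_eq_fintype_card, ← mul_assoc, inv_mul_cancel₀ (by exact_mod_cast Nat.card_pos.ne'),
      one_mul]
  have hsol : IsSolHeilbronn (Pool.Agent.H302R5.push π θ) :=
    Pool.Agent.Q7.SZ.descend_sol hπ hθ hpush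
  have hheil : IsHeilbronn (Pool.Agent.H302R5.push π θ) := hsol.comp_sol hs (MonoidHom.id _)
  by_cases hx : ∃ x ∈ N, χ x ≠ χ 1
  · obtain ⟨x, hxN, hx⟩ := hx
    refine ⟨0, ?_⟩
    rw [pr_eq, pair_zero hχ N hconst hxN hx, mul_zero, Nat.cast_zero]
  · push Not at hx
    obtain ⟨m, ρ, hρ, rfl⟩ := exists_rep hχ
    obtain ⟨ψ, hψ, h1⟩ := descend_irr (π := π) hπ hρ (by
      intro g hg
      rw [QuotientGroup.ker_mk'] at hg
      exact rep_ker ρ hρ (hx g hg))
    obtain ⟨k, hk⟩ := fmain False r _ (G ⧸ N) rfl hs hf (Pool.Agent.H302R5.push π θ)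
      hheil (hv.push hπ)
      ⟨r, le_rfl, by rw [← map_one π, hpush]; exact hr⟩ (fun h => h.elim) ψ hψ
    refine ⟨k, ?_⟩
    rw [← hk, pr_push hπ]
    congr 1
    funext g
    exact h1 g

/-- **The multiplicities are natural numbers.** -/
theorem core_sol (hc : SolCentral θ) (hv : Virt θ) (hNT : SNT θ) {r : ℕ} (hr : θ 1 = r)
    (hp : ∀ p : ℕ, p.Prime → p ≠ 2 → p ∣ Nat.card G → r < 2 * p) (χ : G → ℂ) (hχ : χ ∈ Irr G) :
    ∃ k : ℕ, pr θ χ = k := by
  obtain ⟨N₀, hN₀, -, hmem, hab, -⟩ := exists_kernel_sol hc hv hNT hr hp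
  exact pos_of_free_sol hc.hb hv hr N₀ (fun n hn => ((hmem n).1 hn).2)
    (solvable_ab_two N₀ (oddGen G) hab pow_mem_oddGen)
    (free_ab_two N₀ (oddGen G) hab pow_mem_oddGen False r) χ hχ

end

end Pool.Agent.H701.HW
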