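import Mathlib
import Pool.Agent.H701.HW.Ker
import Pool.Agent.H377.AD.Curve
import Pool.Agent.H701.CP.Ded

/-!
# The orders of the twisted L-functions as a central function
-/

set_option autoImplicit false
set_option linter.unusedSectionVars false

namespace Pool.Agent.H701.HW

open Subgroup Pool.Agent.H302R2 Pool.Agent.H302R3 Pool.Agent.H302R5 Pool.Agent.H541R3.ART
  Pool.Agent.W446.AS Pool.Agent.TH820 Pool.Agent.H701.CP Pool.Agent.Q7.SZ

section
variable {G : Type} [Group G] [Finite G]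

/-- a sum over the irreducible characters which is invariant under the contragredient, with even terms
for the real characters, is even -/
lemma sum_irr_even (f : (G → ℂ) → ℤ) (h1 : ∀ χ ∈ Irr G, f (fun g => χ g⁻¹) = f χ)
    (h2 : ∀ χ ∈ Irr G, (∀ g, χ g⁻¹ = χ g) → Even (f χ)) : Even (∑ χ ∈ irrF G, f χ) := by
  classical
  rw [← ZMod.intCast_eq_zero_iff_even, Int.cast_sum]
  refine Finset.sum_involution (fun χ _ => fun g => χ g⁻¹) ?_ ?_ ?_ ?_
  · intro χ hχ
    rw [h1 χ (mem_irrF.1 hχ)]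
    exact CharTwo.add_self_eq_zero _
  · intro χ hχ hne heq
    apply hne
    rw [ZMod.intCast_eq_zero_iff_even]
    exact h2 χ (mem_irrF.1 hχ) (fun g => congrFun heq g)
  · intro χ hχ
    exact mem_irrF.2 (Pool.Agent.Q7.DB.irr_inv (mem_irrF.1 hχ))
  · intro χ hχ
    funext g
    simp

/-- contragredient characters and characters of order two of subgroups -/
lemma mult_inv {H : Subgroup G} {ψ : H →* ℂˣ} (hψ : ∀ h, ψ h ^ 2 = 1) {χ : G → ℂ} {a b : ℕ}
    (ha : ∑ᶠ h : H, χ h * (((ψ h)⁻¹ : ℂˣ) : ℂ) = (a : ℂ) * (Nat.card H : ℂ))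
    (hb : ∑ᶠ h : H, (fun g => χ g⁻¹) (h : G) * (((ψ h)⁻¹ : ℂˣ) : ℂ) = (b : ℂ) * (Nat.card H : ℂ)) :
    a = b := by
  have h1 : ∑ᶠ h : H, (fun g => χ g⁻¹) (h : G) * (((ψ h)⁻¹ : ℂˣ) : ℂ) =
      ∑ᶠ h : H, χ h * (((ψ h)⁻¹ : ℂˣ) : ℂ) := by
    refine finsum_eq_of_bijective (fun h : H => h⁻¹) (inv_involutive.bijective) ?_
    intro h
    have h2 : (ψ h⁻¹)⁻¹ = (ψ h)⁻¹ := by
      rw [map_inv, inv_inv]
      have h3 := hψ h
      rw [pow_two] at h3
      exact eq_inv_of_mul_eq_one_left h3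
    simp only [h2, Subgroup.coe_inv]
  rw [h1, ha] at hb
  have hH : (Nat.card H : ℂ) ≠ 0 := by exact_mod_cast Nat.card_pos.ne'
  exact_mod_cast mul_right_cancel₀ hH hb

/-- **Even multiplicities** against the characters of order two of all subgroups -/
theorem theta_even (n : (G → ℂ) → ℤ) (h1 : ∀ χ ∈ Irr G, n (fun g => χ g⁻¹) = n χ)
    (h2 : ∀ χ ∈ Irr G, (∀ g, χ g⁻¹ = χ g) → Even (n χ)) (H : Subgroup G) (ψ : H →* ℂˣ)
    (hψ : ∀ h, ψ h ^ 2 = 1) :
    ∃ k : ℤ, Even k ∧ ∑ᶠ h : H, theta n h * (((ψ h)⁻¹ : ℂˣ) : ℂ) = (k : ℂ) * (Nat.card H : ℂ) := by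
  classical
  choose! m hm using fun χ (hχ : χ ∈ Irr G) => exists_mult hχ H ψ
  refine ⟨_, ?_, theta_mult n H ψ m hm⟩
  refine sum_irr_even (fun χ => (m χ : ℤ) * n χ) (fun χ hχ => ?_) (fun χ hχ hr => ?_)
  · have hχ' := Pool.Agent.Q7.DB.irr_inv hχ
    simp only [h1 χ hχ]
    rw [mult_inv hψ (hm χ hχ) (hm _ hχ')]
  · exact (h2 χ hχ hr).mul_left _

lemma theta_real' (n : (G → ℂ) → ℤ) (h1 : ∀ χ ∈ Irr G, n (fun g => χ g⁻¹) = n χ) (g : G) :
    (theta n : G → ℂ) g⁻¹ = (theta n : G → ℂ) g := by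
  classical
  unfold theta
  refine Finset.sum_nbij' (fun χ => fun g => χ g⁻¹) (fun χ => fun g => χ g⁻¹) ?_ ?_ ?_ ?_ ?_
  · intro χ hχ
    rw [mem_irrF] at hχ ⊢
    exact Pool.Agent.Q7.DB.irr_inv hχ
  · intro χ hχ
    rw [mem_irrF] at hχ ⊢
    exact Pool.Agent.Q7.DB.irr_inv hχ
  · intro χ _
    funext g
    simp
  · intro χ _
    funext g
    simp
  · intro χ hχ
    rw [mem_irrF] at hχ
    rw [h1 χ hχ]

/-- **The central function.** -/
theorem solCentral_theta (n : (G → ℂ) → ℤ) (hs : IsSolHeilbronn (theta n : G → ℂ))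
    (h1 : ∀ χ ∈ Irr G, n (fun g => χ g⁻¹) = n χ)
    (h2 : ∀ χ ∈ Irr G, (∀ g, χ g⁻¹ = χ g) → Even (n χ)) : SolCentral (theta n : G → ℂ) where
  hb := hs
  real := theta_real' n h1
  even H hH ψ hψ := by
    obtain ⟨k, hk, hk1⟩ := theta_even n h1 h2 H ψ hψ
    obtain ⟨m, hm⟩ := hs.mult H hH ψ
    rw [hk1] at hm
    have hcard : (Nat.card H : ℂ) ≠ 0 := by exact_mod_cast Nat.card_pos.ne'
    have h3 : k = (m : ℤ) := by exact_mod_cast mul_right_cancel₀ hcard hm
    obtain ⟨j, hj⟩ := hk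
    refine ⟨j.toNat, ?_⟩
    rw [hk1]
    congr 1
    have h4 : (j.toNat : ℤ) = j := Int.toNat_of_nonneg (by omega)
    have h5 : k = 2 * (j.toNat : ℤ) := by omega
    rw [h5]
    push_cast
    rfl

/-- no twisted section, from the orders -/
theorem snt_of_orders {θ : G → ℂ} (k : Subgroup G → ℤ)
    (hk : ∀ H : Subgroup G, ∑ᶠ h : H, θ h = (k H : ℂ) * (Nat.card H : ℂ))
    (hT : ∀ (H : Subgroup G), Group.IsSolvable H → ∀ (X : Type) [Group X] (f : H →* X)
      (E : Subgroup X) (z t : X), Function.Surjective f → Twisted X E z t →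
      k (f.ker.map H.subtype) = k (((zpowers z).comap f).map H.subtype)) : SNT θ := by
  classical
  intro H hHs X _ f E z t hf hX
  have : Fintype H := Fintype.ofFinite _
  have : Fintype f.ker := Fintype.ofFinite _
  have : Fintype ((zpowers z).comap f) := Fintype.ofFinite _
  have h1 := hk (f.ker.map H.subtype)
  have h2 := hk (((zpowers z).comap f).map H.subtype)
  rw [sum_map, card_map] at h1 h2
  have h3 := hT H hHs X f E z t hf hX
  rw [finsum_eq_sum_of_fintype]
  -- the quadratic character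
  have hmem := hX.mem_zpowers
  have hne := hX.ne
  have hzz := hX.z_sq
  have hU : ∀ h : H, h ∈ (zpowers z).comap f ↔ f h = 1 ∨ f h = z := fun h => hmem (f h)
  have key : ∀ g : H → ℂ, ∑ h : H, g h * cz z (f h) =
      2 * ∑ x : f.ker, g x - ∑ x : (zpowers z).comap f, g x := by
    intro g
    rw [← Finset.sum_subtype (Finset.univ.filter (fun h => f h = 1)) (p := fun h => h ∈ f.ker)
      (by intro x; simp [MonoidHom.mem_ker]),
      ← Finset.sum_subtype (Finset.univ.filter (fun h => f h = 1 ∨ f h = z))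
        (p := fun h => h ∈ (zpowers z).comap f) (by intro x; rw [hU]; simp),
      Finset.sum_filter, Finset.sum_filter, Finset.mul_sum, ← Finset.sum_sub_distrib]
    refine Finset.sum_congr rfl fun h _ => ?_
    unfold cz
    by_cases e1 : f h = 1
    · simp only [e1, if_true, true_or]; ring
    · by_cases e2 : f h = z
      · simp only [e2, if_neg hne, if_true, or_true]; ring
      · simp only [e1, e2, if_false, or_self]; ring
  have hcard : (Nat.card ((zpowers z).comap f) : ℂ) = 2 * (Nat.card f.ker : ℂ) := by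
    obtain ⟨h₀, hh₀⟩ := hf z
    -- the sum of `cz` is zero
    have h4 := key (fun _ => 1)
    have h5 : ∑ h : H, (1 : ℂ) * cz z (f h) = 0 := by
      have h6 : ∑ h : H, (1 : ℂ) * cz z (f h) = ∑ h : H, (1 : ℂ) * cz z (f (h₀ * h)) :=
        (Equiv.sum_comp (Equiv.mulLeft h₀) (fun h => (1 : ℂ) * cz z (f h))).symm
      have h7 : ∀ h : H, cz z (f (h₀ * h)) = - cz z (f h) := by
        intro h
        rw [map_mul, hh₀]
        unfold cz
        by_cases e1 : f h = 1
        · rw [e1, mul_one, if_neg hne, if_pos rfl, if_pos rfl]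
        · by_cases e2 : f h = z
          · rw [e2, hzz, if_pos rfl, if_neg hne, if_pos rfl, neg_neg]
          · rw [if_neg e1, if_neg e2, if_neg, if_neg, neg_zero]
            · intro e3
              exact e1 (mul_eq_left.1 e3)
            · intro e3
              apply e2
              rw [← hzz] at e3
              exact mul_left_cancel e3
      have h8 : ∑ h : H, (1 : ℂ) * cz z (f (h₀ * h)) = - ∑ h : H, (1 : ℂ) * cz z (f h) := by
        rw [← Finset.sum_neg_distrib]
        exact Finset.sum_congr rfl fun h _ => by rw [h7]; ring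
      rw [h8] at h6
      linear_combination h6 / 2
    rw [h5] at h4
    simp only [Finset.sum_const, Finset.card_univ, nsmul_eq_mul, mul_one,
      ← Nat.card_eq_fintype_card] at h4
    linear_combination h4
  rw [key (fun h => θ h), h1, h2, h3, hcard]
  ring

end

end Pool.Agent.H701.HW
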