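import Mathlib
import Pool.Agent.H701.HW.Ev

/-!
# Summary for functions on a finite group
-/

set_option autoImplicit false
set_option linter.unusedSectionVars false

namespace Pool.Agent.H701.HW

open Subgroup Pool.Agent.H302R2 Pool.Agent.H302R3 Pool.Agent.H302R5 Pool.Agent.H541R3.ART
  Pool.Agent.W446.AS Pool.Agent.TH820 Pool.Agent.H701.CP Pool.Agent.Q7.SZ

section
variable {G : Type} [Group G] [Finite G]

/-- degrees of the characters with nonzero multiplicity -/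
theorem two_deg_le (n : (G → ℂ) → ℤ) (h1 : ∀ χ ∈ Irr G, n (fun g => χ g⁻¹) = n χ)
    (h2 : ∀ χ ∈ Irr G, (∀ g, χ g⁻¹ = χ g) → Even (n χ)) {k : ℕ}
    (hk : (theta n : G → ℂ) 1 = k) (hpos : ∀ χ ∈ Irr G, 0 ≤ n χ) {χ : G → ℂ} (hχ : χ ∈ Irr G)
    (hne : n χ ≠ 0) {e : ℕ} (he : χ 1 = e) : 2 * e ≤ k := by
  classical
  have hd : ∀ χ : G → ℂ, ∃ d : ℕ, χ ∈ Irr G → χ 1 = d := by
    intro χ
    by_cases hχ : χ ∈ Irr G
    · obtain ⟨d, -, hd⟩ := irr_deg_pos hχ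
      exact ⟨d, fun _ => hd⟩
    · exact ⟨0, fun h => absurd h hχ⟩
  choose d hd using hd
  have h3 : (k : ℤ) = ∑ χ ∈ irrF G, n χ * (d χ : ℤ) := by
    have h4 : (theta n : G → ℂ) 1 = ∑ χ ∈ irrF G, (n χ : ℂ) * (d χ : ℂ) := by
      unfold theta
      exact Finset.sum_congr rfl fun χ hχ => by rw [hd χ (mem_irrF.1 hχ)]
    rw [hk] at h4
    exact_mod_cast h4
  have hp : ∀ χ ∈ irrF G, 0 ≤ n χ * (d χ : ℤ) := by
    intro χ hχ
    have h4 := hpos χ (mem_irrF.1 hχ)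
    positivity
  have hde : d χ = e := by
    have := hd χ hχ
    rw [he] at this
    exact_mod_cast this.symm
  have hp0 := hpos χ hχ
  have h5 : 2 * (e : ℤ) ≤ k := by
    by_cases hr : ∀ g, χ g⁻¹ = χ g
    · obtain ⟨j, hj⟩ := h2 χ hχ hr
      have h6 := Finset.single_le_sum hp (mem_irrF.2 hχ)
      rw [← h3, hde] at h6
      have h7 : 2 ≤ n χ := by omega
      nlinarith [Int.natCast_nonneg e]
    · have hne' : (fun g => χ g⁻¹) ≠ χ := fun h => hr fun g => congrFun h g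
      have hχ' := Pool.Agent.Q7.DB.irr_inv hχ
      have h6 : ∑ ξ ∈ ({χ, fun g => χ g⁻¹} : Finset (G → ℂ)), n ξ * (d ξ : ℤ) ≤
          ∑ ξ ∈ irrF G, n ξ * (d ξ : ℤ) := by
        refine Finset.sum_le_sum_of_subset_of_nonneg ?_ (fun ξ hξ _ => hp ξ hξ)
        intro ξ hξ
        rw [Finset.mem_insert, Finset.mem_singleton] at hξ
        rcases hξ with rfl | rfl
        · exact mem_irrF.2 hχ
        · exact mem_irrF.2 hχ'
      rw [Finset.sum_pair (Ne.symm hne'), ← h3, h1 χ hχ, hde] at h6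
      have h7 : d (fun g => χ g⁻¹) = e := by
        have := hd _ hχ'
        simp only [inv_one] at this
        rw [he] at this
        exact_mod_cast this.symm
      rw [h7] at h6
      have h8 : 1 ≤ n χ := by omega
      nlinarith [Int.natCast_nonneg e]
  exact_mod_cast h5

/-- **Summary.** -/
theorem summary (n : (G → ℂ) → ℤ) (hs : IsSolHeilbronn (theta n : G → ℂ))
    (h1 : ∀ χ ∈ Irr G, n (fun g => χ g⁻¹) = n χ)
    (h2 : ∀ χ ∈ Irr G, (∀ g, χ g⁻¹ = χ g) → Even (n χ)) {k : ℕ}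
    (hk : (theta n : G → ℂ) 1 = k) (hNT : SNT (theta n : G → ℂ))
    (hp : ∀ p : ℕ, p.Prime → p ≠ 2 → p ∣ Nat.card G → k < 2 * p) :
    ∃ N : Subgroup G, N.Normal ∧ N ≤ oddGen G ∧
      (∀ x ∈ oddGen G, ∀ y ∈ oddGen G, x * y * x⁻¹ * y⁻¹ ∈ N) ∧
      (∀ x ∈ oddGen G, ∀ k : ℕ, x ^ 2 ^ k = 1 → x ∈ N) ∧
      (∀ χ ∈ Irr G, 0 ≤ n χ ∧ (n χ ≠ 0 → (∀ x ∈ N, χ x = χ 1) ∧
        ∃ d : ℕ, χ 1 = ((2 ^ d : ℕ) : ℂ) ∧ 2 ^ (d + 1) ≤ k)) ∧
      ∀ x, ∀ m ∈ N, (theta n : G → ℂ) (x * m) = theta n x := by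
  have hc := solCentral_theta n hs h1 h2
  have hv := theta_virt (G := G) n
  obtain ⟨N, hN, hle, hmem, hab, htwo⟩ := exists_kernel_sol hc hv hNT hk hp
  have hpos : ∀ χ ∈ Irr G, ∃ k : ℕ, pr (theta n : G → ℂ) χ = k := core_sol hc hv hNT hk hp
  have hn : ∀ χ ∈ Irr G, 0 ≤ n χ := by
    intro χ hχ
    obtain ⟨j, hj⟩ := hpos χ hχ
    rw [Pool.Agent.Q7.TZ.pr_theta n hχ] at hj
    have : n χ = (j : ℤ) := by exact_mod_cast hj
    omega
  refine ⟨N, hN, hle, hab, htwo, fun χ hχ => ⟨hn χ hχ, fun hne => ?_⟩, fun x m hm =>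
    const_of_ker hv hpos ((hmem m).1 hm).2 x⟩
  have hpr : pr (theta n : G → ℂ) χ ≠ 0 := by
    rw [Pool.Agent.Q7.TZ.pr_theta n hχ]
    exact_mod_cast hne
  have hker : ∀ x ∈ N, χ x = χ 1 := fun x hx =>
    char_ker_of_pos hv hpos ((hmem x).1 hx).2 hχ hpr
  obtain ⟨d, hd⟩ := deg_of_triv N hab hχ hker
  refine ⟨hker, d, hd, ?_⟩
  rw [pow_succ, mul_comm]
  exact two_deg_le n h1 h2 hk hn hχ hne hd

/-- multiplicities of linear characters grow under restriction -/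
theorem mult_mono_sol (n : (G → ℂ) → ℤ) (hn : ∀ χ ∈ Irr G, 0 ≤ n χ) (H U : Subgroup G)
    (hHU : H ≤ U) (ρ : U →* ℂˣ) {a b : ℤ}
    (ha : ∑ᶠ x : U, (theta n : G → ℂ) x * (((ρ x)⁻¹ : ℂˣ) : ℂ) = (a : ℂ) * Nat.card U)
    (hb : ∑ᶠ x : H, (theta n : G → ℂ) x * ((((ρ.comp (inclusion hHU)) x)⁻¹ : ℂˣ) : ℂ) =
      (b : ℂ) * Nat.card H) : 0 ≤ a ∧ a ≤ b := by
  classical
  have : Fintype U := Fintype.ofFinite U
  have : Fintype H := Fintype.ofFinite H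
  choose! m hm using fun χ (hχ : χ ∈ Irr G) => exists_mult hχ U ρ
  choose! m' hm' using fun χ (hχ : χ ∈ Irr G) => exists_mult hχ H (ρ.comp (inclusion hHU))
  have hU : (Nat.card U : ℂ) ≠ 0 := card_ne
  have hH : (Nat.card H : ℂ) ≠ 0 := card_ne
  have h1 : a = ∑ χ ∈ irrF G, (m χ : ℤ) * n χ := by
    have h := theta_mult n U ρ m hm
    rw [ha] at h
    exact_mod_cast mul_right_cancel₀ hU h
  have h2 : b = ∑ χ ∈ irrF G, (m' χ : ℤ) * n χ := by
    have h := theta_mult n H (ρ.comp (inclusion hHU)) m' hm'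
    rw [hb] at h
    exact_mod_cast mul_right_cancel₀ hH h
  have hle : ∀ χ ∈ irrF G, m χ ≤ m' χ := by
    intro χ hχ
    have hχ' := mem_irrF.1 hχ
    have hvU : Virt (fun x : U => χ x) :=
      Virt.comp (θ := χ) (AddSubgroup.subset_closure hχ') U.subtype
    have hposU : ∀ ψ ∈ Irr U, ∃ k : ℕ, pr (fun x : U => χ x) ψ = k := by
      intro ψ hψ
      obtain ⟨k, hk⟩ := exists_mult_irr hχ' U hψ
      refine ⟨k, ?_⟩
      unfold pr
      rw [hk, mul_comm (k : ℂ), ← mul_assoc, inv_mul_cancel₀ card_ne, one_mul]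
    let e : H ≃ H.subgroupOf U :=
      { toFun := fun u => ⟨inclusion hHU u, u.2⟩
        invFun := fun u => ⟨u.1, u.2⟩
        left_inv := fun _ => rfl
        right_inv := fun _ => rfl }
    refine mult_mono_top hvU hposU ρ (H.subgroupOf U) (hm χ hχ') ?_
    rw [← Nat.card_congr e, ← hm' χ hχ']
    exact (finsum_comp_equiv e (f := fun x : H.subgroupOf U =>
        χ ((x : U) : G) * (((ρ (x : U))⁻¹ : ℂˣ) : ℂ))).symm
  rw [h1, h2]
  constructor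
  · refine Finset.sum_nonneg fun χ hχ => ?_
    have := hn χ (mem_irrF.1 hχ)
    positivity
  · refine Finset.sum_le_sum fun χ hχ => ?_
    refine mul_le_mul_of_nonneg_right ?_ (hn χ (mem_irrF.1 hχ))
    exact_mod_cast hle χ hχ

end

end Pool.Agent.H701.HW
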