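import Mathlib
import Pool.Agent.H701.HW.Sum

/-!
# The centre `s = 1`: elliptic curves
-/

set_option autoImplicit false
set_option linter.unusedSectionVars false

namespace Pool.Agent.H701.HW

open NumberField IsDedekindDomain Subgroup Pool.Agent.H302R2 Pool.Agent.H302R3 Pool.Agent.H302R5
  Pool.Agent.H541R3.ART Pool.Agent.W446.AS Pool.Agent.TH820 Pool.Agent.Q7.SZ
  Pool.Agent.Q7.RL Pool.Agent.Q92.RT Pool.Agent.W353.NF Pool.Agent.H341R2.EC
open Pool.Agent.H701.CP (oddGen Twisted cz oddGen_top mean_sup)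

section
variable {K M : Type} [Field K] [NumberField K] [Field M] [NumberField M] [Algebra K M]

/-- **Twisted zeros**: a surjection `f` of a SOLVABLE subgroup `H` of the Galois group onto a group `X`
with `Twisted X E z t` such that `L(E/F', s) / L(E/B, s)` has a zero or a pole at the point where `r` is
the order, `B ⊆ F'` the fields fixed by `f ⁻¹ {1, z}` and by the kernel of `f` (so `F' / B` is
quadratic). -/
def TwistZero (r : IntermediateField K M → ℤ) : Prop :=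
  ∃ (H : Subgroup (M ≃ₐ[K] M)) (_ : Group.IsSolvable H) (X : Type) (_ : Group X) (f : H →* X)
    (E : Subgroup X) (z t : X), Function.Surjective f ∧ Twisted X E z t ∧
    r (IntermediateField.fixedField (f.ker.map H.subtype)) ≠
      r (IntermediateField.fixedField (((zpowers z).comap f).map H.subtype))

/-- **Quaternion zeros**: a surjection `f` of a SOLVABLE subgroup `H` of the Galois group onto the
quaternion group of order eight such that `L(E/F', s) / L(E/B, s)` has a zero or a pole, `B ⊆ F'` the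
fields fixed by `f ⁻¹ {1, -1}` and by the kernel of `f`. -/
def QuatZero (r : IntermediateField K M → ℤ) : Prop :=
  ∃ (H : Subgroup (M ≃ₐ[K] M)) (_ : Group.IsSolvable H) (f : H →* QuaternionGroup 2),
    Function.Surjective f ∧ r (IntermediateField.fixedField (f.ker.map H.subtype)) ≠
      r (IntermediateField.fixedField
        (((zpowers (QuaternionGroup.a 2)).comap f).map H.subtype))

theorem quat_of_twist' {r : IntermediateField K M → ℤ} (h : TwistZero r) : QuatZero r := by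
  obtain ⟨H, hs, X, _, f, E, z, t, hf, hT, hne⟩ := h
  obtain ⟨F, hF, hFz⟩ := hT.exists_quat
  let e := MonoidHom.ofInjective hF
  -- the subgroup
  let C : Subgroup H := F.range.comap f
  let q : C →* F.range := f.subgroupComap F.range
  have hq : Function.Surjective q := f.subgroupComap_surjective_of_surjective F.range hf
  let i := C.equivMapOfInjective H.subtype H.subtype_injective
  let g : (C.map H.subtype : Subgroup (M ≃ₐ[K] M)) →* QuaternionGroup 2 :=
    (e.symm.toMonoidHom.comp q).comp i.symm.toMonoidHom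
  have hFe : ∀ w : F.range, F (e.symm w) = w := by
    intro w
    have : (e (e.symm w) : X) = F (e.symm w) := rfl
    rw [← this, MulEquiv.apply_symm_apply]
  have hgF : ∀ c : C, F (g (i c)) = f c := by
    intro c
    change F (e.symm (q (i.symm (i c)))) = f c
    rw [hFe, MulEquiv.symm_apply_apply]
    rfl
  have hic : ∀ c : C, ((i c : (C.map H.subtype : Subgroup (M ≃ₐ[K] M))) : M ≃ₐ[K] M) = (c : H) :=
    fun c => rfl
  refine ⟨C.map H.subtype, Group.isSolvable_of_surjective (f := i.toMonoidHom) i.surjective, g,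
    ?_, ?_⟩
  · exact (e.symm.surjective.comp hq).comp i.symm.surjective
  · have e1 : g.ker.map (C.map H.subtype : Subgroup (M ≃ₐ[K] M)).subtype =
        f.ker.map H.subtype := by
      ext u
      constructor
      · rintro ⟨w, hw, rfl⟩
        obtain ⟨c, rfl⟩ := i.surjective w
        refine ⟨(c : H), ?_, (hic c).symm⟩
        have h1 : g (i c) = 1 := hw
        change f c = 1
        rw [← hgF, h1, map_one]
      · rintro ⟨v, hv, rfl⟩
        have h1 : f v = 1 := hv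
        have hvC : v ∈ C := by
          change f v ∈ F.range
          rw [h1]; exact one_mem _
        refine ⟨i ⟨v, hvC⟩, ?_, hic ⟨v, hvC⟩⟩
        change g (i ⟨v, hvC⟩) = 1
        apply hF
        rw [hgF, map_one]
        exact h1
    have e2 : ((zpowers (QuaternionGroup.a 2)).comap g).map
        (C.map H.subtype : Subgroup (M ≃ₐ[K] M)).subtype =
        ((zpowers z).comap f).map H.subtype := by
      ext u
      constructor
      · rintro ⟨w, hw, rfl⟩
        obtain ⟨c, rfl⟩ := i.surjective w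
        refine ⟨(c : H), ?_, (hic c).symm⟩
        have h1 : g (i c) ∈ zpowers (QuaternionGroup.a 2) := hw
        obtain ⟨k, hk⟩ := mem_zpowers_iff.1 h1
        change f c ∈ zpowers z
        rw [← hgF, ← hk, map_zpow, hFz]
        exact zpow_mem (mem_zpowers z) k
      · rintro ⟨v, hv, rfl⟩
        have h1 : f v ∈ zpowers z := hv
        obtain ⟨k, hk⟩ := mem_zpowers_iff.1 h1
        have hvC : v ∈ C := by
          change f v ∈ F.range
          exact ⟨QuaternionGroup.a 2 ^ k, by rw [map_zpow, hFz, hk]⟩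
        refine ⟨i ⟨v, hvC⟩, ?_, hic ⟨v, hvC⟩⟩
        change g (i ⟨v, hvC⟩) ∈ zpowers (QuaternionGroup.a 2)
        have h2 : g (i ⟨v, hvC⟩) = QuaternionGroup.a 2 ^ k := by
          apply hF
          rw [hgF, map_zpow, hFz, hk]
        rw [h2]
        exact zpow_mem (mem_zpowers _) k
    rw [e1, e2]
    exact hne

end

section
variable {K M : Type} [Field K] [NumberField K] [Field M] [NumberField M] [Algebra K M]
  [IsGalois K M] {E : WeierstrassCurve K} {W : WeierstrassCurve (𝓞 K)}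
  {n : ((M ≃ₐ[K] M) → ℂ) → ℤ} {r : IntermediateField K M → ℤ}

/-- the mean value of the function over the subgroup of a field -/
theorem theta_field (hE : E.IsElliptic) (hW : IsModel E W) (a : Automorphic M W 1)
    (ho : Orders E W 1 n r) (H : Subgroup (M ≃ₐ[K] M)) :
    ∑ᶠ h : H, (theta (TwistData.ofCurve a).ord : (M ≃ₐ[K] M) → ℂ) h =
      (r (IntermediateField.fixedField H) : ℂ) * (Nat.card H : ℂ) := by
  obtain ⟨k, hk1, hk2⟩ := (TwistData.ofCurve a).order_mult H 1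
  have h1 := ho.lin hE hW (by simp) a (IntermediateField.fixedField H)
  rw [IntermediateField.fixingSubgroup_fixedField, hk1] at h1
  have h2 : k = r (IntermediateField.fixedField H) := by exact_mod_cast h1
  rw [← h2, ← hk2]
  exact finsum_congr fun h => by rw [MonoidHom.one_apply, inv_one, Units.val_one, mul_one]

/-- the orders and the function -/
theorem theta_ord (a : Automorphic M W 1) (ho : Orders E W 1 n r) :
    (theta (TwistData.ofCurve a).ord : (M ≃ₐ[K] M) → ℂ) = theta n := by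
  classical
  funext g
  unfold theta
  exact Finset.sum_congr rfl fun χ hχ => by rw [ho.ord a (mem_irrF.1 hχ)]

/-- the order of `L(E/M^H ⊗ ψ, s)` as a multiplicity -/
theorem order_ind (a : Automorphic M W 1) (ho : Orders E W 1 n r) (H : Subgroup (M ≃ₐ[K] M))
    (ψ : H →* ℂˣ) : ∃ l : ℤ, HasOrder (twistedL M W (induced H ψ)) 1 l ∧
      ∑ᶠ h : H, (theta n : (M ≃ₐ[K] M) → ℂ) h * (((ψ h)⁻¹ : ℂˣ) : ℂ) =
        (l : ℂ) * (Nat.card H : ℂ) := by
  obtain ⟨k, hk1, hk2⟩ := (TwistData.ofCurve a).order_mult H ψ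
  rw [theta_ord a ho] at hk2
  exact ⟨k, (ind_iff a H ψ k).2 hk1, hk2⟩

variable (M) in
/-- The functional equations at the centre with root number `w(χ) = 1` for all real valued irreducible
characters `χ`. -/
def RealRootOne (W : WeierstrassCurve (𝓞 K)) (Λ : FunctionalEquations M W) : Prop :=
  ∀ χ ∈ Irr (M ≃ₐ[K] M), (∀ g, χ g⁻¹ = χ g) → Λ.root χ = 1

theorem n_inv {Λ : FunctionalEquations M W} (a : Automorphic M W 1)
    (ho : Orders E W 1 n r) : ∀ χ ∈ Irr (M ≃ₐ[K] M), n (fun g => χ g⁻¹) = n χ := by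
  intro χ hχ
  rw [← ho.ord a hχ, ← ho.ord a (Pool.Agent.Q7.DB.irr_inv hχ)]
  exact Λ.ord_inv a hχ

theorem n_even {Λ : FunctionalEquations M W} (hΛ : RealRootOne M W Λ) (a : Automorphic M W 1)
    (ho : Orders E W 1 n r) :
    ∀ χ ∈ Irr (M ≃ₐ[K] M), (∀ g, χ g⁻¹ = χ g) → Even (n χ) := by
  intro χ hχ hr
  rw [← ho.ord a hχ]
  exact Λ.even a hχ hr (hΛ χ hχ hr)

/-- no twisted section -/
theorem snt_curve (hE : E.IsElliptic) (hW : IsModel E W) (a : Automorphic M W 1)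
    (ho : Orders E W 1 n r) (hT : ¬ TwistZero r) :
    SNT (theta n : (M ≃ₐ[K] M) → ℂ) := by
  refine snt_of_orders (fun H => r (IntermediateField.fixedField H)) (fun H => ?_) ?_
  · rw [← theta_ord a ho]
    exact theta_field hE hW a ho H
  · intro H hH X _ f E' z t hf hX
    by_contra hne
    exact hT ⟨H, hH, X, _, f, E', z, t, hf, hX, hne⟩

/-- **The centre.** -/
theorem curve_central (hE : E.IsElliptic) (hW : IsModel E W) {Λ : FunctionalEquations M W}
    (hΛ : RealRootOne M W Λ) (a : Automorphic M W 1)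
    (ho : Orders E W 1 n r) {k : ℕ} (hk : r ⊤ = k)
    (hp : ∀ p : ℕ, p.Prime → p ≠ 2 → p ∣ Nat.card (M ≃ₐ[K] M) → k < 2 * p)
    (hT : ¬ TwistZero r) :
    ∃ N : Subgroup (M ≃ₐ[K] M), N.Normal ∧ N ≤ oddGen (M ≃ₐ[K] M) ∧
      (∀ x ∈ oddGen (M ≃ₐ[K] M), ∀ y ∈ oddGen (M ≃ₐ[K] M), x * y * x⁻¹ * y⁻¹ ∈ N) ∧
      (∀ x ∈ oddGen (M ≃ₐ[K] M), ∀ k : ℕ, x ^ 2 ^ k = 1 → x ∈ N) ∧
      (∀ χ ∈ Irr (M ≃ₐ[K] M), 0 ≤ n χ ∧ (n χ ≠ 0 → (∀ x ∈ N, χ x = χ 1) ∧
        ∃ d : ℕ, χ 1 = ((2 ^ d : ℕ) : ℂ) ∧ 2 ^ (d + 1) ≤ k)) ∧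
      (∀ F, 0 ≤ r F ∧ r F = r (F ⊓ IntermediateField.fixedField N)) ∧
      (∀ F F', F ≤ F' → r F ≤ r F') ∧
      (∀ (H : Subgroup (M ≃ₐ[K] M)) (ψ : H →* ℂˣ), ∃ l : ℤ,
        HasOrder (twistedL M W (induced H ψ)) 1 l ∧ 0 ≤ l ∧
        ((∃ x : H, (x : M ≃ₐ[K] M) ∈ N ∧ ψ x ≠ 1) → l = 0) ∧
        ∀ (H' : Subgroup (M ≃ₐ[K] M)) (hH : H' ≤ H), ∃ l' : ℤ,
          HasOrder (twistedL M W (induced H' (ψ.comp (inclusion hH)))) 1 l' ∧ l ≤ l') := by
  classical
  have hr := ho.bot hE hW (by simp) a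
  rw [hk] at hr
  have h1 := (TwistData.ofCurve a).theta_one hr
  have hs := (TwistData.ofCurve a).isSol
  rw [theta_ord a ho] at h1 hs
  obtain ⟨N, hN, hle, hab, h2, hirr, hconst⟩ := summary n hs (n_inv (Λ := Λ) a ho)
    (n_even hΛ a ho) h1 (snt_curve hE hW a ho hT) hp
  have hn : ∀ χ ∈ Irr (M ≃ₐ[K] M), 0 ≤ n χ := fun χ hχ => (hirr χ hχ).1
  have hmono : ∀ (H' H : Subgroup (M ≃ₐ[K] M)) (hH : H' ≤ H) (ψ : H →* ℂˣ) (l : ℤ),
      HasOrder (twistedL M W (induced H ψ)) 1 l → 0 ≤ l ∧ ∃ l' : ℤ,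
        HasOrder (twistedL M W (induced H' (ψ.comp (inclusion hH)))) 1 l' ∧ l ≤ l' := by
    intro H' H hH ψ l hl
    obtain ⟨a₁, ha1, ha2⟩ := order_ind a ho H ψ
    obtain ⟨b, hb1, hb2⟩ := order_ind a ho H' (ψ.comp (inclusion hH))
    have h3 := mult_mono_sol n hn H' H hH ψ ha2 hb2
    rw [hl.unique ha1]
    exact ⟨h3.1, b, hb1, h3.2⟩
  have hfix : ∀ (F : IntermediateField K M),
      HasOrder (twistedL M W (induced F.fixingSubgroup 1)) 1 (r F) := by
    intro F
    exact (ind_iff a _ 1 _).2 (ho.lin hE hW (by simp) a F)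
  refine ⟨N, hN, hle, hab, h2, hirr, fun F => ⟨?_, ?_⟩, ?_, ?_⟩
  · exact (hmono _ _ le_rfl 1 _ (hfix F)).1
  · have htriv : ∀ χ ∈ Irr (M ≃ₐ[K] M), (TwistData.ofCurve a).ord χ ≠ 0 → ∀ x ∈ N, χ x = χ 1 := by
      intro χ hχ hne
      rw [ho.ord a hχ] at hne
      exact ((hirr χ hχ).2 hne).1
    have h3 := (TwistData.ofCurve a).order_sup htriv F.fixingSubgroup
    rw [ho.lin hE hW (by simp) a F] at h3
    have h4 := ho.lin hE hW (by simp) a (F ⊓ IntermediateField.fixedField N)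
    rw [fixingSubgroup_inf, IntermediateField.fixingSubgroup_fixedField, h3] at h4
    exact_mod_cast h4
  · intro F F' hF
    obtain ⟨-, l', hl', hle'⟩ := hmono F'.fixingSubgroup F.fixingSubgroup
      (IntermediateField.fixingSubgroup_antitone hF) 1 _ (hfix F)
    rw [MonoidHom.one_comp] at hl'
    rwa [hl'.unique (hfix F')] at hle'
  · intro H ψ
    obtain ⟨l, hl1, hl2⟩ := order_ind a ho H ψ
    refine ⟨l, hl1, (hmono _ _ le_rfl ψ l hl1).1, ?_, fun H' hH => (hmono H' H hH ψ l hl1).2⟩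
    rintro ⟨x, hx, hψ⟩
    have : Fintype H := Fintype.ofFinite _
    rw [finsum_eq_sum_of_fintype] at hl2
    have h3 : ∑ y : H, (theta n : (M ≃ₐ[K] M) → ℂ) y * (((ψ y)⁻¹ : ℂˣ) : ℂ) =
        (((ψ x)⁻¹ : ℂˣ) : ℂ) *
          ∑ y : H, (theta n : (M ≃ₐ[K] M) → ℂ) y * (((ψ y)⁻¹ : ℂˣ) : ℂ) := by
      rw [Finset.mul_sum]
      refine Fintype.sum_equiv (Equiv.mulRight x⁻¹) _ _ fun y => ?_
      change _ = (((ψ x)⁻¹ : ℂˣ) : ℂ) * ((theta n : (M ≃ₐ[K] M) → ℂ) ((y * x⁻¹ : H) : _) *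
        (((ψ (y * x⁻¹))⁻¹ : ℂˣ) : ℂ))
      have h4 : (theta n : (M ≃ₐ[K] M) → ℂ) ((y * x⁻¹ : H) : M ≃ₐ[K] M) =
          theta n (y : M ≃ₐ[K] M) := by
        push_cast
        exact hconst _ _ (inv_mem hx)
      rw [h4, map_mul, map_inv, mul_inv, inv_inv, Units.val_mul]
      have h5 : (((ψ x)⁻¹ : ℂˣ) : ℂ) * (ψ x : ℂ) = 1 := by
        rw [← Units.val_mul, inv_mul_cancel, Units.val_one]
      linear_combination (-(theta n : (M ≃ₐ[K] M) → ℂ) (y : M ≃ₐ[K] M) *
        (((ψ y)⁻¹ : ℂˣ) : ℂ)) * h5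
    have h6 : (((ψ x)⁻¹ : ℂˣ) : ℂ) ≠ 1 := by
      intro h7
      apply hψ
      have h8 : (ψ x)⁻¹ = 1 := Units.ext h7
      rwa [inv_eq_one] at h8
    have h9 : ∑ y : H, (theta n : (M ≃ₐ[K] M) → ℂ) y * (((ψ y)⁻¹ : ℂˣ) : ℂ) = 0 := by
      have h10 : ((((ψ x)⁻¹ : ℂˣ) : ℂ) - 1) *
          ∑ y : H, (theta n : (M ≃ₐ[K] M) → ℂ) y * (((ψ y)⁻¹ : ℂˣ) : ℂ) = 0 := by
        rw [sub_mul, one_mul, ← h3, sub_self]
      rcases mul_eq_zero.1 h10 with h11 | h11
      · exact absurd (sub_eq_zero.1 h11) h6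
      · exact h11
    rw [h9] at hl2
    rcases mul_eq_zero.1 hl2.symm with h13 | h13
    · exact_mod_cast h13
    · exact absurd h13 card_ne

/-- **Perfect groups.** -/
theorem curve_perfect (hE : E.IsElliptic) (hW : IsModel E W) {Λ : FunctionalEquations M W}
    (hΛ : RealRootOne M W Λ) (a : Automorphic M W 1)
    (ho : Orders E W 1 n r) {k : ℕ} (hk : r ⊤ = k)
    (hp : ∀ p : ℕ, p.Prime → p ≠ 2 → p ∣ Nat.card (M ≃ₐ[K] M) → k < 2 * p)
    (hT : ¬ TwistZero r) (hG : commutator (M ≃ₐ[K] M) = ⊤) :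
    (∀ F, r F = k) ∧ ∀ χ ∈ Irr (M ≃ₐ[K] M), χ ≠ (fun _ => 1) → n χ = 0 := by
  obtain ⟨N, -, -, hab, -, hirr, hF, -, -⟩ := curve_central hE hW hΛ a ho hk hp hT
  have hN : N = ⊤ := by
    rw [eq_top_iff, ← hG, commutator_def, Subgroup.commutator_le]
    intro x _ y _
    rw [commutatorElement_def]
    have h2 := oddGen_top hG
    exact hab x (h2 ▸ mem_top x) y (h2 ▸ mem_top y)
  have hbot : IntermediateField.fixedField N = (⊥ : IntermediateField K M) := by
    rw [hN]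
    exact IsGalois.fixedField_top
  have h1 : ∀ F, r F = r ⊥ := by
    intro F
    rw [(hF F).2, hbot, inf_bot_eq]
  refine ⟨fun F => by rw [h1 F, ← h1 ⊤, hk], fun χ hχ hne => ?_⟩
  by_contra h0
  have h2 := ((hirr χ hχ).2 h0).1
  -- `χ` is constant, so it is trivial
  have hconst : ∀ x, χ x = χ 1 := fun x => h2 x (by rw [hN]; exact mem_top x)
  have : Fintype (M ≃ₐ[K] M) := Fintype.ofFinite _
  have hone : (fun _ : (M ≃ₐ[K] M) => (1 : ℂ)) ∈ Irr (M ≃ₐ[K] M) := by
    have := Pool.Agent.TH820.lin_irr (1 : (M ≃ₐ[K] M) →* ℂˣ)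
    simpa using this
  have h3 := pr_ne hχ hone hne
  rw [pr_eq] at h3
  have h4 : ∑ g : (M ≃ₐ[K] M), χ g * 1 = (Nat.card (M ≃ₐ[K] M) : ℂ) * χ 1 := by
    rw [Finset.sum_congr rfl (fun g _ => by rw [hconst g, mul_one] : ∀ g ∈ Finset.univ,
      χ g * 1 = χ 1)]
    rw [Finset.sum_const, Finset.card_univ, nsmul_eq_mul, Nat.card_eq_fintype_card]
  rw [h4, ← mul_assoc, inv_mul_cancel₀ card_ne, one_mul] at h3
  obtain ⟨d, hd, hd1⟩ := irr_deg_pos hχ
  rw [hd1] at h3
  have : d = 0 := by exact_mod_cast h3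
  omega

end

end Pool.Agent.H701.HW
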