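import Mathlib
import Pool.Agent.H701.HW.Cur
import Pool.Agent.H377.AD.Sim

/-!
# Ambivalent groups: half of the function
-/

set_option autoImplicit false
set_option linter.unusedSectionVars false

namespace Pool.Agent.H701.HW

open Subgroup Pool.Agent.H302R2 Pool.Agent.H302R3 Pool.Agent.H302R5 Pool.Agent.H541R3.ART
  Pool.Agent.W446.AS Pool.Agent.TH820 Pool.Agent.H701.CP Pool.Agent.Q7.SZ

/-- Every element is conjugate to its inverse. -/
def Ambivalent (X : Type) [Group X] : Prop := ∀ g : X, ∃ x : X, x * g * x⁻¹ = g⁻¹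

lemma Ambivalent.real {X : Type} [Group X] (h : Ambivalent X) {f : X → ℂ}
    (hf : ∀ g x, f (x * g * x⁻¹) = f g) (g : X) : f g⁻¹ = f g := by
  obtain ⟨x, hx⟩ := h g
  rw [← hx, hf]

lemma Ambivalent.pi {ι : Type} {X : ι → Type} [∀ i, Group (X i)] (h : ∀ i, Ambivalent (X i)) :
    Ambivalent (∀ i, X i) := by
  intro g
  choose x hx using fun i => h i (g i)
  exact ⟨x, funext fun i => hx i⟩

lemma Ambivalent.of_surj {X Y : Type} [Group X] [Group Y] (h : Ambivalent X) {f : X →* Y}
    (hf : Function.Surjective f) : Ambivalent Y := by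
  intro g
  obtain ⟨y, rfl⟩ := hf g
  obtain ⟨x, hx⟩ := h y
  exact ⟨f x, by rw [← map_inv, ← map_mul, ← map_mul, hx, map_inv]⟩

/-- A virtual character with nonnegative multiplicities on the solvable subgroups, which is real and
contains all real irreducible characters with even multiplicities. -/
structure EvenSol {G : Type} [Group G] [Finite G] (θ : G → ℂ) : Prop where
  sol : IsSolHeilbronn θ
  virt : Virt θ
  real : ∀ g, θ g⁻¹ = θ g
  even : ∀ χ ∈ Irr G, (∀ g, χ g⁻¹ = χ g) → ∃ j : ℤ, pr θ χ = (2 * j : ℤ)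

section
variable {G : Type} [Group G] [Finite G] {θ : G → ℂ}

/-- inversion of the argument in the scalar product -/
lemma pr_inv_inv (f χ : G → ℂ) : pr (fun g => f g⁻¹) (fun g => χ g⁻¹) = pr f χ := by
  classical
  have : Fintype G := Fintype.ofFinite G
  rw [pr_eq, pr_eq]
  congr 1
  exact Fintype.sum_equiv (Equiv.inv G) _ _ fun g => by simp

/-- multiplicities of a virtual character of this kind are invariant -/
lemma EvenSol.pr_inv (hθ : EvenSol θ) (χ : G → ℂ) : pr θ (fun g => χ g⁻¹) = pr θ χ := by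
  have h := pr_inv_inv θ χ
  rw [← h]
  congr 1
  funext g
  exact (hθ.real g).symm

/-- **Restriction.** -/
theorem EvenSol.comp (hθ : EvenSol θ) {P : Type} [Group P] [Finite P] (φ : P →* G) :
    EvenSol (fun x => θ (φ x)) where
  sol := hθ.sol.comp φ
  virt := hθ.virt.comp φ
  real g := by
    rw [map_inv, hθ.real]
  even ψ hψ hr := by
    classical
    choose! m hm using fun χ (hχ : χ ∈ Irr G) => hθ.virt.pr_int hχ
    choose! c hc using fun χ (hχ : χ ∈ Irr G) =>
      (Virt.comp (AddSubgroup.subset_closure hχ) φ).pr_int hψ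
    have h1 : (fun x => θ (φ x)) = fun x => ∑ χ ∈ irrF G, (m χ : ℂ) * (fun y => χ (φ y)) x := by
      funext x
      rw [hθ.virt.expand (φ x)]
      exact Finset.sum_congr rfl fun χ hχ => by rw [hm χ (mem_irrF.1 hχ)]
    have h2 : pr (fun x => θ (φ x)) ψ = ((∑ χ ∈ irrF G, m χ * c χ : ℤ) : ℂ) := by
      rw [h1, pr_sum_left]
      push_cast
      exact Finset.sum_congr rfl fun χ hχ => by rw [hc χ (mem_irrF.1 hχ)]
    have h3 : Even (∑ χ ∈ irrF G, m χ * c χ) := by
      refine sum_irr_even (fun χ => m χ * c χ) (fun χ hχ => ?_) (fun χ hχ hrχ => ?_)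
      · have hχ' := Pool.Agent.Q7.DB.irr_inv hχ
        have e1 : m (fun g => χ g⁻¹) = m χ := by
          have h4 := hm _ hχ'
          rw [hθ.pr_inv, hm χ hχ] at h4
          exact_mod_cast h4.symm
        have e2 : c (fun g => χ g⁻¹) = c χ := by
          have h4 := hc _ hχ'
          have h5 := pr_inv_inv (fun y : P => χ (φ y)) ψ
          rw [hc χ hχ] at h5
          have h6 : pr (fun g : P => (fun y : P => χ (φ y)) g⁻¹) (fun g => ψ g⁻¹) =
              pr (fun y : P => (fun g => χ g⁻¹) (φ y)) ψ := by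
            congr 1
            · funext g
              simp only [map_inv]
            · funext g
              exact hr g
          rw [h6, h4] at h5
          exact_mod_cast h5
        simp only [e1, e2]
      · obtain ⟨j, hj⟩ := hθ.even χ hχ hrχ
        rw [hm χ hχ] at hj
        have h4 : m χ = 2 * j := by exact_mod_cast hj
        rw [h4, mul_assoc]
        exact even_two_mul _
    obtain ⟨j, hj⟩ := h3
    refine ⟨j, ?_⟩
    rw [h2, hj]
    push_cast
    ring

/-- **Half of the function** -/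
theorem half_sol (hθ : IsSolHeilbronn θ) (hv : Virt θ)
    (h : ∀ χ ∈ Irr G, ∃ j : ℤ, pr θ χ = (2 * j : ℤ)) : IsSolHeilbronn (fun g => θ g / 2) := by
  classical
  choose! j hj using h
  have h1 : (fun g => θ g / 2) = (theta j : G → ℂ) := by
    funext g
    rw [hv.expand g, theta, Finset.sum_div]
    refine Finset.sum_congr rfl fun χ hχ => ?_
    rw [hj χ (mem_irrF.1 hχ)]
    push_cast
    ring
  constructor
  · intro g x
    rw [hθ.conj]
  · intro H hH ψ
    choose! m hm using fun χ (hχ : χ ∈ Irr G) => exists_mult hχ H ψ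
    have h2 := theta_mult j H ψ m hm
    obtain ⟨k, hk⟩ := hθ.mult H hH ψ
    have : Fintype H := Fintype.ofFinite _
    have h3 : ∑ᶠ h : H, θ h * (((ψ h)⁻¹ : ℂˣ) : ℂ) =
        2 * ∑ᶠ h : H, (theta j : G → ℂ) h * (((ψ h)⁻¹ : ℂˣ) : ℂ) := by
      rw [finsum_eq_sum_of_fintype, finsum_eq_sum_of_fintype, Finset.mul_sum]
      refine Finset.sum_congr rfl fun x _ => ?_
      rw [← congrFun h1 (x : G)]
      ring
    rw [h2, hk] at h3
    have hcard : (Nat.card H : ℂ) ≠ 0 := by exact_mod_cast Nat.card_pos.ne'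
    have h4 : (k : ℂ) = 2 * ((∑ χ ∈ irrF G, (m χ : ℤ) * j χ : ℤ) : ℂ) := by
      apply mul_right_cancel₀ hcard
      rw [h3]
      push_cast
      ring
    have h5 : (k : ℤ) = 2 * (∑ χ ∈ irrF G, (m χ : ℤ) * j χ) := by exact_mod_cast h4
    refine ⟨(∑ χ ∈ irrF G, (m χ : ℤ) * j χ).toNat, ?_⟩
    have h6 : ((∑ χ ∈ irrF G, (m χ : ℤ) * j χ).toNat : ℤ) = ∑ χ ∈ irrF G, (m χ : ℤ) * j χ :=
      Int.toNat_of_nonneg (by omega)
    have h7 : ((∑ χ ∈ irrF G, (m χ : ℤ) * j χ).toNat : ℂ) =
        ((∑ χ ∈ irrF G, (m χ : ℤ) * j χ : ℤ) : ℂ) := by exact_mod_cast congrArg (Int.cast : ℤ → ℂ) h6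
    rw [h7, ← h2]
    refine finsum_congr fun x => ?_
    rw [← congrFun h1 (x : G)]

/-- half of the function, for ambivalent groups -/
theorem EvenSol.half (hθ : EvenSol θ) (hG : Ambivalent G) : IsSolHeilbronn (fun g => θ g / 2) :=
  half_sol hθ.sol hθ.virt fun χ hχ =>
    hθ.even χ hχ (hG.real fun g x => (show Virt χ from AddSubgroup.subset_closure hχ).conj g x)

end

end Pool.Agent.H701.HW
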