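import Mathlib
import Pool.Agent.H701.HW.Half

/-!
# Families of commuting ambivalent subgroups
-/

set_option autoImplicit false
set_option linter.unusedSectionVars false

namespace Pool.Agent.H701.HW

open Subgroup Pool.Agent.H302R2 Pool.Agent.H302R3 Pool.Agent.H302R5 Pool.Agent.H541R3.ART
  Pool.Agent.H541R3.ARS Pool.Agent.W446.AS Pool.Agent.TH820 Pool.Agent.Q7.SZ Pool.Agent.H377.AD
open scoped commutatorElement

section
variable {G : Type} [Group G] [Finite G] {θ : G → ℂ}

lemma EvenSol.exists_deg (hθ : EvenSol θ) : ∃ k : ℕ, θ 1 = k := hθ.sol.exists_deg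

/-- **Additivity with the factor two** for commuting ambivalent subgroups -/
theorem additivity_half (hθ : EvenSol θ) {ι : Type} [Fintype ι] (X : ι → Subgroup G)
    (ha : ∀ i, Ambivalent (X i)) (hc : ∀ i j, i ≠ j → ∀ x ∈ X i, ∀ y ∈ X j, x * y = y * x)
    (b : ι → ℕ) (hb : ∀ i, Rigid (b i) (X i)) (y : ∀ i, X i) (hy : ∀ i, y i ∈ commutator (X i))
    (hne : ∀ i, θ (y i) ≠ θ 1) {k : ℕ} (hk : θ 1 = k) : 2 * ∑ i, b i ≤ k := by
  classical
  have hcomm : Pairwise fun i j => ∀ x y : G, x ∈ X i → y ∈ X j → Commute x y :=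
    fun i j hij x y hx hy => hc i j hij x hx y hy
  let φ : (∀ i, X i) →* G := Subgroup.noncommPiCoprod hcomm
  have hφ : ∀ (i : ι) (x : X i), φ (Pi.mulSingle i x) = x := fun i x =>
    Subgroup.noncommPiCoprod_mulSingle i x
  have hF := (hθ.comp φ).half (Ambivalent.pi ha)
  obtain ⟨d, hd⟩ := hF.exists_deg
  have hd2 : k = 2 * d := by
    have h1 : θ (φ 1) / 2 = d := hd
    rw [map_one, hk] at h1
    have h2 : (k : ℂ) = 2 * d := by rw [← h1]; ring
    exact_mod_cast h2
  have h := additivity hb Finset.univ (∀ i, X i) _ hF (fun i => MonoidHom.mulSingle (fun i => X i) i)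
    (fun i _ j _ hij x z => by
      have h1 : Pairwise fun i j => ∀ (x : X i) (y : X j),
          Commute (Pi.mulSingle i x : ∀ i, X i) (Pi.mulSingle j y) := Pi.mulSingle_commute
      exact h1 hij x z) y (fun i _ => hy i) (fun i _ => by
      change θ (φ (Pi.mulSingle i (y i))) / 2 ≠ θ (φ 1) / 2
      rw [hφ, map_one]
      intro h
      exact hne i (by linear_combination 2 * h)) d hd
  omega

/-- constancy on the commutator subgroups of a family of ambivalent groups -/
theorem const_half (hθ : EvenSol θ) {ι : Type} [Finite ι] {X : ι → Subgroup G} {r : ℕ}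
    (h : Family (r / 2) X) (ha : ∀ i, Ambivalent (X i)) {r' : ℕ} (hr' : r' ≤ r) (h1 : θ 1 = r') :
    ∀ x ∈ (⨆ i, ⁅X i, X i⁆ : Subgroup G), θ x = θ 1 := by
  classical
  have : Fintype ι := Fintype.ofFinite _
  obtain ⟨b, hb, hlt⟩ := h.rigid
  have hex : ∃ i, ∀ x ∈ commutator (X i), θ x = θ 1 := by
    by_contra hcon
    push Not at hcon
    choose y hy hne using hcon
    have h2 := additivity_half hθ X ha (fun i j hij x hx y hy => h.comm i j hij x hx y hy)
      (fun _ => b) hb y hy hne h1
    rw [Finset.sum_const, Finset.card_univ, smul_eq_mul, ← Nat.card_eq_fintype_card,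
      mul_comm (Nat.card ι)] at h2
    omega
  obtain ⟨i, hi⟩ := hex
  apply const_iSup hθ.sol
  · intro j k hjk x hx y hy
    exact h.comm j k hjk x (Subgroup.commutator_le_self _ hx) y (Subgroup.commutator_le_self _ hy)
  · intro j x hx
    obtain ⟨g, hg⟩ := h.trans i j
    have h2 : ⁅X j, X j⁆ = (commutator (X i)).map ((MulAut.conj g).toMonoidHom.comp
        (X i).subtype) := by
      rw [← Subgroup.map_map, map_commutator_top, Subgroup.map_commutator, map_conj hg]
    rw [h2] at hx
    obtain ⟨z, hz, rfl⟩ := hx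
    change θ (g * z * g⁻¹) = θ 1
    rw [hθ.sol.conj, hi z hz]

/-- descent to a quotient -/
theorem EvenSol.push (hθ : EvenSol θ) [Fintype G] {P : Type} [Group P] [Finite P] {π : G →* P}
    (hπ : Function.Surjective π) (hc : ∀ x y, π x = π y → θ x = θ y) :
    EvenSol (push π θ) where
  sol := push_isSol_of_const hπ hθ.sol hc
  virt := hθ.virt.push hπ
  real y := by
    obtain ⟨g, rfl⟩ := hπ y
    rw [← map_inv, push_eq_of_const π hc, push_eq_of_const π hc, hθ.real]
  even ψ hψ hr := by
    rw [pr_push hπ]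
    exact hθ.even _ (infl_irr hπ hψ) fun g => by rw [map_inv, hr]

end

/-- The normal subgroups of `G` which are reached from the trivial subgroup by adding, again and
again, the commutator subgroups of families of commuting subgroups of the quotient; the condition
`r < b * (number of subgroups)` on the families is replaced by `r < 2 * b * (number of subgroups)`
if the groups of the family are ambivalent. -/
inductive CLayered {G : Type} [Group G] (r : ℕ) : Subgroup G → Prop
  | bot : CLayered r ⊥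
  | step {P : Type} [Group P] (π : G →* P) (hπ : Function.Surjective π) (hM : CLayered r π.ker)
      {ι : Type} [Finite ι] (X : ι → Subgroup P)
      (hX : Family r X ∨ (Family (r / 2) X ∧ ∀ i, Ambivalent (X i))) :
      CLayered r ((⨆ i, ⁅X i, X i⁆ : Subgroup P).comap π)

lemma CLayered.normal {G : Type} [Group G] {r : ℕ} {M : Subgroup G} (h : CLayered r M) :
    M.Normal := by
  induction h with
  | bot => infer_instance
  | step π hπ hM X hX ih =>
    have : (⨆ i, ⁅X i, X i⁆ : Subgroup _).Normal := by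
      rcases hX with hX | ⟨hX, -⟩
      · exact hX.normal
      · exact hX.normal
    infer_instance

/-- the first layer -/
lemma CLayered.of_family {G : Type} [Group G] {r : ℕ} {ι : Type} [Finite ι] {X : ι → Subgroup G}
    (hX : Family r X ∨ (Family (r / 2) X ∧ ∀ i, Ambivalent (X i))) :
    CLayered r (⨆ i, ⁅X i, X i⁆ : Subgroup G) := by
  have h := CLayered.step (MonoidHom.id G) Function.surjective_id (by
    have : (MonoidHom.id G).ker = ⊥ := (MonoidHom.ker_eq_bot_iff _).mpr Function.injective_id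
    rw [this]
    exact CLayered.bot) X hX
  rwa [Subgroup.comap_id] at h

/-- **Invariance** under the layered normal subgroups -/
theorem CLayered.inv {G : Type} [Group G] [Finite G] {r : ℕ} {M : Subgroup G} (h : CLayered r M)
    {θ : G → ℂ} (hθ : EvenSol θ) {r' : ℕ} (hr' : r' ≤ r) (h1 : θ 1 = r') :
    ∀ m ∈ M, ∀ x, θ (m * x) = θ x := by
  classical
  have : Fintype G := Fintype.ofFinite _
  induction h with
  | bot =>
    intro m hm x
    rw [Subgroup.mem_bot.mp hm, one_mul]
  | step π hπ hM X hX ih =>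
    intro m hm x
    have : Finite _ := Finite.of_surjective π hπ
    have hc := Pool.Agent.H377.AD.const_of_ker π ih
    have hp := hθ.push hπ hc
    have hv := push_eq_of_const π hc
    obtain ⟨r'', hr'', hr1⟩ := push_deg_le hθ.sol hp.sol h1
    have h2 : ∀ x y, x ∈ (⨆ i, ⁅X i, X i⁆ : Subgroup _) →
        Pool.Agent.H302R5.push π θ (x * y) = Pool.Agent.H302R5.push π θ y := by
      intro x y hx
      rcases hX with hX | ⟨hX, ha⟩
      · exact kernel_sol hp.sol _ hX.normal (hX.const hp.sol (hr''.trans hr') hr1) x hx y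
      · exact kernel_sol hp.sol _ hX.normal (const_half hp hX ha (hr''.trans hr') hr1) x hx y
    have h3 := h2 (π m) (π x) hm
    rw [← map_mul, hv, hv] at h3
    exact h3

/-- Multiplicities on a subgroup, modulo a normal subgroup under which the function is invariant. -/
theorem mult_nat_inv {G : Type} [Group G] [Finite G] {r : ℕ} {M : Subgroup G}
    {θ : G → ℂ} (hinv : ∀ m ∈ M, ∀ x, θ (m * x) = θ x)
    (hθ : IsSolHeilbronn θ) {r' : ℕ} (hr' : r' ≤ r) (h1 : θ 1 = r')
    (H : Subgroup G) {P : Type} [Group P] (π : H →* P) (hπ : Function.Surjective π)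
    (hk : π.ker = M.subgroupOf H) (hH : Wide r P inferInstance) (ψ : H →* ℂˣ) :
    ∃ n : ℕ, ∑ᶠ h : H, θ h * (((ψ h)⁻¹ : ℂˣ) : ℂ) = (n : ℂ) * (Nat.card H : ℂ) := by
  classical
  have : Fintype H := Fintype.ofFinite _
  have : Finite P := Finite.of_surjective π hπ
  by_cases hψ : ∀ m ∈ M.subgroupOf H, ψ m = 1
  · have hθ' := (hθ.comp H.subtype).twist ψ
    have hc := Pool.Agent.H377.AD.const_of_ker
      (θ := fun x : H => θ (H.subtype x) * (((ψ x)⁻¹ : ℂˣ) : ℂ)) π (by
      intro m hm x
      rw [hk] at hm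
      simp only [Subgroup.coe_subtype, map_mul, hψ m hm, one_mul,
        hinv (m : G) hm (x : G)])
    have hp := push_isSol_of_const hπ hθ' hc
    obtain ⟨r'', hr'', hr1⟩ := push_deg_le hθ' hp (r := r') (by simp [h1])
    obtain ⟨n, hn'⟩ := good_wide _ hH _ hp r'' (hr''.trans hr') hr1
    exact ⟨n, mult_of_push hπ hn'⟩
  · push Not at hψ
    obtain ⟨m, hm, hm1⟩ := hψ
    refine ⟨0, ?_⟩
    rw [finsum_eq_sum_of_fintype]
    have h2 : ∑ h : H, θ h * (((ψ h)⁻¹ : ℂˣ) : ℂ) =
        (((ψ m)⁻¹ : ℂˣ) : ℂ) * ∑ h : H, θ h * (((ψ h)⁻¹ : ℂˣ) : ℂ) := by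
      rw [Finset.mul_sum, ← Equiv.sum_comp (Equiv.mulLeft m)]
      refine Finset.sum_congr rfl fun x _ => ?_
      rw [Equiv.coe_mulLeft, map_mul, mul_inv_rev, Units.val_mul, Subgroup.coe_mul,
        hinv (m : G) hm (x : G)]
      ring
    have h3 : (((ψ m)⁻¹ : ℂˣ) : ℂ) ≠ 1 := by
      intro h4
      apply hm1
      rw [← inv_eq_one, ← Units.val_eq_one]; exact h4
    have h4 : (1 - (((ψ m)⁻¹ : ℂˣ) : ℂ)) * ∑ h : H, θ h * (((ψ h)⁻¹ : ℂˣ) : ℂ) = 0 := by
      rw [sub_mul, one_mul, ← h2, sub_self]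
    rcases mul_eq_zero.mp h4 with h5 | h5
    · exact absurd (sub_eq_zero.mp h5).symm h3
    · rw [h5]; simp

end Pool.Agent.H701.HW
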