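import Mathlib
import Pool.Agent.H701.HW.HalfFam
import Pool.Graph.R_pool_sql_team_seeded_f0cf7b00.H302R3.WeakTwo

/-!
# Multiplicities on subgroups of ambivalent groups
-/

set_option autoImplicit false
set_option linter.unusedSectionVars false

namespace Pool.Agent.H701.HW

open Subgroup Pool.Agent.H302R2 Pool.Agent.H302R3 Pool.Agent.H302R5 Pool.Agent.H541R3.ART
  Pool.Agent.H541R3.ARS Pool.Agent.W446.AS Pool.Agent.TH820 Pool.Agent.Q7.SZ Pool.Agent.H377.AD

section
variable {G : Type} [Group G] [Finite G] {θ : G → ℂ}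

/-- sums over a subgroup of a subgroup -/
lemma sum_subgroupOf {U M : Subgroup G} (h : U ≤ M) (f : U → ℂ) :
    ∑ᶠ x : U.subgroupOf M, f ⟨((x : M) : G), x.2⟩ = ∑ᶠ u : U, f u := by
  let e : U.subgroupOf M ≃ U :=
    { toFun := fun u => ⟨((u : M) : G), u.2⟩
      invFun := fun u => ⟨inclusion h u, u.2⟩
      left_inv := fun _ => rfl
      right_inv := fun _ => rfl }
  exact finsum_comp_equiv e (f := f)

lemma card_subgroupOf' {U M : Subgroup G} (h : U ≤ M) :
    Nat.card (U.subgroupOf M) = Nat.card U := by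
  let e : U.subgroupOf M ≃ U :=
    { toFun := fun u => ⟨((u : M) : G), u.2⟩
      invFun := fun u => ⟨inclusion h u, u.2⟩
      left_inv := fun _ => rfl
      right_inv := fun _ => rfl }
  exact Nat.card_congr e

/-- **Even multiplicities** on the subgroups of the ambivalent subgroups, solvable or not -/
theorem EvenSol.mult_even (hθ : EvenSol θ) {H : Subgroup G} (hH : Ambivalent H)
    {U : Subgroup G} (h : U ≤ H) (ψ : U →* ℂˣ) {l : ℤ}
    (hl : ∑ᶠ u : U, θ u * (((ψ u)⁻¹ : ℂˣ) : ℂ) = (l : ℂ) * (Nat.card U : ℂ)) : Even l := by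
  classical
  have hF : EvenSol (fun x : H => θ x) := hθ.comp H.subtype
  have hev : ∀ χ ∈ Irr H, ∃ j : ℤ, pr (fun x : H => θ x) χ = (2 * j : ℤ) := fun χ hχ =>
    hF.even χ hχ (hH.real fun g x => (show Virt χ from AddSubgroup.subset_closure hχ).conj g x)
  choose! j hj using hev
  have h1 : (fun x : H => θ x) = (theta (fun χ => 2 * j χ) : H → ℂ) := by
    funext g
    rw [hF.virt.expand g, theta]
    exact Finset.sum_congr rfl fun χ hχ => by rw [hj χ (mem_irrF.1 hχ)]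
  let ψ' : U.subgroupOf H →* ℂˣ :=
    { toFun := fun x => ψ ⟨((x : H) : G), x.2⟩
      map_one' := by
        have : (⟨(((1 : U.subgroupOf H) : H) : G), (1 : U.subgroupOf H).2⟩ : U) = 1 := rfl
        rw [this, map_one]
      map_mul' := fun x y => by
        rw [← map_mul]
        rfl }
  choose! m hm using fun χ (hχ : χ ∈ Irr H) => exists_mult hχ (U.subgroupOf H) ψ'
  have h2 := theta_mult (fun χ => 2 * j χ) (U.subgroupOf H) ψ' m hm
  rw [← h1, card_subgroupOf' h] at h2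
  have h3 := sum_subgroupOf h (fun u : U => θ u * (((ψ u)⁻¹ : ℂˣ) : ℂ))
  rw [hl] at h3
  have h4 : (l : ℂ) * (Nat.card U : ℂ) =
      ((∑ χ ∈ irrF H, (m χ : ℤ) * (2 * j χ) : ℤ) : ℂ) * (Nat.card U : ℂ) := by
    rw [← h2, ← h3]
    rfl
  have hcard : (Nat.card U : ℂ) ≠ 0 := by exact_mod_cast Nat.card_pos.ne'
  have h5 : l = ∑ χ ∈ irrF H, (m χ : ℤ) * (2 * j χ) := by
    exact_mod_cast mul_right_cancel₀ hcard h4
  rw [h5]
  refine Finset.even_sum _ fun χ _ => ?_
  exact (even_two_mul (j χ)).mul_left _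

/-- **Degree at most five**: multiplicities on the subgroups of the ambivalent subgroups -/
theorem EvenSol.mult_five (hθ : EvenSol θ) {H : Subgroup G} (hH : Ambivalent H) {k : ℕ}
    (hk : θ 1 = k) (hk5 : k ≤ 5) {U : Subgroup G} (h : U ≤ H) (ψ : U →* ℂˣ) {l : ℤ}
    (hl : ∑ᶠ u : U, θ u * (((ψ u)⁻¹ : ℂˣ) : ℂ) = (l : ℂ) * (Nat.card U : ℂ)) :
    0 ≤ l ∧ ∀ (V : Subgroup G) (hV : V ≤ U) (l' : ℤ),
      ∑ᶠ v : V, θ v * (((ψ (inclusion hV v))⁻¹ : ℂˣ) : ℂ) = (l' : ℂ) * (Nat.card V : ℂ) →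
      l ≤ l' := by
  classical
  have : Fintype U := Fintype.ofFinite _
  have hF := (hθ.comp H.subtype).half hH
  have hdeg : (θ 1 / 2).re ≤ 2 := by
    obtain ⟨d, hd⟩ := hF.exists_deg
    have h1 : θ (H.subtype 1) / 2 = d := hd
    rw [map_one] at h1
    rw [h1, Complex.natCast_re]
    rw [hk] at h1
    have h2 : (k : ℂ) = 2 * d := by rw [← h1]; ring
    have h3 : k = 2 * d := by exact_mod_cast h2
    have h4 : d ≤ 2 := by omega
    exact_mod_cast h4
  have hHb := hF.isHeilbronn hdeg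
  have hU : IsHeilbronn (fun x : U => θ x / 2) := hHb.comp (inclusion h)
  have hUdeg : ((fun x : U => θ x / 2) 1).re ≤ 2 := hdeg
  -- the multiplicity on `U` is the double of a natural number
  obtain ⟨a, ha⟩ := hU.mult_hom (MonoidHom.id U) ψ
  have ha' : ∑ᶠ u : U, (fun x : U => θ x / 2) u * (((ψ u)⁻¹ : ℂˣ) : ℂ) = a * Nat.card U := by
    rw [finsum_eq_sum_of_fintype]
    exact ha
  have hcard : (Nat.card U : ℂ) ≠ 0 := by exact_mod_cast Nat.card_pos.ne'
  have hla : l = 2 * (a : ℤ) := by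
    have h1 : ∑ᶠ u : U, θ u * (((ψ u)⁻¹ : ℂˣ) : ℂ) =
        2 * ∑ᶠ u : U, (fun x : U => θ x / 2) u * (((ψ u)⁻¹ : ℂˣ) : ℂ) := by
      rw [finsum_eq_sum_of_fintype, finsum_eq_sum_of_fintype, Finset.mul_sum]
      exact Finset.sum_congr rfl fun x _ => by ring
    rw [hl, ha'] at h1
    have h2 : (l : ℂ) = 2 * (a : ℂ) := by
      apply mul_right_cancel₀ hcard
      rw [h1]; ring
    exact_mod_cast h2
  refine ⟨by omega, fun V hV l' hl' => ?_⟩
  have : Fintype V := Fintype.ofFinite _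
  obtain ⟨b, hb⟩ := hU.mult_hom (inclusion hV) (ψ.comp (inclusion hV))
  have hcardV : (Nat.card V : ℂ) ≠ 0 := by exact_mod_cast Nat.card_pos.ne'
  have hlb : l' = 2 * (b : ℤ) := by
    have h1 : ∑ᶠ v : V, θ v * (((ψ (inclusion hV v))⁻¹ : ℂˣ) : ℂ) =
        2 * ∑ v : V, (fun x : U => θ x / 2) (inclusion hV v) *
          ((((ψ.comp (inclusion hV)) v)⁻¹ : ℂˣ) : ℂ) := by
      rw [finsum_eq_sum_of_fintype, Finset.mul_sum]
      refine Finset.sum_congr rfl fun x _ => ?_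
      have h9 : (fun x : U => θ x / 2) (inclusion hV x) = θ x / 2 := rfl
      rw [MonoidHom.comp_apply, h9]
      ring
    rw [hl', hb] at h1
    have h2 : (l' : ℂ) = 2 * (b : ℂ) := by
      apply mul_right_cancel₀ hcardV
      rw [h1]; ring
    exact_mod_cast h2
  have hab : a ≤ b := by
    refine hU.mult_le hUdeg (V.subgroupOf U) ψ a b ha' ?_
    rw [card_subgroupOf' hV]
    have h3 := sum_subgroupOf hV (fun v : V => (fun x : U => θ x / 2) (inclusion hV v) *
      ((((ψ.comp (inclusion hV)) v)⁻¹ : ℂˣ) : ℂ))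
    rw [finsum_eq_sum_of_fintype (f := fun v : V => (fun x : U => θ x / 2) (inclusion hV v) *
      ((((ψ.comp (inclusion hV)) v)⁻¹ : ℂˣ) : ℂ)), hb] at h3
    rw [← h3]
    rfl
  omega

end

end Pool.Agent.H701.HW
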