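import Mathlib
import Pool.Agent.H701.HW.HalfMul

/-!
# Ambivalent groups: elliptic curves at the centre
-/

set_option autoImplicit false
set_option linter.unusedSectionVars false

namespace Pool.Agent.H701.HW

open NumberField IsDedekindDomain Subgroup Pool.Agent.H302R2 Pool.Agent.H302R3 Pool.Agent.H302R5
  Pool.Agent.H541R3.ART Pool.Agent.H541R3.ARS Pool.Agent.W446.AS Pool.Agent.TH820
  Pool.Agent.Q7.SZ Pool.Agent.Q7.RL Pool.Agent.Q92.RT Pool.Agent.W353.NF Pool.Agent.H341R2.EC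
  Pool.Agent.H377.AD
open scoped commutatorElement

/-! ### examples -/

lemma ambivalent_perm {α : Type} [Fintype α] [DecidableEq α] : Ambivalent (Equiv.Perm α) := by
  intro g
  have h : IsConj g g⁻¹ := Equiv.Perm.isConj_iff_cycleType_eq.2 (Equiv.Perm.cycleType_inv g).symm
  obtain ⟨x, hx⟩ := isConj_iff.1 h
  exact ⟨x, hx⟩

lemma ambivalent_sl {F : Type} [Field F] [CharP F 2] :
    Ambivalent (Matrix.SpecialLinearGroup (Fin 2) F) := by
  intro g
  have h2 : ∀ t : F, -t = t := fun t => CharTwo.neg_eq t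
  have hdet : g.1 0 0 * g.1 1 1 - g.1 0 1 * g.1 1 0 = 1 := by
    have := g.2
    rwa [Matrix.det_fin_two] at this
  have hinv : ∀ x : Matrix.SpecialLinearGroup (Fin 2) F, x * g = g⁻¹ * x →
      x * g * x⁻¹ = g⁻¹ := fun x hx => by rw [hx, mul_inv_cancel_right]
  have hgi : (g⁻¹).1 = !![g.1 1 1, g.1 0 1; g.1 1 0, g.1 0 0] := by
    change (g⁻¹ : Matrix.SpecialLinearGroup (Fin 2) F).1 = _
    rw [Matrix.SpecialLinearGroup.coe_inv, Matrix.adjugate_fin_two, h2, h2]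
  have hext : ∀ (x : Matrix.SpecialLinearGroup (Fin 2) F),
      x.1 * g.1 = !![g.1 1 1, g.1 0 1; g.1 1 0, g.1 0 0] * x.1 → ∃ x, x * g * x⁻¹ = g⁻¹ := by
    intro x hx
    refine ⟨x, hinv x (Subtype.ext ?_)⟩
    rw [Matrix.SpecialLinearGroup.coe_mul, Matrix.SpecialLinearGroup.coe_mul]
    change x.1 * g.1 = (g⁻¹).1 * x.1
    rw [hgi, hx]
  by_cases hc : g.1 1 0 = 0
  · by_cases hb : g.1 0 1 = 0
    · refine hext ⟨!![0, 1; 1, 0], by rw [Matrix.det_fin_two_of]; ring_nf; exact h2 1⟩ ?_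
      change !![0, 1; 1, 0] * g.1 = !![g.1 1 1, g.1 0 1; g.1 1 0, g.1 0 0] * !![0, 1; 1, 0]
      ext i j
      fin_cases i <;> fin_cases j <;> simp [Matrix.mul_apply, Fin.sum_univ_two, hb, hc]
    · refine hext ⟨!![1, 0; (g.1 0 0 - g.1 1 1) / g.1 0 1, 1], by
        rw [Matrix.det_fin_two_of]; ring⟩ ?_
      change !![1, 0; (g.1 0 0 - g.1 1 1) / g.1 0 1, 1] * g.1 =
        !![g.1 1 1, g.1 0 1; g.1 1 0, g.1 0 0] * !![1, 0; (g.1 0 0 - g.1 1 1) / g.1 0 1, 1]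
      ext i j
      fin_cases i <;> fin_cases j <;>
        simp [Matrix.mul_apply, Fin.sum_univ_two, hc] <;> field_simp <;> ring
  · refine hext ⟨!![1, (g.1 1 1 - g.1 0 0) / g.1 1 0; 0, 1], by
      rw [Matrix.det_fin_two_of]; ring⟩ ?_
    change !![1, (g.1 1 1 - g.1 0 0) / g.1 1 0; 0, 1] * g.1 =
      !![g.1 1 1, g.1 0 1; g.1 1 0, g.1 0 0] * !![1, (g.1 1 1 - g.1 0 0) / g.1 1 0; 0, 1]
    ext i j
    fin_cases i <;> fin_cases j <;>
      simp [Matrix.mul_apply, Fin.sum_univ_two] <;> field_simp <;> ring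

/-! ### curves -/

section
variable {K M : Type} [Field K] [NumberField K] [Field M] [NumberField M] [Algebra K M]
  [IsGalois K M] {E : WeierstrassCurve K} {W : WeierstrassCurve (𝓞 K)}
  {n : ((M ≃ₐ[K] M) → ℂ) → ℤ} {r : IntermediateField K M → ℤ} {Λ : FunctionalEquations M W}

theorem evenSol_curve (hΛ : RealRootOne M W Λ) (a : Automorphic M W 1) (ho : Orders E W 1 n r) :
    EvenSol (theta n : (M ≃ₐ[K] M) → ℂ) where
  sol := by
    have hs := (TwistData.ofCurve a).isSol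
    rwa [theta_ord a ho] at hs
  virt := theta_virt n
  real := theta_real' n (n_inv (Λ := Λ) a ho)
  even χ hχ hr := by
    classical
    have : Fintype (M ≃ₐ[K] M) := Fintype.ofFinite _
    obtain ⟨j, hj⟩ := n_even hΛ a ho χ hχ hr
    refine ⟨j, ?_⟩
    have h1 : pr (theta n : (M ≃ₐ[K] M) → ℂ) χ = n χ := by
      rw [pr_eq, theta_pair n hχ, mul_comm (n χ : ℂ), ← mul_assoc, inv_mul_cancel₀ card_ne,
        one_mul]
    rw [h1, hj]
    push_cast
    ring

theorem theta_one_curve (hE : E.IsElliptic) (hW : IsModel E W) (a : Automorphic M W 1)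
    (ho : Orders E W 1 n r) {k : ℕ} (hk : r ⊤ = k) :
    (theta n : (M ≃ₐ[K] M) → ℂ) 1 = k := by
  have hr := ho.bot hE hW (by simp) a
  rw [hk] at hr
  have h1 := (TwistData.ofCurve a).theta_one hr
  rwa [theta_ord a ho] at h1

/-- nonvanishing -/
theorem cz_zero (hE : E.IsElliptic) (hW : IsModel E W) (hΛ : RealRootOne M W Λ)
    (a : Automorphic M W 1) (ho : Orders E W 1 n r) {k : ℕ} (hk : r ⊤ = k)
    {N : Subgroup (M ≃ₐ[K] M)} (hN : CLayered k N) {χ : (M ≃ₐ[K] M) → ℂ}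
    (hχ : χ ∈ Irr (M ≃ₐ[K] M)) (h : ∃ x ∈ N, χ x ≠ χ 1) : n χ = 0 := by
  classical
  have : Fintype (M ≃ₐ[K] M) := Fintype.ofFinite _
  obtain ⟨x, hx, hx1⟩ := h
  have hn : N.Normal := hN.normal
  have hinv := hN.inv (evenSol_curve hΛ a ho) le_rfl (theta_one_curve hE hW a ho hk)
  have h1 := pair_zero hχ N hinv hx hx1
  rw [theta_pair _ hχ] at h1
  have hG : (Nat.card (M ≃ₐ[K] M) : ℂ) ≠ 0 := by exact_mod_cast Nat.card_pos.ne'
  have h2 := (mul_eq_zero.mp h1).resolve_right hG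
  exact_mod_cast h2

/-- the orders depend only on the intersection with the fixed field -/
theorem cz_field (hE : E.IsElliptic) (hW : IsModel E W) (hΛ : RealRootOne M W Λ)
    (a : Automorphic M W 1) (ho : Orders E W 1 n r) {k : ℕ} (hk : r ⊤ = k)
    {N : Subgroup (M ≃ₐ[K] M)} (hN : CLayered k N) (F : IntermediateField K M) :
    r F = r (F ⊓ IntermediateField.fixedField N) := by
  have h1 := (TwistData.ofCurve a).order_sup (N := N) (fun χ hχ hne x hx => by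
    by_contra hcon
    apply hne
    rw [ho.ord a hχ]
    exact cz_zero hE hW hΛ a ho hk hN hχ ⟨x, hx, hcon⟩) F.fixingSubgroup
  rw [ho.lin hE hW (by simp) a F] at h1
  have h2 := ho.lin hE hW (by simp) a (F ⊓ IntermediateField.fixedField N)
  rw [fixingSubgroup_inf, IntermediateField.fixingSubgroup_fixedField, h1] at h2
  exact_mod_cast h2

/-- holomorphy -/
theorem cz_hol (hE : E.IsElliptic) (hW : IsModel E W) (hΛ : RealRootOne M W Λ)
    (a : Automorphic M W 1) (ho : Orders E W 1 n r) {k : ℕ} (hk : r ⊤ = k)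
    {N : Subgroup (M ≃ₐ[K] M)} (hN : CLayered k N) (H : Subgroup (M ≃ₐ[K] M))
    {P : Type} [Group P] (π : H →* P)
    (hπ : Function.Surjective π) (hker : π.ker = N.subgroupOf H) (hH : Wide k P inferInstance)
    (ψ : H →* ℂˣ) : ∃ l : ℤ, 0 ≤ l ∧ HasOrder (twistedL M W (induced H ψ)) 1 l := by
  have hinv := hN.inv (evenSol_curve hΛ a ho) le_rfl (theta_one_curve hE hW a ho hk)
  obtain ⟨m, hm⟩ := mult_nat_inv hinv (evenSol_curve hΛ a ho).sol le_rfl
    (theta_one_curve hE hW a ho hk) H π hπ hker hH ψ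
  obtain ⟨l, hl, hl2⟩ := order_ind a ho H ψ
  refine ⟨l, ?_, hl⟩
  have hH0 : (Nat.card H : ℂ) ≠ 0 := by exact_mod_cast Nat.card_pos.ne'
  rw [hl2] at hm
  have h2 : l = (m : ℤ) := by exact_mod_cast mul_right_cancel₀ hH0 hm
  rw [h2]
  exact Int.natCast_nonneg m

theorem cz_hol_sol (hE : E.IsElliptic) (hW : IsModel E W) (hΛ : RealRootOne M W Λ)
    (a : Automorphic M W 1) (ho : Orders E W 1 n r) {k : ℕ} (hk : r ⊤ = k)
    {N : Subgroup (M ≃ₐ[K] M)} (hN : CLayered k N) {j : ℕ}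
    (hj : derivedSeries (M ≃ₐ[K] M) j ≤ N) (H : Subgroup (M ≃ₐ[K] M))
    (ψ : H →* ℂˣ) : ∃ l : ℤ, 0 ≤ l ∧ HasOrder (twistedL M W (induced H ψ)) 1 l := by
  have hn : N.Normal := hN.normal
  have hπ : Function.Surjective (QuotientGroup.mk' (N.subgroupOf H)) :=
    QuotientGroup.mk'_surjective _
  have hker : (QuotientGroup.mk' (N.subgroupOf H)).ker = N.subgroupOf H := QuotientGroup.ker_mk' _
  exact cz_hol hE hW hΛ a ho hk hN H _ hπ hker (Wide.sol _ _ (sol_of_derived hj H _ hπ hker)) ψ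

theorem cz_field_sol (hE : E.IsElliptic) (hW : IsModel E W) (hΛ : RealRootOne M W Λ)
    (a : Automorphic M W 1) (ho : Orders E W 1 n r) {k : ℕ} (hk : r ⊤ = k)
    {N : Subgroup (M ≃ₐ[K] M)} (hN : CLayered k N) {j : ℕ}
    (hj : derivedSeries (M ≃ₐ[K] M) j ≤ N) (F : IntermediateField K M) : 0 ≤ r F := by
  obtain ⟨l, hl, h1⟩ := cz_hol_sol hE hW hΛ a ho hk hN hj F.fixingSubgroup 1
  have h2 := (ind_iff a _ 1 _).2 (ho.lin hE hW (by simp) a F)
  rw [h2.unique h1]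
  exact hl

/-- all irreducible characters, if the quotient is metabelian -/
theorem cz_met (hE : E.IsElliptic) (hW : IsModel E W) (hΛ : RealRootOne M W Λ)
    (a : Automorphic M W 1) (ho : Orders E W 1 n r) {k : ℕ} (hk : r ⊤ = k)
    {N : Subgroup (M ≃ₐ[K] M)} (hN : CLayered k N)
    (hj : derivedSeries (M ≃ₐ[K] M) 2 ≤ N) {χ : (M ≃ₐ[K] M) → ℂ} (hχ : χ ∈ Irr (M ≃ₐ[K] M)) :
    0 ≤ n χ := by
  by_cases h : ∃ x ∈ N, χ x ≠ χ 1
  · exact (cz_zero hE hW hΛ a ho hk hN hχ h).ge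
  · push Not at h
    rw [derivedSeries_succ, derivedSeries_one] at hj
    obtain ⟨B, l, -, hind⟩ := induced_of_metabelian hχ h hj
    obtain ⟨m, hm, h1⟩ := cz_hol_sol hE hW hΛ a ho hk hN (j := 2)
      (by rw [derivedSeries_succ, derivedSeries_one]; exact hj) B l
    rw [← hind] at h1
    rw [(ho.twist χ hχ).unique h1]
    exact hm

/-- **Additivity for commuting normal ambivalent subgroups.** -/
theorem cz_add (hE : E.IsElliptic) (hW : IsModel E W) (hΛ : RealRootOne M W Λ)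
    (a : Automorphic M W 1) (ho : Orders E W 1 n r) {k : ℕ} (hk : r ⊤ = k)
    {ι : Type} (X : ι → Subgroup (M ≃ₐ[K] M)) (b : ι → ℕ) (hn : ∀ i, (X i).Normal)
    (ha : ∀ i, Ambivalent (X i))
    (hc : ∀ i j, i ≠ j → ∀ x ∈ X i, ∀ y ∈ X j, x * y = y * x) (hb : ∀ i, Rigid (b i) (X i))
    (s : Finset ι) (hvis : ∀ i ∈ s, ∃ χ ∈ Irr (M ≃ₐ[K] M), n χ ≠ 0 ∧
      ∃ x ∈ ⁅X i, X i⁆, χ x ≠ χ 1) : 2 * ∑ i ∈ s, b i ≤ k := by
  classical
  have : Fintype (M ≃ₐ[K] M) := Fintype.ofFinite _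
  have hθ := evenSol_curve hΛ a ho
  have h1 := theta_one_curve hE hW a ho hk
  have hex : ∀ i ∈ s, ∃ y ∈ commutator (X i),
      (theta n : (M ≃ₐ[K] M) → ℂ) ((X i).subtype y) ≠ theta n 1 := by
    intro i hi
    by_contra hcon
    push Not at hcon
    obtain ⟨χ, hχ, hne, x, hx, hx1⟩ := hvis i hi
    apply hne
    have hni := hn i
    have hconst : ∀ z ∈ ⁅X i, X i⁆, (theta n : (M ≃ₐ[K] M) → ℂ) z = theta n 1 := by
      intro z hz
      rw [← map_commutator_top] at hz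
      obtain ⟨y, hy, rfl⟩ := hz
      exact hcon y hy
    have hnorm : (⁅X i, X i⁆ : Subgroup (M ≃ₐ[K] M)).Normal := inferInstance
    have h2 := pair_zero hχ ⁅X i, X i⁆ (kernel_sol hθ.sol _ hnorm hconst) hx hx1
    rw [theta_pair _ hχ] at h2
    have hG : (Nat.card (M ≃ₐ[K] M) : ℂ) ≠ 0 := by exact_mod_cast Nat.card_pos.ne'
    have h3 := (mul_eq_zero.mp h2).resolve_right hG
    exact_mod_cast h3
  choose! y hy hne using hex
  have h2 := additivity_half hθ (fun i : s => X i) (fun i => ha i)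
    (fun i j hij x hx z hz => hc i j (fun h => hij (Subtype.ext h)) x hx z hz) (fun i => b i)
    (fun i => hb i) (fun i => y i) (fun i => hy i i.2) (fun i => hne i i.2) h1
  rwa [Finset.sum_coe_sort s b] at h2

/-- even orders, and the degree at most five -/
theorem cz_ambi (hE : E.IsElliptic) (hW : IsModel E W) (hΛ : RealRootOne M W Λ)
    (a : Automorphic M W 1) (ho : Orders E W 1 n r) {k : ℕ} (hk : r ⊤ = k)
    (H : Subgroup (M ≃ₐ[K] M)) (hH : Ambivalent H) (U : Subgroup (M ≃ₐ[K] M)) (hU : U ≤ H)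
    (ψ : U →* ℂˣ) : ∃ l : ℤ, HasOrder (twistedL M W (induced U ψ)) 1 l ∧ Even l ∧
      (k ≤ 5 → 0 ≤ l ∧ ∀ (V : Subgroup (M ≃ₐ[K] M)) (hV : V ≤ U), ∃ l' : ℤ,
        HasOrder (twistedL M W (induced V (ψ.comp (inclusion hV)))) 1 l' ∧ l ≤ l') := by
  have hθ := evenSol_curve hΛ a ho
  obtain ⟨l, hl, hl2⟩ := order_ind a ho U ψ
  refine ⟨l, hl, hθ.mult_even hH hU ψ hl2, fun hk5 => ?_⟩
  have h1 := hθ.mult_five hH (theta_one_curve hE hW a ho hk) hk5 hU ψ hl2
  refine ⟨h1.1, fun V hV => ?_⟩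
  obtain ⟨l', hl', hl2'⟩ := order_ind a ho V (ψ.comp (inclusion hV))
  exact ⟨l', hl', h1.2 V hV l' hl2'⟩

/-- the same for fields -/
theorem cz_ambi_field (hE : E.IsElliptic) (hW : IsModel E W) (hΛ : RealRootOne M W Λ)
    (a : Automorphic M W 1) (ho : Orders E W 1 n r) {k : ℕ} (hk : r ⊤ = k)
    (H : Subgroup (M ≃ₐ[K] M)) (hH : Ambivalent H) (F : IntermediateField K M)
    (hF : F.fixingSubgroup ≤ H) : Even (r F) ∧
      (k ≤ 5 → 0 ≤ r F ∧ ∀ F', F ≤ F' → r F ≤ r F') := by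
  have hfix : ∀ (F : IntermediateField K M),
      HasOrder (twistedL M W (induced F.fixingSubgroup 1)) 1 (r F) := by
    intro F
    exact (ind_iff a _ 1 _).2 (ho.lin hE hW (by simp) a F)
  obtain ⟨l, hl, hev, h5⟩ := cz_ambi hE hW hΛ a ho hk H hH F.fixingSubgroup hF 1
  have hlr : r F = l := (hfix F).unique hl
  refine ⟨hlr ▸ hev, fun hk5 => ⟨hlr ▸ (h5 hk5).1, fun F' hF' => ?_⟩⟩
  obtain ⟨l', hl', hle⟩ := (h5 hk5).2 F'.fixingSubgroup
    (IntermediateField.fixingSubgroup_antitone hF')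
  rw [MonoidHom.one_comp] at hl'
  rw [hlr, (hfix F').unique hl']
  exact hle

end

end Pool.Agent.H701.HW
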