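import Mathlib
import Pool.Agent.H701.HW.HalfCur

/-!
# Ambivalent groups: linear characters, the whole group as a family
-/

set_option autoImplicit false
set_option linter.unusedSectionVars false

namespace Pool.Agent.H701.HW

open Subgroup Pool.Agent.H302R2 Pool.Agent.H302R3 Pool.Agent.H302R5 Pool.Agent.H541R3.ART
  Pool.Agent.W446.AS Pool.Agent.TH820 Pool.Agent.H377.AD
open scoped commutatorElement

section
variable {G : Type} [Group G] [Finite G]

/-- an irreducible character which is trivial on the commutator subgroup has degree one -/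
theorem deg_one_of_comm {χ : G → ℂ} (hχ : χ ∈ Irr G) (h : ∀ x ∈ commutator G, χ x = χ 1) :
    χ 1 = 1 := by
  classical
  have : Fintype G := Fintype.ofFinite G
  obtain ⟨Z, hZn, hZ1, hZ2⟩ := irr_kernel hχ
  obtain ⟨l, hl⟩ := exists_linear hχ hZn hZ2 ⊤ (fun x _ y _ => (hZ1 _).2
    (h _ (Subgroup.commutator_mem_commutator (mem_top x) (mem_top y))))
  by_contra hne
  apply hl
  let l' : G →* ℂˣ := l.comp Subgroup.topEquiv.symm.toMonoidHom
  have h1 : pr χ (fun g => ((l' g : ℂˣ) : ℂ)) = 0 := by
    apply pr_ne hχ (lin_irr l')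
    intro h2
    apply hne
    rw [h2]
    change ((l' 1 : ℂˣ) : ℂ) = 1
    rw [map_one, Units.val_one]
  rw [pr_eq] at h1
  have h2 := (mul_eq_zero.1 h1).resolve_left (inv_ne_zero card_ne)
  rw [finsum_eq_sum_of_fintype, ← h2]
  refine Fintype.sum_equiv Subgroup.topEquiv.toEquiv _ _ fun b => ?_
  congr 1
  change (((l b)⁻¹ : ℂˣ) : ℂ) = ((l' ((b : G)⁻¹) : ℂˣ) : ℂ)
  rw [map_inv]
  rfl

/-- the whole group as a family -/
lemma family_top {b r : ℕ} (hb : Rigid b G) (hr : r < b) :
    Family r (fun _ : Unit => (⊤ : Subgroup G)) where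
  comm i j hij := absurd (Subsingleton.elim i j) hij
  perm g i := ⟨(), fun x => ⟨fun _ => mem_top _, fun _ => mem_top _⟩⟩
  trans i j := ⟨1, fun x => ⟨fun _ => mem_top _, fun _ => mem_top _⟩⟩
  rigid := ⟨b, fun _ => hb.of_surj (Subgroup.topEquiv (G := G)).symm.toMonoidHom
    (Subgroup.topEquiv (G := G)).symm.surjective, by rw [Nat.card_unique, mul_one]; exact hr⟩

lemma ambivalent_top (h : Ambivalent G) : Ambivalent (⊤ : Subgroup G) :=
  h.of_surj (f := (Subgroup.topEquiv (G := G)).symm.toMonoidHom)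
    (Subgroup.topEquiv (G := G)).symm.surjective

lemma iSup_comm_top : (⨆ _ : Unit, ⁅(⊤ : Subgroup G), (⊤ : Subgroup G)⁆) = commutator G := by
  rw [iSup_const]
  rfl

/-- the copies of `T` in a wreath product -/
lemma ambivalent_copy {G T Q : Type} [Group G] [Group T] [Group Q] (hT : Ambivalent T)
    (e : G ≃* RegularWreathProduct T Q) (q : Q) :
    Ambivalent (((copy T q).range).comap e.toMonoidHom : Subgroup G) := by
  let f : T →* (((copy T q).range).comap e.toMonoidHom : Subgroup G) :=
    (e.symm.toMonoidHom.comp (copy T q)).codRestrict _ (fun x => by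
      rw [Subgroup.mem_comap]
      change e (e.symm (copy T q x)) ∈ _
      rw [e.apply_symm_apply]
      exact ⟨x, rfl⟩)
  refine hT.of_surj (f := f) ?_
  rintro ⟨g, x, hx⟩
  refine ⟨x, Subtype.ext ?_⟩
  change e.symm (copy T q x) = g
  rw [hx]
  exact e.symm_apply_apply g

end

end Pool.Agent.H701.HW
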