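import Mathlib
import Pool.Agent.H377.AD.Fam

/-!
# Two cycles of odd prime length in the kernel give an involution in the kernel
-/

set_option autoImplicit false
set_option linter.unusedSectionVars false

namespace Pool.Agent.H701.HW

open Subgroup Equiv Pool.Agent.H302R2 Pool.Agent.H302R3 Pool.Agent.H302R5 Pool.Agent.H541R3.ARS
  Pool.Agent.H377.AD
open scoped commutatorElement

section
variable {p : ℕ} [hp : Fact p.Prime]

/-- functions with values in `ZMod 2` and sum zero -/
def V0 (p : ℕ) [NeZero p] : AddSubgroup (ZMod p → ZMod 2) where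
  carrier := {f | ∑ x, f x = 0}
  add_mem' := by
    intro a b ha hb
    have ha' : ∑ x, a x = 0 := ha
    have hb' : ∑ x, b x = 0 := hb
    change ∑ x, (a x + b x) = 0
    rw [Finset.sum_add_distrib, ha', hb', add_zero]
  zero_mem' := by simp
  neg_mem' := by
    intro a ha
    have ha' : ∑ x, a x = 0 := ha
    change ∑ x, - a x = 0
    rw [Finset.sum_neg_distrib, ha', neg_zero]

/-- shift of the argument -/
def sh (k : ZMod p) : V0 p →+ V0 p where
  toFun f := ⟨fun x => f.1 (x - k), by
    change ∑ x, f.1 (x - k) = 0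
    rw [← f.2]
    exact Fintype.sum_equiv (Equiv.subRight k) _ _ fun x => rfl⟩
  map_zero' := rfl
  map_add' _ _ := rfl

lemma sh_apply (k : ZMod p) (f : V0 p) (x : ZMod p) : (sh k f).1 x = f.1 (x - k) := rfl

lemma sh_add (k l : ZMod p) (f : V0 p) : sh (k + l) f = sh k (sh l f) := by
  apply Subtype.ext
  funext x
  rw [sh_apply, sh_apply, sh_apply, sub_sub]

lemma sh_zero (f : V0 p) : sh (0 : ZMod p) f = f := by
  apply Subtype.ext
  funext x
  rw [sh_apply, sub_zero]

/-- the shifts act as automorphisms -/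
def shA : Multiplicative (ZMod p) →* MulAut (Multiplicative (V0 p)) where
  toFun k :=
    { toFun := fun f => Multiplicative.ofAdd (sh (Multiplicative.toAdd k) (Multiplicative.toAdd f))
      invFun := fun f => Multiplicative.ofAdd (sh (-Multiplicative.toAdd k) (Multiplicative.toAdd f))
      left_inv := fun f => by
        change Multiplicative.ofAdd (sh (-Multiplicative.toAdd k) (sh (Multiplicative.toAdd k)
          (Multiplicative.toAdd f))) = f
        rw [← sh_add, neg_add_cancel, sh_zero, ofAdd_toAdd]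
      right_inv := fun f => by
        change Multiplicative.ofAdd (sh (Multiplicative.toAdd k) (sh (-Multiplicative.toAdd k)
          (Multiplicative.toAdd f))) = f
        rw [← sh_add, add_neg_cancel, sh_zero, ofAdd_toAdd]
      map_mul' := fun f g => by rw [toAdd_mul, map_add, ofAdd_add] }
  map_one' := by
    ext1 f
    change Multiplicative.ofAdd (sh 0 (Multiplicative.toAdd f)) = f
    rw [sh_zero, ofAdd_toAdd]
  map_mul' k l := by
    ext1 f
    change Multiplicative.ofAdd (sh (Multiplicative.toAdd k + Multiplicative.toAdd l)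
      (Multiplicative.toAdd f)) = _
    rw [sh_add]
    rfl

lemma shA_apply (k : Multiplicative (ZMod p)) (f : Multiplicative (V0 p)) :
    shA k f = Multiplicative.ofAdd (sh (Multiplicative.toAdd k) (Multiplicative.toAdd f)) := rfl

/-- fixed point free for odd `p` -/
lemma sh_surj (hp2 : p ≠ 2) {k : ZMod p} (hk : k ≠ 0) (f : V0 p) : ∃ h : V0 p, h - sh k h = f := by
  have hinj : Function.Injective (AddMonoidHom.id (V0 p) - sh k) := by
    rw [injective_iff_map_eq_zero]
    intro h hh
    have h1 : ∀ x, h.1 (x - k) = h.1 x := by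
      intro x
      have h2 : h - sh k h = 0 := hh
      have h3 : h = sh k h := sub_eq_zero.1 h2
      conv_rhs => rw [h3]
      rfl
    have h4 : ∀ (n : ℕ) (x : ZMod p), h.1 (x - n * k) = h.1 x := by
      intro n
      induction n with
      | zero => intro x; simp
      | succ n ih =>
        intro x
        have e : x - ((n + 1 : ℕ) : ZMod p) * k = (x - n * k) - k := by push_cast; ring
        rw [e, h1, ih]
    have h5 : ∀ x, h.1 x = h.1 0 := by
      intro x
      have h6 := h4 ((x * k⁻¹ : ZMod p).val) x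
      have e : x - (((x * k⁻¹ : ZMod p).val : ℕ) : ZMod p) * k = 0 := by
        rw [ZMod.natCast_val, ZMod.cast_id', id_eq, mul_assoc, inv_mul_cancel₀ hk, mul_one, sub_self]
      rw [e] at h6
      exact h6.symm
    have h7 : (p : ZMod 2) * h.1 0 = 0 := by
      have h8 := h.2
      change ∑ x, h.1 x = 0 at h8
      rw [Finset.sum_congr rfl (fun x _ => h5 x), Finset.sum_const, Finset.card_univ, ZMod.card,
        nsmul_eq_mul] at h8
      exact h8
    have h8 : (p : ZMod 2) = 1 := by
      have h9 : Odd p := hp.out.odd_of_ne_two hp2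
      rwa [ZMod.natCast_eq_one_iff_odd]
    rw [h8, one_mul] at h7
    apply Subtype.ext
    funext x
    rw [h5, h7]
    rfl
  obtain ⟨h, hh⟩ := Finite.surjective_of_injective hinj f
  exact ⟨h, hh⟩

/-! ### the permutations -/

variable {α : Type} [Fintype α] [DecidableEq α]

/-- the permutations of the second coordinate -/
def fl : Multiplicative (V0 p) →* Perm (ZMod p × ZMod 2) where
  toFun f :=
    { toFun := fun z => (z.1, z.2 + (Multiplicative.toAdd f).1 z.1)
      invFun := fun z => (z.1, z.2 - (Multiplicative.toAdd f).1 z.1)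
      left_inv := fun z => by simp
      right_inv := fun z => by simp }
  map_one' := by
    ext1 z
    change (z.1, z.2 + (0 : V0 p).1 z.1) = z
    simp
  map_mul' f g := by
    ext1 z
    change (z.1, z.2 + (Multiplicative.toAdd f + Multiplicative.toAdd g).1 z.1) =
      (z.1, z.2 + (Multiplicative.toAdd g).1 z.1 + (Multiplicative.toAdd f).1 z.1)
    rw [AddSubgroup.coe_add, Pi.add_apply]
    congr 1
    ring

lemma fl_apply (f : Multiplicative (V0 p)) (x : ZMod p) (e : ZMod 2) :
    fl f (x, e) = (x, e + (Multiplicative.toAdd f).1 x) := rfl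

variable (g : ZMod p × ZMod 2 ↪ α) (t : Perm α)

lemma t_pow (ht : ∀ x e, t (g (x, e)) = g (x + 1, e)) (n : ℕ) (x : ZMod p) (e : ZMod 2) :
    (t ^ n) (g (x, e)) = g (x + n, e) := by
  induction n generalizing x with
  | zero => simp
  | succ n ih =>
    rw [pow_succ, Perm.mul_apply, ht, ih]
    congr 2
    push_cast
    ring

/-- powers of `t` -/
def tp (htp : t ^ p = 1) : Multiplicative (ZMod p) →* Perm α where
  toFun k := t ^ (Multiplicative.toAdd k).val
  map_one' := by
    change t ^ (0 : ZMod p).val = 1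
    rw [ZMod.val_zero, pow_zero]
  map_mul' k l := by
    change t ^ (Multiplicative.toAdd k + Multiplicative.toAdd l).val = _
    rw [ZMod.val_add, ← pow_add, ← pow_eq_pow_mod _ htp]

lemma tp_apply (htp : t ^ p = 1) (k : Multiplicative (ZMod p)) :
    tp t htp k = t ^ (Multiplicative.toAdd k).val := rfl

lemma tp_g (htp : t ^ p = 1) (ht : ∀ x e, t (g (x, e)) = g (x + 1, e))
    (k : Multiplicative (ZMod p)) (x : ZMod p) (e : ZMod 2) :
    tp t htp k (g (x, e)) = g (x + Multiplicative.toAdd k, e) := by
  rw [tp_apply, t_pow g t ht, ZMod.natCast_val, ZMod.cast_id', id_eq]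

/-- compatibility -/
lemma compat (htp : t ^ p = 1) (ht : ∀ x e, t (g (x, e)) = g (x + 1, e))
    (k : Multiplicative (ZMod p)) :
    ((Perm.viaEmbeddingHom g).comp fl).comp (shA k).toMonoidHom =
      (MulAut.conj (tp t htp k)).toMonoidHom.comp ((Perm.viaEmbeddingHom g).comp fl) := by
  refine MonoidHom.ext fun f => ?_
  change Perm.viaEmbedding (fl (shA k f)) g = tp t htp k * Perm.viaEmbedding (fl f) g *
    (tp t htp k)⁻¹
  rw [eq_mul_inv_iff_mul_eq]
  refine Equiv.ext fun z => ?_
  rw [Perm.mul_apply, Perm.mul_apply]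
  by_cases hz : z ∈ Set.range g
  · obtain ⟨⟨x, e⟩, rfl⟩ := hz
    rw [tp_g g t htp ht, Perm.viaEmbedding_apply, Perm.viaEmbedding_apply, fl_apply, fl_apply,
      tp_g g t htp ht, shA_apply, toAdd_ofAdd, sh_apply, add_sub_cancel_right]
  · have hz' : tp t htp k z ∉ Set.range g := by
      rintro ⟨⟨x, e⟩, h⟩
      apply hz
      refine ⟨(x - Multiplicative.toAdd k, e), ?_⟩
      apply (tp t htp k).injective
      rw [tp_g g t htp ht, sub_add_cancel, h]
    rw [Perm.viaEmbedding_apply_of_notMem _ _ _ hz', Perm.viaEmbedding_apply_of_notMem _ _ _ hz]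

/-- the group generated by the flips and the rotation -/
abbrev EE (p : ℕ) [Fact p.Prime] : Type :=
  SemidirectProduct (Multiplicative (V0 p)) (Multiplicative (ZMod p)) shA

lemma ee_eq (k : Multiplicative (ZMod p)) (h : V0 p) :
    (SemidirectProduct.inl (Multiplicative.ofAdd h) * SemidirectProduct.inr k : EE p) =
      ⟨Multiplicative.ofAdd (h - sh (Multiplicative.toAdd k) h), k⟩ *
        SemidirectProduct.inl (Multiplicative.ofAdd h) := by
  refine SemidirectProduct.ext ?_ ?_
  · rw [SemidirectProduct.mul_left, SemidirectProduct.mul_left, SemidirectProduct.left_inl,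
      SemidirectProduct.right_inl, map_one, MulAut.one_apply, SemidirectProduct.left_inr, mul_one,
      shA_apply, toAdd_ofAdd, ← ofAdd_add, sub_add_cancel]
  · rw [SemidirectProduct.mul_right, SemidirectProduct.mul_right, SemidirectProduct.right_inl,
      SemidirectProduct.right_inr, one_mul, mul_one]

lemma ee_mk (f : Multiplicative (V0 p)) (k : Multiplicative (ZMod p)) :
    (⟨f, k⟩ : EE p) = SemidirectProduct.inl f * SemidirectProduct.inr k := by
  refine SemidirectProduct.ext ?_ ?_
  · rw [SemidirectProduct.mul_left, SemidirectProduct.left_inl,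
      SemidirectProduct.right_inl, map_one, MulAut.one_apply, SemidirectProduct.left_inr, mul_one]
  · rw [SemidirectProduct.mul_right, SemidirectProduct.right_inl,
      SemidirectProduct.right_inr, one_mul]

/-- **Two cycles of odd prime length** -/
theorem invol_of_two_cycles (hp2 : p ≠ 2) {θ : Perm α → ℂ} (hθ : IsSolHeilbronn θ)
    (htp : t ^ p = 1) (ht : ∀ x e, t (g (x, e)) = g (x + 1, e)) (hK : θ t = θ 1) :
    ∃ z : Perm α, θ z = θ 1 ∧ z * z = 1 ∧ z ≠ 1 ∧ Perm.sign z = 1 := by
  classical
  obtain ⟨φ, hφ1, hφ2⟩ : ∃ φ : EE p →* Perm α,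
      (∀ f, φ (SemidirectProduct.inl f) = Perm.viaEmbedding (fl f) g) ∧
      ∀ k, φ (SemidirectProduct.inr k) = tp t htp k :=
    ⟨SemidirectProduct.lift ((Perm.viaEmbeddingHom g).comp fl) (tp t htp) (compat g t htp ht),
      fun f => SemidirectProduct.lift_inl _ _ _ _, fun k => SemidirectProduct.lift_inr _ _ _ _⟩
  have hfin : Finite (EE p) := Finite.of_equiv _ SemidirectProduct.equivProd.symm
  have hsol : Group.IsSolvable (EE p) := by
    have h1 : Group.IsSolvable (Multiplicative (V0 p)) := sol_of_comm mul_comm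
    have h2 : Group.IsSolvable (Multiplicative (ZMod p)) := sol_of_comm mul_comm
    exact Group.isSolvable_of_ker_le_range (SemidirectProduct.inl (φ := shA (p := p)))
      SemidirectProduct.rightHom (by
        rw [SemidirectProduct.range_inl_eq_ker_rightHom])
  have hpow : ∀ n : ℕ, θ (t ^ n) = θ 1 := fun n =>
    const_zpowers hθ hK ⟨t ^ n, Subgroup.npow_mem_zpowers t n⟩
  -- a nontrivial character
  have hroots : HasEnoughRootsOfUnity ℂ (Monoid.exponent (Multiplicative (ZMod p))) := by
    have : NeZero (Monoid.exponent (Multiplicative (ZMod p))) :=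
      ⟨Monoid.exponent_ne_zero_of_finite⟩
    infer_instance
  obtain ⟨ψ, hψ⟩ := CommGroup.exists_apply_ne_one_of_hasEnoughRootsOfUnity
    (Multiplicative (ZMod p)) ℂ (a := Multiplicative.ofAdd (1 : ZMod p)) (by
      intro h
      have h1 : (1 : ZMod p) = 0 := h
      exact one_ne_zero h1)
  let χ : EE p →* ℂˣ := ψ.comp SemidirectProduct.rightHom
  have hconj : ∀ e : EE p, χ e ≠ 1 → θ (φ e) = θ 1 := by
    rintro ⟨f, k⟩ he
    have hk : Multiplicative.toAdd k ≠ 0 := by
      intro h
      apply he
      change ψ k = 1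
      have h1 : k = 1 := h
      rw [h1, map_one]
    obtain ⟨h, hh⟩ := sh_surj hp2 hk (Multiplicative.toAdd f)
    have h1 := ee_eq k h
    rw [hh, ofAdd_toAdd] at h1
    have h2 : (⟨f, k⟩ : EE p) = SemidirectProduct.inl (Multiplicative.ofAdd h) *
        SemidirectProduct.inr k * (SemidirectProduct.inl (Multiplicative.ofAdd h))⁻¹ := by
      rw [h1, mul_inv_cancel_right]
    rw [h2, map_mul, map_mul, map_inv, hθ.conj, hφ2, tp_apply, hpow]
  have hall := fun e : EE p => hθ.kernel_lemma hsol φ χ (e₀ := SemidirectProduct.inr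
    (Multiplicative.ofAdd (1 : ZMod p))) (by
      change ψ _ ≠ 1
      rw [SemidirectProduct.rightHom_inr]
      exact hψ) hconj e
  -- the involution
  let f : V0 p := ⟨fun x => (if x = 0 then 1 else 0) + (if x = 1 then 1 else 0), by
    change ∑ x, ((if x = 0 then (1 : ZMod 2) else 0) + (if x = 1 then 1 else 0)) = 0
    rw [Finset.sum_add_distrib, Finset.sum_ite_eq', Finset.sum_ite_eq', if_pos (Finset.mem_univ _),
      if_pos (Finset.mem_univ _)]
    decide⟩
  have hf0 : f.1 0 = 1 := by
    change (if (0 : ZMod p) = 0 then (1 : ZMod 2) else 0) + (if (0 : ZMod p) = 1 then 1 else 0) = 1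
    rw [if_pos rfl, if_neg zero_ne_one, add_zero]
  have hff : f + f = 0 := by
    apply Subtype.ext
    funext x
    change f.1 x + f.1 x = 0
    exact CharTwo.add_self_eq_zero _
  refine ⟨φ (SemidirectProduct.inl (Multiplicative.ofAdd f)), hall _, ?_, ?_, ?_⟩
  · rw [← map_mul, ← map_mul, ← ofAdd_add, hff, ofAdd_zero, map_one, map_one]
  · intro h
    have h1 : (φ (SemidirectProduct.inl (Multiplicative.ofAdd f))) (g (0, 0)) = g (0, 0) := by
      rw [h]; rfl
    rw [hφ1, Perm.viaEmbedding_apply, fl_apply, toAdd_ofAdd, hf0] at h1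
    have h2 := g.injective h1
    have h3 : (0 : ZMod 2) + 1 = 0 := (Prod.ext_iff.1 h2).2
    exact absurd h3 (by decide)
  · obtain ⟨h, hh⟩ := sh_surj hp2 (k := (1 : ZMod p)) one_ne_zero f
    have h1 := ee_eq (Multiplicative.ofAdd (1 : ZMod p)) h
    rw [toAdd_ofAdd, hh, ee_mk] at h1
    have h2 := congrArg (fun e => Perm.sign (φ e)) h1
    simp only [map_mul] at h2
    have h3 : ∀ a b c : ℤˣ, a * b = c * b * a → c = 1 := by decide
    exact h3 _ _ _ h2

end

end Pool.Agent.H701.HW
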