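import Mathlib
import Pool.Agent.H701.HW.Aff
import Pool.Agent.H701.HW.TwoCyc
import Pool.Agent.H377.AD.Sim

/-!
# Symmetric groups: blocks whose sizes are prime powers
-/

set_option autoImplicit false
set_option linter.unusedSectionVars false

namespace Pool.Agent.H701.HW

open Subgroup Equiv Pool.Agent.H302R2 Pool.Agent.H302R3 Pool.Agent.H302R5 Pool.Agent.H541R3.ARS
  Pool.Agent.H377.AD
open scoped commutatorElement

section blocks
variable {ι : Type} {F : ι → Type} [∀ i, Field (F i)] {α : Type}
  (f : (Σ i, F i) ↪ α)

/-- the embedding of a block -/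
def be (i : ι) : F i ↪ α := (Function.Embedding.sigmaMk i).trans f

lemma be_apply (i : ι) (x : F i) : be f i x = f ⟨i, x⟩ := rfl

/-- the affine group of a block -/
noncomputable def blk (i : ι) : aff (F i) →* Perm α :=
  (Perm.viaEmbeddingHom (be f i)).comp (aff (F i)).subtype

lemma blk_apply (i : ι) (g : aff (F i)) (x : F i) :
    blk f i g (be f i x) = be f i ((g : Perm (F i)) x) := Perm.viaEmbedding_apply _ _ _

lemma blk_notMem (i : ι) (g : aff (F i)) {y : α} (hy : y ∉ Set.range (be f i)) :
    blk f i g y = y := Perm.viaEmbedding_apply_of_notMem _ _ _ hy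

lemma blk_comm {i j : ι} (hij : i ≠ j) (x : aff (F i)) (y : aff (F j)) :
    Commute (blk f i x) (blk f j y) := by
  apply Perm.Disjoint.commute
  intro z
  by_cases hz : z ∈ Set.range (be f i)
  · right
    apply blk_notMem
    rintro ⟨b, hb⟩
    obtain ⟨a, ha⟩ := hz
    rw [be_apply] at ha hb
    have h1 := f.injective (ha.trans hb.symm)
    exact hij (congrArg Sigma.fst h1)
  · left
    exact blk_notMem f i x hz

end blocks

section kernel
variable {α : Type} [Fintype α] [DecidableEq α] {θ : Perm α → ℂ}

/-- an even involution in the kernel -/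
theorem alt_of_invol (hα : 5 ≤ Fintype.card α) (hθ : IsSolHeilbronn θ) {z : Perm α}
    (hz : θ z = θ 1) (h2 : z * z = 1) (h1 : z ≠ 1) (hs : Perm.sign z = 1) (g : Perm α)
    (hg : Perm.sign g = 1) : θ g = θ 1 := by
  classical
  have hA : IsSolHeilbronn (fun x : alternatingGroup α => θ x) :=
    hθ.comp (alternatingGroup α).subtype
  have hK : SK (fun x : alternatingGroup α => θ x) z :=
    ⟨Perm.mem_alternatingGroup.2 hs, hz⟩
  have hD : HasDS (fun x : alternatingGroup α => θ x) := by
    intro a b c d hab hac had hbc hbd hcd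
    exact hK.double_swap hA h2 h1 hab hac had hbc hbd hcd
  obtain ⟨h3, h4⟩ := SK.all hA hD hα hg
  exact h4

end kernel

section visible
variable {F : Type} [Field F] [Finite F] {α : Type} [Fintype α] [DecidableEq α] {θ : Perm α → ℂ}
  (b : F ↪ α)

/-- translations of a block in the kernel -/
theorem alt_of_block (hα : 5 ≤ Fintype.card α) (hθ : IsSolHeilbronn θ) {p : ℕ} [hp : Fact p.Prime]
    [CharP F p] (h3 : 3 ≤ Nat.card F) (h2p : 2 * p ≤ Fintype.card α)
    (hK : θ (Perm.viaEmbedding (tr (Multiplicative.ofAdd (1 : F)) : Perm F) b) = θ 1) (g : Perm α)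
    (hg : Perm.sign g = 1) : θ g = θ 1 := by
  classical
  have : Fintype F := Fintype.ofFinite F
  set t : Perm α := Perm.viaEmbedding (tr (Multiplicative.ofAdd (1 : F)) : Perm F) b with ht
  have htb : ∀ x, t (b x) = b (x + 1) := fun x => Perm.viaEmbedding_apply _ _ _
  have hpow : ∀ (c : F ↪ α) (n : ℕ), (Perm.viaEmbedding (tr (Multiplicative.ofAdd (1 : F)) : Perm F) c) ^ n =
      Perm.viaEmbedding (tr (Multiplicative.ofAdd (n : F)) : Perm F) c := by
    intro c n
    rw [← Perm.viaEmbeddingHom_apply, ← map_pow, ← Perm.viaEmbeddingHom_apply, ← Subgroup.coe_pow,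
      ← map_pow, ← ofAdd_nsmul, nsmul_one]
  have hpp : ∀ c : F ↪ α, (Perm.viaEmbedding (tr (Multiplicative.ofAdd (1 : F)) : Perm F) c) ^ p = 1 := by
    intro c
    rw [hpow, CharP.cast_eq_zero, ofAdd_zero, map_one, ← Perm.viaEmbeddingHom_apply]
    exact map_one _
  by_cases hp2 : p = 2
  · subst hp2
    refine alt_of_invol hα hθ hK ?_ ?_ ?_ g hg
    · rw [← pow_two]
      exact hpp b
    · intro h
      have h4 := htb 0
      rw [h, Perm.one_apply] at h4
      have h5 := b.injective h4
      rw [zero_add] at h5
      exact zero_ne_one h5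
    · -- the sign of a commutator
      obtain ⟨u, hu⟩ : ∃ u : Fˣ, u ≠ 1 := by
        by_contra hcon
        push Not at hcon
        have h4 : Fintype.card Fˣ ≤ 1 := Fintype.card_le_one_iff.2 fun a b => by
          rw [hcon a, hcon b]
        rw [Fintype.card_units, ← Nat.card_eq_fintype_card] at h4
        omega
      have h4 := tr_mem_comm hu (1 : F)
      let s : aff F →* ℤˣ := (Perm.sign.comp (Perm.viaEmbeddingHom b)).comp (aff F).subtype
      have h5 : s (tr (Multiplicative.ofAdd (1 : F))) = 1 :=
        Abelianization.commutator_subset_ker s h4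
      exact h5
  -- odd characteristic
  obtain ⟨e, t', hK', htp', het⟩ : ∃ (e : ZMod p × ZMod 2 ↪ α) (t' : Perm α), θ t' = θ 1 ∧
      t' ^ p = 1 ∧ ∀ x y, t' (e (x, y)) = e (x + 1, y) := by
    let c : ZMod p →+* F := ZMod.castHom (dvd_refl p) F
    have hc : Function.Injective c := c.injective
    by_cases hsurj : Function.Surjective c
    · -- the prime field: a second block
      have hcardF : Fintype.card F = p := by
        rw [← Fintype.card_of_bijective ⟨hc, hsurj⟩, ZMod.card]
      obtain ⟨b', hb'⟩ : ∃ b' : F ↪ α, ∀ x y, b' x ≠ b y := by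
        have h4 : Fintype.card F ≤ Fintype.card {y : α // y ∉ Set.range b} := by
          have h5 : Fintype.card {y : α // y ∈ Set.range b} = p := by
            rw [← hcardF]
            exact (Fintype.card_congr (Equiv.ofInjective b b.injective)).symm
          rw [Fintype.card_subtype_compl, h5, hcardF]
          omega
        obtain ⟨b'⟩ := Function.Embedding.nonempty_of_card_le h4
        exact ⟨b'.trans (Function.Embedding.subtype _), fun x y h => (b' x).2 ⟨y, h.symm⟩⟩
      let t2 : Perm α := Perm.viaEmbedding (tr (Multiplicative.ofAdd (1 : F)) : Perm F) b'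
      have ht2 : ∀ x, t2 (b' x) = b' (x + 1) := fun x => Perm.viaEmbedding_apply _ _ _
      have hn1 : ∀ x, t (b' x) = b' x := fun x =>
        Perm.viaEmbedding_apply_of_notMem _ _ _ (by rintro ⟨y, hy⟩; exact hb' x y hy.symm)
      have hn2 : ∀ x, t2 (b x) = b x := fun x =>
        Perm.viaEmbedding_apply_of_notMem _ _ _ (by rintro ⟨y, hy⟩; exact hb' y x hy)
      have hcomm : Commute t t2 := by
        apply Perm.Disjoint.commute
        intro z
        by_cases hz : z ∈ Set.range b
        · obtain ⟨x, rfl⟩ := hz
          exact Or.inr (hn2 x)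
        · exact Or.inl (Perm.viaEmbedding_apply_of_notMem _ _ _ hz)
      obtain ⟨w, hw⟩ : ∃ w : Perm α, w * t * w⁻¹ = t2 := by
        let e : {y : α // y ∈ Set.range b} ≃ {y : α // y ∈ Set.range b'} :=
          (Equiv.ofInjective b b.injective).symm.trans (Equiv.ofInjective b' b'.injective)
        have hw1 : ∀ x, e.extendSubtype (b x) = b' x := by
          intro x
          rw [Equiv.extendSubtype_apply_of_mem e _ ⟨x, rfl⟩]
          have h5 : (⟨b x, x, rfl⟩ : {y : α // y ∈ Set.range b}) = Equiv.ofInjective b b.injective x :=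
            rfl
          change ((Equiv.ofInjective b' b'.injective ((Equiv.ofInjective b b.injective).symm
            ⟨b x, x, rfl⟩) : {y : α // y ∈ Set.range b'}) : α) = b' x
          rw [h5, Equiv.symm_apply_apply]
          rfl
        have hw2 : ∀ z, z ∉ Set.range b → e.extendSubtype z ∉ Set.range b' := by
          rintro z hz ⟨x, hx⟩
          rw [← hw1] at hx
          exact hz ⟨x, e.extendSubtype.injective hx⟩
        refine ⟨e.extendSubtype, ?_⟩
        rw [mul_inv_eq_iff_eq_mul]
        refine Equiv.ext fun z => ?_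
        rw [Perm.mul_apply, Perm.mul_apply]
        by_cases hz : z ∈ Set.range b
        · obtain ⟨x, rfl⟩ := hz
          rw [htb, hw1, hw1, ht2]
        · have h6 : t z = z := Perm.viaEmbedding_apply_of_notMem _ _ _ hz
          have h7 : t2 (e.extendSubtype z) = e.extendSubtype z :=
            Perm.viaEmbedding_apply_of_notMem _ _ _ (hw2 z hz)
          rw [h6, h7]
      have hK2 : θ t2 = θ 1 := by
        rw [← hw, hθ.conj, hK]
      refine ⟨⟨fun z => if z.2 = 0 then b (c z.1) else b' (c z.1), ?_⟩, t * t2, ?_, ?_, ?_⟩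
      · rintro ⟨x, y⟩ ⟨x', y'⟩ h
        have hy2 : ∀ y : ZMod 2, y ≠ 0 → y = 1 := by decide
        dsimp only at h
        by_cases h5 : y = 0
        · by_cases h6 : y' = 0
          · rw [if_pos h5, if_pos h6] at h
            rw [hc (b.injective h), h5, h6]
          · rw [if_pos h5, if_neg h6] at h
            exact absurd h.symm (hb' _ _)
        · by_cases h6 : y' = 0
          · rw [if_neg h5, if_pos h6] at h
            exact absurd h (hb' _ _)
          · rw [if_neg h5, if_neg h6] at h
            rw [hc (b'.injective h), hy2 y h5, hy2 y' h6]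
      · rw [hθ.mul_of_comm hcomm.eq hK2, hK]
      · rw [hcomm.mul_pow, hpp b]
        have := hpp b'
        rw [one_mul]
        exact this
      · intro x y
        change (t * t2) (if y = 0 then b (c x) else b' (c x)) =
          if y = 0 then b (c (x + 1)) else b' (c (x + 1))
        rw [Perm.mul_apply]
        by_cases h5 : y = 0
        · rw [if_pos h5, if_pos h5, hn2, htb, map_add c, map_one c]
        · rw [if_neg h5, if_neg h5, ht2, hn1, map_add c, map_one c]
    · -- a larger field
      unfold Function.Surjective at hsurj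
      push Not at hsurj
      obtain ⟨ω, hω⟩ := hsurj
      refine ⟨⟨fun z => b (c z.1 + if z.2 = 0 then 0 else ω), ?_⟩, t, hK, hpp b, ?_⟩
      · rintro ⟨x, y⟩ ⟨x', y'⟩ h
        have hy2 : ∀ y : ZMod 2, y ≠ 0 → y = 1 := by decide
        have h4 := b.injective h
        dsimp only at h4
        by_cases h5 : y = 0
        · by_cases h6 : y' = 0
          · rw [if_pos h5, if_pos h6, add_zero, add_zero] at h4
            rw [hc h4, h5, h6]
          · rw [if_pos h5, if_neg h6, add_zero] at h4
            exact absurd (show c (x - x') = ω by rw [map_sub, h4]; ring) (hω _)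
        · by_cases h6 : y' = 0
          · rw [if_neg h5, if_pos h6, add_zero] at h4
            exact absurd (show c (x' - x) = ω by rw [map_sub, ← h4]; ring) (hω _)
          · rw [if_neg h5, if_neg h6] at h4
            rw [hc (add_right_cancel h4), hy2 y h5, hy2 y' h6]
      · intro x y
        change t (b (c x + if y = 0 then 0 else ω)) = b (c (x + 1) + if y = 0 then 0 else ω)
        rw [htb, map_add c, map_one c]
        congr 1
        ring
  obtain ⟨z, hz1, hz2, hz3, hz4⟩ := invol_of_two_cycles e t' hp2 hθ htp' het hK'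
  exact alt_of_invol hα hθ hz1 hz2 hz3 hz4 g hg

end visible

end Pool.Agent.H701.HW
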