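import Mathlib
import Pool.Agent.H701.HW.SymR

/-!
# Rigidity of the symmetric groups
-/

set_option autoImplicit false
set_option linter.unusedSectionVars false

namespace Pool.Agent.H701.HW

open Subgroup Equiv Pool.Agent.H302R2 Pool.Agent.H302R3 Pool.Agent.H302R5 Pool.Agent.H541R3.ARS
  Pool.Agent.H377.AD
open scoped commutatorElement

lemma Rigid.mono {b b' : ℕ} {X : Type} [Group X] (h : Rigid b X) (hb : b' ≤ b) : Rigid b' X :=
  fun ε hε n hn h1 x hx => h ε hε n (hn.trans_le hb) h1 x hx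

lemma exists_unit {F : Type} [Field F] [Finite F] (h3 : 3 ≤ Nat.card F) : ∃ u : Fˣ, u ≠ 1 := by
  classical
  have : Fintype F := Fintype.ofFinite F
  by_contra hcon
  push Not at hcon
  have h4 : Fintype.card Fˣ ≤ 1 := Fintype.card_le_one_iff.2 fun a b => by
    rw [hcon a, hcon b]
  rw [Fintype.card_units, ← Nat.card_eq_fintype_card] at h4
  omega

/-- **Blocks of prime power length**, with fields -/
theorem rigid_fields {N : ℕ} (hN : 5 ≤ N) {ι : Type} [Fintype ι] (F : ι → Type)
    [∀ i, Field (F i)] [∀ i, Finite (F i)] (p : ι → ℕ) (hp : ∀ i, (p i).Prime)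
    (hc : ∀ i, CharP (F i) (p i)) (h3 : ∀ i, 3 ≤ Nat.card (F i)) (hm : ∀ i, 2 * p i ≤ N)
    (hs : ∑ i, Nat.card (F i) ≤ N) : Rigid (∑ i, (Nat.card (F i) - 1)) (Perm (Fin N)) := by
  classical
  have : ∀ i, Fintype (F i) := fun i => Fintype.ofFinite _
  have hemb : Nonempty ((Σ i, F i) ↪ Fin N) := by
    apply Function.Embedding.nonempty_of_card_le
    rw [Fintype.card_sigma, Fintype.card_fin]
    refine le_trans (le_of_eq ?_) hs
    exact Finset.sum_congr rfl fun i _ => (Nat.card_eq_fintype_card).symm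
  obtain ⟨f⟩ := hemb
  intro ε hε n hn h1 x hx
  by_contra hne
  have hx1 : Perm.sign x = 1 := Abelianization.commutator_subset_ker Perm.sign hx
  have hvis : ∀ i, ε (blk f i (tr (Multiplicative.ofAdd (1 : F i)))) ≠ ε 1 := by
    intro i h
    have : Fact (p i).Prime := ⟨hp i⟩
    have := hc i
    exact hne (alt_of_block (be f i) (p := p i) (by rw [Fintype.card_fin]; exact hN) hε (h3 i)
      (by rw [Fintype.card_fin]; exact hm i) h x hx1)
  have hadd := additivity (X := fun i => aff (F i)) (b := fun i => Nat.card (F i) - 1)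
    (fun i => rigid_aff) Finset.univ (Perm (Fin N)) ε hε (fun i => blk f i)
    (fun i _ j _ hij a b => blk_comm f hij a b) (fun i => tr (Multiplicative.ofAdd (1 : F i)))
    (fun i _ => by
      obtain ⟨u, hu⟩ := exists_unit (h3 i)
      exact tr_mem_comm hu 1) (fun i _ => hvis i) n h1
  omega

/-- **Blocks of prime power length** -/
theorem rigid_blocks {N : ℕ} (hN : 5 ≤ N) {ι : Type} [Fintype ι] (q : ι → ℕ)
    (hq : ∀ i, IsPrimePow (q i)) (h3 : ∀ i, 3 ≤ q i) (hm : ∀ i, 2 * (q i).minFac ≤ N)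
    (hs : ∑ i, q i ≤ N) : Rigid (∑ i, (q i - 1)) (Perm (Fin N)) := by
  classical
  choose p k hp hk hpk using hq
  have hp' : ∀ i, (p i).Prime := fun i => (hp i).nat_prime
  have hfact : ∀ i, Fact (p i).Prime := fun i => ⟨hp' i⟩
  have hmin : ∀ i, (q i).minFac = p i := fun i => by
    rw [← hpk i, (hp' i).pow_minFac (hk i).ne']
  have hcard : ∀ i, Nat.card (GaloisField (p i) (k i)) = q i := fun i => by
    rw [GaloisField.card (p i) (k i) (hk i).ne', hpk i]
  have h := rigid_fields hN (fun i => GaloisField (p i) (k i)) p hp' (fun i => inferInstance)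
    (fun i => by rw [hcard]; exact h3 i) (fun i => by rw [← hmin i]; exact hm i)
    (by rw [Finset.sum_congr rfl (fun i _ => hcard i)]; exact hs)
  rwa [Finset.sum_congr rfl (fun i _ => by rw [hcard i] :
    ∀ i ∈ Finset.univ, Nat.card (GaloisField (p i) (k i)) - 1 = q i - 1)] at h

/-- prime powers -/
theorem rigid_prime_pow {N p a : ℕ} (hN : 5 ≤ N) (hp : p.Prime) (ha : 2 ≤ a) (h : N = p ^ a) :
    Rigid (N - 1) (Perm (Fin N)) := by
  have h2 : 2 * p ≤ N := by
    rw [h]
    calc 2 * p ≤ p * p := Nat.mul_le_mul_right _ hp.two_le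
      _ = p ^ 2 := (pow_two p).symm
      _ ≤ p ^ a := Nat.pow_le_pow_right hp.pos ha
  have h3 := rigid_blocks hN (ι := Unit) (fun _ => N)
    (fun _ => by rw [h]; exact hp.isPrimePow.pow (by omega)) (fun _ => by omega)
    (fun _ => by rw [h, hp.pow_minFac (by omega), ← h]; exact h2) (by simp)
  simpa using h3

/-- sums of powers of two -/
lemma exists_list : ∀ k n : ℕ, 2 ≤ k → n < 2 ^ k → ∃ l : List ℕ, (∀ j ∈ l, 2 ≤ j) ∧
    (l.map fun j => 2 ^ j).sum ≤ n ∧ n ≤ (l.map fun j => 2 ^ j - 1).sum + (k - 2) + 3 := by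
  intro k n hk
  induction k, hk using Nat.le_induction generalizing n with
  | base =>
    intro hn
    exact ⟨[], by simp, by simp, by simp; omega⟩
  | succ k hk ih =>
    intro hn
    by_cases h : n < 2 ^ k
    · obtain ⟨l, h1, h2, h3⟩ := ih n h
      exact ⟨l, h1, h2, by omega⟩
    · obtain ⟨l, h1, h2, h3⟩ := ih (n - 2 ^ k) (by rw [pow_succ] at hn; omega)
      have h4 : 1 ≤ 2 ^ k := Nat.one_le_two_pow
      refine ⟨k :: l, ?_, ?_, ?_⟩
      · intro j hj
        rcases List.mem_cons.1 hj with rfl | hj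
        · exact hk
        · exact h1 j hj
      · rw [List.map_cons, List.sum_cons]
        omega
      · rw [List.map_cons, List.sum_cons]
        omega

/-- **All symmetric groups**: `N - O(log N)` -/
theorem rigid_log {N : ℕ} (hN : 5 ≤ N) : Rigid (N - 2 - Nat.log 2 N) (Perm (Fin N)) := by
  classical
  have hlog : 2 ≤ Nat.log 2 N := by
    have : Nat.log 2 4 ≤ Nat.log 2 N := Nat.log_mono_right (by omega)
    have h4 : Nat.log 2 4 = 2 := by decide
    omega
  obtain ⟨l, h1, h2, h3⟩ := exists_list (Nat.log 2 N + 1) N (by omega)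
    (Nat.lt_pow_succ_log_self (by norm_num) N)
  have hq : ∀ i : Fin l.length, 2 ≤ l.get i := fun i => h1 _ (List.get_mem l i)
  have h4 : ∀ i : Fin l.length, 4 ≤ 2 ^ l.get i := fun i =>
    calc 4 = 2 ^ 2 := by norm_num
      _ ≤ 2 ^ l.get i := Nat.pow_le_pow_right (by norm_num) (hq i)
  have hsum : ∀ g : ℕ → ℕ, ∑ i : Fin l.length, g (l.get i) = (l.map g).sum := by
    intro g
    rw [← List.sum_ofFn]
    congr 1
    rw [List.ofFn_congr rfl]
    exact (List.ofFn_getElem_eq_map l g)
  have h5 := rigid_blocks hN (fun i : Fin l.length => 2 ^ l.get i)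
    (fun i => Nat.prime_two.isPrimePow.pow (by have := hq i; omega)) (fun i => by have := h4 i; omega)
    (fun i => by
      rw [Nat.prime_two.pow_minFac (by have := hq i; omega)]
      omega)
    (by rw [hsum (fun j => 2 ^ j)]; exact h2)
  rw [hsum (fun j => 2 ^ j - 1)] at h5
  exact Rigid.mono h5 (by omega)

end Pool.Agent.H701.HW
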