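import Mathlib
import Pool.Agent.H701.HW.SymB

/-!
# The standard character of the symmetric group
-/

set_option autoImplicit false
set_option linter.unusedSectionVars false

namespace Pool.Agent.H701.HW

open Subgroup Equiv Pool.Agent.H302R2 Pool.Agent.H302R3 Pool.Agent.H541R3.ART Pool.Agent.H377.AD

/-- the permutation representation -/
def permRep (N : ℕ) : Representation ℂ (Perm (Fin N)) (Fin N → ℂ) where
  toFun g := LinearMap.funLeft ℂ ℂ (g⁻¹ : Perm (Fin N))
  map_one' := by
    ext f x
    simp
  map_mul' g h := by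
    ext f x
    simp

lemma permRep_apply {N : ℕ} (g : Perm (Fin N)) (f : Fin N → ℂ) (x : Fin N) :
    permRep N g f x = f (g⁻¹ x) := rfl

lemma permRep_char {N : ℕ} (g : Perm (Fin N)) :
    (permRep N).character g = (Finset.univ.filter fun x => g x = x).card := by
  change LinearMap.trace ℂ _ (permRep N g) = _
  rw [LinearMap.trace_eq_matrix_trace ℂ (Pi.basisFun ℂ (Fin N)), Matrix.trace]
  have h1 : ∀ i, (LinearMap.toMatrix (Pi.basisFun ℂ (Fin N)) (Pi.basisFun ℂ (Fin N))
      (permRep N g)).diag i = if g i = i then 1 else 0 := by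
    intro i
    rw [Matrix.diag_apply, LinearMap.toMatrix_apply, Pi.basisFun_apply, Pi.basisFun_repr,
      permRep_apply, Pi.single_apply]
    congr 1
    rw [Perm.inv_eq_iff_eq]
    exact propext ⟨fun h => h.symm, fun h => h.symm⟩
  rw [Finset.sum_congr rfl (fun i _ => h1 i), Finset.sum_boole]

/-- the standard character -/
noncomputable def stdChar (N : ℕ) (g : Perm (Fin N)) : ℂ := (permRep N).character g - 1

theorem stdChar_sol {N : ℕ} (hN : 0 < N) : IsSolHeilbronn (stdChar N) where
  conj g h := by
    unfold stdChar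
    rw [Representation.char_conj]
  mult H _ ψ := by
    classical
    have : Fintype H := Fintype.ofFinite H
    have hH : (Nat.card H : ℂ) ≠ 0 := by exact_mod_cast Nat.card_pos.ne'
    have : Invertible (Nat.card H : ℂ) := invertibleOfNonzero hH
    let σ : Representation ℂ H (Fin N → ℂ) := (permRep N).comp H.subtype
    have h := Representation.card_inv_mul_sum_char_mul_char_eq_finrank (linRep ψ) σ
    have h2 : ∀ x : H, σ.character x * (linRep ψ).character x⁻¹
        = (permRep N).character (x : Perm (Fin N)) * (((ψ x)⁻¹ : ℂˣ) : ℂ) := by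
      intro x
      rw [linRep_char, map_inv]
      rfl
    rw [Finset.sum_congr rfl (fun x _ => h2 x)] at h
    have h3 : ∑ x : H, (permRep N).character (x : Perm (Fin N)) * (((ψ x)⁻¹ : ℂˣ) : ℂ) =
        (Module.finrank ℂ (Representation.IntertwiningMap (linRep ψ) σ) : ℂ) * Nat.card H := by
      rw [← h]
      field_simp
    rw [finsum_eq_sum_of_fintype]
    have h4 : ∑ x : H, stdChar N x * (((ψ x)⁻¹ : ℂˣ) : ℂ) =
        ∑ x : H, (permRep N).character (x : Perm (Fin N)) * (((ψ x)⁻¹ : ℂˣ) : ℂ) -
          ∑ x : H, (((ψ x)⁻¹ : ℂˣ) : ℂ) := by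
      rw [← Finset.sum_sub_distrib]
      refine Finset.sum_congr rfl fun x _ => ?_
      unfold stdChar
      ring
    rw [h4, h3]
    by_cases hψ : ψ = 1
    · have h5 : ∑ x : H, (((ψ x)⁻¹ : ℂˣ) : ℂ) = Nat.card H := by
        rw [hψ]
        simp [Nat.card_eq_fintype_card]
      rw [h5]
      -- the constants
      have h6 : 1 ≤ Module.finrank ℂ (Representation.IntertwiningMap (linRep ψ) σ) := by
        rw [Nat.one_le_iff_ne_zero]
        intro h0
        have h7 : Module.Finite ℂ (Representation.IntertwiningMap (linRep ψ) σ) := inferInstance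
        have h8 := Module.finrank_zero_iff.1 h0
        let T : Representation.IntertwiningMap (linRep ψ) σ :=
          { toLinearMap := LinearMap.pi fun _ => LinearMap.id
            isIntertwining' := fun g => by
              rw [hψ]
              ext x
              change ((1 : ℂˣ) : ℂ) • (1 : ℂ) = 1
              simp }
        have h9 : T = 0 := Subsingleton.elim _ _
        have h10 : T 1 ⟨0, hN⟩ = (0 : Representation.IntertwiningMap (linRep ψ) σ) 1 ⟨0, hN⟩ := by
          rw [h9]
        have h11 : (1 : ℂ) = 0 := h10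
        exact one_ne_zero h11
      refine ⟨Module.finrank ℂ (Representation.IntertwiningMap (linRep ψ) σ) - 1, ?_⟩
      rw [Nat.cast_sub h6]
      push_cast
      ring
    · have h5 : ∑ x : H, (((ψ x)⁻¹ : ℂˣ) : ℂ) = 0 := by
        have h6 := Pool.Agent.H541R3.ARS.sum_char (χ := ψ⁻¹) (by
          intro h
          apply hψ
          refine MonoidHom.ext fun x => ?_
          have h7 := DFunLike.congr_fun h x
          rw [MonoidHom.inv_apply, MonoidHom.one_apply] at h7
          rw [MonoidHom.one_apply]
          exact inv_eq_one.1 h7)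
        rw [← h6]
        exact Finset.sum_congr rfl fun x _ => by rw [MonoidHom.inv_apply]
      rw [h5, sub_zero]
      exact ⟨_, rfl⟩

/-- **Sharpness** -/
theorem not_rigid {N : ℕ} (hN : 3 ≤ N) : ¬ Rigid N (Perm (Fin N)) := by
  intro h
  have h1 : stdChar N 1 = ((N - 1 : ℕ) : ℂ) := by
    unfold stdChar
    rw [permRep_char]
    simp only [Perm.one_apply, Finset.filter_true, Finset.card_univ, Fintype.card_fin]
    rw [Nat.cast_sub (by omega)]
    simp
  let a : Fin N := ⟨0, by omega⟩
  let b : Fin N := ⟨1, by omega⟩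
  let c : Fin N := ⟨2, by omega⟩
  have hab : a ≠ b := by simp [a, b]
  have hac : a ≠ c := by simp [a, c]
  have hbc : b ≠ c := by simp [b, c]
  have h2 : swap a b * swap b c * (swap a b)⁻¹ * (swap b c)⁻¹ ∈ commutator (Perm (Fin N)) :=
    Subgroup.commutator_mem_commutator (Subgroup.mem_top (swap a b)) (Subgroup.mem_top (swap b c))
  have h3 := h _ (stdChar_sol (by omega)) (N - 1) (by omega) h1 _ h2
  rw [h1] at h3
  unfold stdChar at h3
  rw [permRep_char] at h3
  have h4 : (Finset.univ.filter fun x => (swap a b * swap b c * (swap a b)⁻¹ * (swap b c)⁻¹ :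
      Perm (Fin N)) x = x).card < N := by
    have h5 : (Finset.univ.filter fun x => (swap a b * swap b c * (swap a b)⁻¹ * (swap b c)⁻¹ :
        Perm (Fin N)) x = x) ⊂ Finset.univ := by
      rw [Finset.filter_ssubset]
      refine ⟨a, Finset.mem_univ _, ?_⟩
      rw [swap_inv, swap_inv, Perm.mul_apply, Perm.mul_apply, Perm.mul_apply,
        swap_apply_of_ne_of_ne hab hac, swap_apply_left, swap_apply_left,
        swap_apply_of_ne_of_ne hac.symm hbc.symm]
      exact hac.symm
    have h6 := Finset.card_lt_card h5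
    rwa [Finset.card_univ, Fintype.card_fin] at h6
  have h5 : ((N - 1 : ℕ) : ℂ) = (N : ℂ) - 1 := by
    rw [Nat.cast_sub (by omega)]; simp
  rw [h5] at h3
  have h6 := add_right_cancel (a := ((Finset.univ.filter fun x => (swap a b * swap b c *
    (swap a b)⁻¹ * (swap b c)⁻¹ : Perm (Fin N)) x = x).card : ℂ)) (b := -1) (c := (N : ℂ)) (by
    rw [← sub_eq_add_neg, ← sub_eq_add_neg]; exact h3)
  have h7 : (Finset.univ.filter fun x => (swap a b * swap b c *
    (swap a b)⁻¹ * (swap b c)⁻¹ : Perm (Fin N)) x = x).card = N := by exact_mod_cast h6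
  omega

end Pool.Agent.H701.HW
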