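import Mathlib
import Pool.Agent.H701.HW.HalfEx
import Pool.Agent.H701.HW.SymB
import Pool.Agent.H701.HW.Std

/-!
# Galois groups which are symmetric groups: the quadratic field
-/

set_option autoImplicit false
set_option linter.unusedSectionVars false

namespace Pool.Agent.H701.HW

open Subgroup

section
variable {K M : Type} [Field K] [Field M] [Algebra K M] [FiniteDimensional K M] [IsGalois K M]

/-- the commutator subgroup has index two -/
lemma index_comm_sym {N : ℕ} (hN : 5 ≤ N) {G : Type} [Group G]
    (e : G ≃* Equiv.Perm (Fin N)) : (commutator G).index = 2 := by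
  classical
  have h1 : commutator (Equiv.Perm (Fin N)) = alternatingGroup (Fin N) :=
    alternatingGroup.commutator_perm_eq (by simpa using hN)
  have h2 : (commutator G).map e.toMonoidHom = commutator (Equiv.Perm (Fin N)) := by
    rw [commutator_def, commutator_def, Subgroup.map_commutator, ← MonoidHom.range_eq_map,
      MonoidHom.range_eq_top.2 e.surjective]
  have h3 : ((commutator G).map e.toMonoidHom).index = (commutator G).index :=
    Subgroup.index_map_equiv _ e
  have : Nontrivial (Fin N) := Fin.nontrivial_iff_two_le.2 (by omega)
  rw [← h3, h2, h1, alternatingGroup.index_eq_two]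

/-- the quadratic field -/
lemma quad_field (h : (commutator (M ≃ₐ[K] M)).index = 2) :
    Module.finrank K (IntermediateField.fixedField (commutator (M ≃ₐ[K] M))) = 2 ∧
    ∀ F : IntermediateField K M,
      (IntermediateField.fixedField (commutator (M ≃ₐ[K] M)) ≤ F →
        F ⊓ IntermediateField.fixedField (commutator (M ≃ₐ[K] M)) =
          IntermediateField.fixedField (commutator (M ≃ₐ[K] M))) ∧
      (¬ IntermediateField.fixedField (commutator (M ≃ₐ[K] M)) ≤ F →
        F ⊓ IntermediateField.fixedField (commutator (M ≃ₐ[K] M)) = ⊥) := by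
  have h2 : Module.finrank K (IntermediateField.fixedField (commutator (M ≃ₐ[K] M))) = 2 := by
    rw [IntermediateField.finrank_eq_fixingSubgroup_index, IntermediateField.fixingSubgroup_fixedField,
      h]
  refine ⟨h2, fun F => ⟨fun hF => inf_eq_right.2 hF, fun hF => ?_⟩⟩
  set Q := IntermediateField.fixedField (commutator (M ≃ₐ[K] M)) with hQ
  have hle : F ⊓ Q ≤ Q := inf_le_right
  have hdvd : Module.finrank K (F ⊓ Q : IntermediateField K M) ∣ 2 := by
    rw [← h2]
    exact IntermediateField.finrank_dvd_of_le_right hle
  rcases (Nat.dvd_prime Nat.prime_two).1 hdvd with h3 | h3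
  · exact IntermediateField.finrank_eq_one_iff.1 h3
  · exfalso
    apply hF
    have h4 : F ⊓ Q = Q := IntermediateField.eq_of_le_of_finrank_eq hle (by rw [h3, h2])
    rw [← h4]
    exact inf_le_left

end

end Pool.Agent.H701.HW
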